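import Pool.Agent.H18.Bes.StepB
import Pool.Agent.H18.L.N902.EW.Mt

/-!
# Algebraic independence of the full system
-/

set_option autoImplicit false
set_option linter.unusedSectionVars false

open scoped Differential

namespace Pool.Agent.H18.Bes

open Pool.Agent.N902.EW

/-- exchange -/
theorem ai_exch {F E κ : Type*} [Field F] [Field E] [Algebra F E] [Finite κ] {x y : κ → E} (hx : AlgebraicIndependent F x)
    (h : ∀ i, x i ∈ clf F (Set.range y)) : AlgebraicIndependent F y := by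
  classical
  have := Fintype.ofFinite κ
  have h1 := card_le_eRk hx h
  have h2 : (Set.range y).encard ≤ Fintype.card κ := by
    rw [← Set.image_univ, ← ENat.card_eq_coe_fintype_card, ← Set.encard_univ]
    exact Set.encard_image_le _ _
  have h3 : (Fintype.card κ : ℕ∞) ≤ (Set.range y).encard := h1.trans (Matroid.eRk_le_encard _ _)
  have hfin : (Set.range y).Finite := Set.finite_range _
  have h4 : (Ma F).Indep (Set.range y) := by
    refine ((Ma F).isRkFinite_of_finite hfin).indep_of_encard_le_eRk ?_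
    exact h2.trans h1
  have hinj : Function.Injective y := by
    rw [← Set.injOn_univ]
    refine Set.Finite.injOn_of_encard_image_eq Set.finite_univ ?_
    rw [Set.image_univ]
    refine le_antisymm (h2.trans ?_) ?_
    · rw [Set.encard_univ, ENat.card_eq_coe_fintype_card]
    · rw [Set.encard_univ, ENat.card_eq_coe_fintype_card]; exact h3
  exact (algebraicIndependent_subtype_range hinj).1 h4

variable {F : Type*} [Field F] [Differential F] [CharZero F] {E : Subfield F}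

theorem Tr.transcendental {κ : Type*} {y : κ → F} {s : Set κ} {x : F} (h : Tr (AdS E (y '' s)) x) :
    Transcendental (Algebra.adjoin E (y '' s)) x := by
  rintro ⟨p, hp, h0⟩
  have hle : ∀ a : Algebra.adjoin E (y '' s), (a : F) ∈ AdS E (y '' s) := by
    intro a
    refine Algebra.adjoin_induction (p := fun a _ => a ∈ AdS E (y '' s)) ?_ ?_ ?_ ?_ a.2
    · intro b hb; exact subset_AdS _ _ hb
    · intro r; exact le_AdS _ _ r.2
    · intro b c _ _ hb hc; exact (AdS E (y '' s)).add_mem hb hc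
    · intro b c _ _ hb hc; exact (AdS E (y '' s)).mul_mem hb hc
  have h1 := h (p.map (algebraMap (Algebra.adjoin E (y '' s)) F)) (fun k => by
    rw [Polynomial.coeff_map]
    exact hle _) (by rw [Polynomial.eval_map_algebraMap, h0])
  exact hp ((Polynomial.map_eq_zero_iff Subtype.val_injective).1 h1)

theorem ai_step {ι κ : Type*} [Finite ι] {y : κ → F} {T : Set κ} (hT : AlgebraicIndepOn E y T) {g : ι → κ}
    (h : ∀ S : Finset ι, ∀ j ∉ S, Tr (AdS E (y '' (T ∪ g '' (S : Set ι)))) (y (g j))) :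
    AlgebraicIndepOn E y (T ∪ Set.range g) := by
  classical
  have := Fintype.ofFinite ι
  have key : ∀ S : Finset ι, AlgebraicIndepOn E y (T ∪ g '' (S : Set ι)) := by
    intro S
    induction S using Finset.induction_on with
    | empty => rw [Finset.coe_empty, Set.image_empty, Set.union_empty]; exact hT
    | insert j S hj ih =>
      rw [Finset.coe_insert, Set.image_insert_eq, Set.union_insert]
      exact ih.insert (h S j hj).transcendental
  have := key Finset.univ
  rwa [Finset.coe_univ, Set.image_univ] at this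

variable {ι : Type*} {w q f κ : ι → F}

theorem BS.ai [Finite ι] (h : BS E w q f κ) : AlgebraicIndependent E (Sum.elim w (Sum.elim f κ)) := by
  classical
  have := Fintype.ofFinite ι
  set y : ι ⊕ (ι ⊕ ι) → F := Sum.elim w (Sum.elim f κ) with hy
  have s1 : AlgebraicIndepOn E y (∅ ∪ Set.range Sum.inl) := by
    refine ai_step (algebraicIndependent_empty_type_iff.2 (algebraMap E F).injective) fun S j hj => ?_
    have e : y '' (∅ ∪ Sum.inl '' (S : Set ι)) = w '' (S : Set ι) := by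
      rw [Set.empty_union, Set.image_image]; rfl
    rw [e]
    exact h.toRS.tr _ _ (by exact_mod_cast hj)
  have s2 := ai_step (g := fun i => Sum.inr (Sum.inl i)) s1 fun S j hj => by
    have e : y '' (∅ ∪ Set.range Sum.inl ∪ (fun i => Sum.inr (Sum.inl i)) '' (S : Set ι)) =
        Set.range w ∪ f '' (S : Set ι) := by
      rw [Set.empty_union, Set.image_union, Set.image_image, ← Set.range_comp]; rfl
    rw [e, AdS_union]
    exact (h.PT S).2 j hj
  have s3 := ai_step (g := fun i => Sum.inr (Sum.inr i)) s2 fun S j hj => by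
    have e : y '' (∅ ∪ Set.range Sum.inl ∪ Set.range (fun i => Sum.inr (Sum.inl i)) ∪
        (fun i => Sum.inr (Sum.inr i)) '' (S : Set ι)) = Set.range w ∪ Set.range f ∪ κ '' (S : Set ι) := by
      rw [Set.empty_union, Set.image_union, Set.image_union, Set.image_image, ← Set.range_comp, ← Set.range_comp]; rfl
    rw [e, AdS_union, AdS_union]
    exact (h.QT S).2 j hj
  rw [← AlgebraicIndepOn.univ]
  refine s3.mono ?_
  rintro (i | i | i) _
  · exact Or.inl (Or.inl (Or.inr ⟨i, rfl⟩))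
  · exact Or.inl (Or.inr ⟨i, rfl⟩)
  · exact Or.inr ⟨i, rfl⟩

/-- an exchange of the summands -/
def swp (ι : Type*) : ι ⊕ (ι ⊕ ι) ≃ ι ⊕ (ι ⊕ ι) where
  toFun x := match x with
    | Sum.inl i => Sum.inr (Sum.inl i)
    | Sum.inr (Sum.inl i) => Sum.inl i
    | Sum.inr (Sum.inr i) => Sum.inr (Sum.inr i)
  invFun x := match x with
    | Sum.inl i => Sum.inr (Sum.inl i)
    | Sum.inr (Sum.inl i) => Sum.inl i
    | Sum.inr (Sum.inr i) => Sum.inr (Sum.inr i)
  left_inv := by rintro (i | i | i) <;> rfl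
  right_inv := by rintro (i | i | i) <;> rfl

/-- the functions `f`, `w f`, `2 f κ` -/
theorem BS.ai' [Finite ι] (h : BS E w q f κ) {j s : ι → F} (hj : ∀ i, w i = j i / f i) (hs : ∀ i, κ i = s i / (2 * f i)) :
    AlgebraicIndependent E (Sum.elim f (Sum.elim j s)) := by
  have h1 := h.ai
  have h2 : AlgebraicIndependent E (Sum.elim f (Sum.elim w κ)) := by
    refine (algebraicIndependent_equiv' (swp ι) ?_).2 h1
    ext (i | i | i) <;> rfl
  refine ai_exch h2 ?_
  have hf : ∀ i, f i ∈ clf E (Set.range (Sum.elim f (Sum.elim j s))) := fun i => subset_clf _ ⟨Sum.inl i, rfl⟩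
  have hj' : ∀ i, j i ∈ clf E (Set.range (Sum.elim f (Sum.elim j s))) := fun i => subset_clf _ ⟨Sum.inr (Sum.inl i), rfl⟩
  have hs' : ∀ i, s i ∈ clf E (Set.range (Sum.elim f (Sum.elim j s))) := fun i => subset_clf _ ⟨Sum.inr (Sum.inr i), rfl⟩
  rintro (i | i | i)
  · exact hf i
  · show w i ∈ _
    rw [hj]
    exact Subfield.div_mem _ (hj' i) (hf i)
  · show κ i ∈ _
    rw [hs]
    have m2 : (2 : F) ∈ clf E (Set.range (Sum.elim f (Sum.elim j s))) := by
      exact_mod_cast natCast_mem (clf E (Set.range (Sum.elim f (Sum.elim j s)))) 2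
    exact Subfield.div_mem _ (hs' i) (Subfield.mul_mem _ m2 (hf i))

/-! ### The union of all towers -/

theorem Tow.join {B K L : Subfield F} (hK : Tow B K) (hL : Tow B L) : ∃ M, Tow B M ∧ K ≤ M ∧ L ≤ M := by
  induction hL with
  | base => exact ⟨K, hK, le_rfl, hK.le⟩
  | @exp L u l _ hl hu ih =>
    obtain ⟨M, hM, h1, h2⟩ := ih
    exact ⟨Ad M u, hM.exp (h2 hl) hu, h1.trans (le_Ad _ _), Ad_le (h2.trans (le_Ad _ _)) (self_mem_Ad _ _)⟩
  | @prim L u a _ ha hu ih =>
    obtain ⟨M, hM, h1, h2⟩ := ih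
    exact ⟨Ad M u, hM.prim (h2 ha) hu, h1.trans (le_Ad _ _), Ad_le (h2.trans (le_Ad _ _)) (self_mem_Ad _ _)⟩

/-- the union of all towers over `B` -/
def Li (B : Subfield F) : Subfield F where
  carrier := {x | ∃ K, Tow B K ∧ x ∈ K}
  mul_mem' := by
    rintro a b ⟨K, hK, ha⟩ ⟨L, hL, hb⟩
    obtain ⟨M, hM, h1, h2⟩ := hK.join hL
    exact ⟨M, hM, M.mul_mem (h1 ha) (h2 hb)⟩
  add_mem' := by
    rintro a b ⟨K, hK, ha⟩ ⟨L, hL, hb⟩
    obtain ⟨M, hM, h1, h2⟩ := hK.join hL
    exact ⟨M, hM, M.add_mem (h1 ha) (h2 hb)⟩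
  one_mem' := ⟨B, .base, B.one_mem⟩
  zero_mem' := ⟨B, .base, B.zero_mem⟩
  neg_mem' := by rintro a ⟨K, hK, ha⟩; exact ⟨K, hK, K.neg_mem ha⟩
  inv_mem' := by rintro a ⟨K, hK, ha⟩; exact ⟨K, hK, K.inv_mem ha⟩

theorem mem_Li {B : Subfield F} {x : F} : x ∈ Li B ↔ ∃ K, Tow B K ∧ x ∈ K := Iff.rfl

theorem Tow.le_Li {B K : Subfield F} (h : Tow B K) : K ≤ Li B := fun _ hx => ⟨K, h, hx⟩

theorem le_Li (B : Subfield F) : B ≤ Li B := Tow.base.le_Li

theorem Li_exp {B : Subfield F} {u l : F} (hl : l ∈ Li B) (hu : u′ = l * u) : u ∈ Li B := by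
  obtain ⟨K, hK, h⟩ := hl
  exact ⟨Ad K u, hK.exp h hu, self_mem_Ad _ _⟩

theorem Li_prim {B : Subfield F} {u a : F} (ha : a ∈ Li B) (hu : u′ = a) : u ∈ Li B := by
  obtain ⟨K, hK, h⟩ := ha
  exact ⟨Ad K u, hK.prim h hu, self_mem_Ad _ _⟩

theorem mem_Ad_Li {B : Subfield F} {w x : F} (h : x ∈ Ad (Li B) w) : ∃ K, Tow B K ∧ x ∈ Ad K w := by
  have h' : x ∈ Subfield.closure ((Li B : Set F) ∪ {w}) := h
  induction h' using Subfield.closure_induction with
  | mem a ha =>
    rcases ha with ⟨K, hK, ha⟩ | ha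
    · exact ⟨K, hK, le_Ad _ _ ha⟩
    · rw [ha]; exact ⟨B, .base, self_mem_Ad _ _⟩
  | one => exact ⟨B, .base, Subfield.one_mem _⟩
  | add a b ha' hb' ha hb =>
    obtain ⟨K, hK, h1⟩ := ha ha'
    obtain ⟨L, hL, h2⟩ := hb hb'
    obtain ⟨M, hM, h3, h4⟩ := hK.join hL
    exact ⟨M, hM, Subfield.add_mem _ (Ad_le (h3.trans (le_Ad _ _)) (self_mem_Ad _ _) h1)
      (Ad_le (h4.trans (le_Ad _ _)) (self_mem_Ad _ _) h2)⟩
  | neg a ha' ha =>
    obtain ⟨K, hK, h1⟩ := ha ha'
    exact ⟨K, hK, Subfield.neg_mem _ h1⟩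
  | inv a ha' ha =>
    obtain ⟨K, hK, h1⟩ := ha ha'
    exact ⟨K, hK, Subfield.inv_mem _ h1⟩
  | mul a b ha' hb' ha hb =>
    obtain ⟨K, hK, h1⟩ := ha ha'
    obtain ⟨L, hL, h2⟩ := hb hb'
    obtain ⟨M, hM, h3, h4⟩ := hK.join hL
    exact ⟨M, hM, Subfield.mul_mem _ (Ad_le (h3.trans (le_Ad _ _)) (self_mem_Ad _ _) h1)
      (Ad_le (h4.trans (le_Ad _ _)) (self_mem_Ad _ _) h2)⟩

theorem RS.li (h : RS E w q) : RS (Li E) w q where
  st := by
    rintro x ⟨K, hK, hx⟩
    exact ⟨K, hK, hK.st h.st x hx⟩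
  w' := h.w'
  no := h.no
  mem i := le_Li E (h.mem i)
  inj := h.inj
  b1 i := by
    rintro ⟨K, hK, hx⟩
    exact (h.tow hK).b1 i hx
  b2 i j hij hx := by
    obtain ⟨K, hK, h1⟩ := mem_Ad_Li hx
    exact (h.tow hK).b2 i j hij h1

theorem BS.li (h : BS E w q f κ) : BS (Li E) w q f κ where
  toRS := h.toRS.li
  f0 := h.f0
  f' := h.f'
  fn := h.fn
  κ' := h.κ'
  cst x hx := le_Li E (h.cst x hx)

end Pool.Agent.H18.Bes
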