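import Pool.Agent.H18.Bes.Fun

/-!
# The system of the Bessel functions
-/

set_option autoImplicit false
set_option linter.unusedSectionVars false

open scoped Differential

namespace Pool.Agent.H18.Bes

open Pool.Agent.N902.EW

variable {K : Type*} [Field K] [CharZero K]

noncomputable def fL (ρ : K) : LF K := ps (fs ρ)
noncomputable def jL (ρ : K) : LF K := ps (Js ρ)
noncomputable def sL (ρ : K) : LF K := ps (Ss ρ)
noncomputable def rL (ρ : K) : LF K := ps (Rs ρ)

theorem fL_ne (ρ : K) : fL ρ ≠ 0 := by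
  intro h
  have h1 : fs ρ = 0 := ps_injective (h.trans (map_zero _).symm)
  have h2 := coeff_zero_fs ρ
  rw [h1, map_zero] at h2
  exact zero_ne_one h2

theorem fL' (ρ : K) : (fL ρ)′ = jL ρ := ps_th _

theorem sL' (ρ : K) : (sL ρ)′ = rL ρ := ps_th _

theorem jL' (ρ : K) : (jL ρ)′ = 4 * cc ρ * xx ^ 2 * fL ρ := by
  rw [jL, ps_th, th_Js, ps_smul, map_mul cc, map_mul ps, map_pow, map_ofNat]
  simp only [fL, xx]
  ring

theorem rL' (ρ : K) : (rL ρ)′ = 4 * cc ρ * xx ^ 2 * sL ρ + 2 * jL ρ := by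
  rw [rL, ps_th, th_Rs, map_add, ps_smul, ps_smul, map_mul cc, map_mul ps, map_pow, map_ofNat, map_ofNat]
  simp only [sL, jL, xx]
  ring

/-- the Wronskian relation -/
theorem wronsk (ρ : K) : fL ρ * rL ρ - sL ρ * jL ρ = fL ρ ^ 2 - 1 := by
  have h : (fL ρ * rL ρ - sL ρ * jL ρ - fL ρ ^ 2)′ = 0 := by
    rw [map_sub, map_sub, Derivation.leibniz, Derivation.leibniz, Derivation.leibniz_pow, fL', sL', jL', rL']
    simp only [smul_eq_mul, nsmul_eq_mul]
    push_cast
    ring
  obtain ⟨c, hc⟩ := const_iff h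
  have h0 : cf (fL ρ * rL ρ - sL ρ * jL ρ - fL ρ ^ 2) 0 = c := by
    rw [hc]
    have := cf_ps (PowerSeries.C c) 0
    rw [Nat.cast_zero] at this
    rw [this]
    simp
  have h1 : fL ρ * rL ρ - sL ρ * jL ρ - fL ρ ^ 2 = ps (fs ρ * Rs ρ - Ss ρ * Js ρ - fs ρ ^ 2) := by
    rw [map_sub, map_sub, map_mul, map_mul, map_pow]; rfl
  have h2 : c = -1 := by
    rw [h1] at h0
    have := cf_ps (fs ρ * Rs ρ - Ss ρ * Js ρ - fs ρ ^ 2) 0
    rw [Nat.cast_zero] at this
    rw [← h0, this]
    have e1 : PowerSeries.constantCoeff (Rs ρ) = 0 := by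
      rw [← PowerSeries.coeff_zero_eq_constantCoeff_apply]; exact coeff_zero_th _
    have e2 : PowerSeries.constantCoeff (Js ρ) = 0 := by
      rw [← PowerSeries.coeff_zero_eq_constantCoeff_apply]; exact coeff_zero_th _
    have e3 : PowerSeries.constantCoeff (fs ρ) = 1 := by
      rw [← PowerSeries.coeff_zero_eq_constantCoeff_apply]; exact coeff_zero_fs _
    rw [PowerSeries.coeff_zero_eq_constantCoeff_apply, map_sub, map_sub, map_mul, map_mul, map_pow, e1, e2, e3]
    ring
  rw [h2, map_neg, map_one, map_neg, map_one] at hc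
  linear_combination hc

/-- `1 / f^2` is not a derivative -/
theorem not_deriv (ρ : K) (g : LF K) : g′ ≠ (fL ρ ^ 2)⁻¹ := by
  intro h
  have h1 : fs ρ * (fs ρ)⁻¹ = 1 := PowerSeries.mul_inv_cancel _ (by
    rw [← PowerSeries.coeff_zero_eq_constantCoeff_apply, coeff_zero_fs]; exact one_ne_zero)
  have h2 : (fL ρ ^ 2)⁻¹ = ps ((fs ρ)⁻¹ ^ 2) := by
    rw [map_pow, ← inv_pow]
    congr 1
    refine inv_eq_of_mul_eq_one_right ?_
    rw [fL, ← map_mul, h1, map_one]
  have h3 := congrArg (fun z => cf z 0) h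
  simp only [cf_zero_deriv] at h3
  rw [h2] at h3
  have := cf_ps ((fs ρ)⁻¹ ^ 2) 0
  rw [Nat.cast_zero] at this
  rw [this, PowerSeries.coeff_zero_eq_constantCoeff_apply, map_pow, PowerSeries.constantCoeff_inv,
    ← PowerSeries.coeff_zero_eq_constantCoeff_apply, coeff_zero_fs] at h3
  norm_num at h3

/-- the logarithmic derivative -/
noncomputable def wL (ρ : K) : LF K := jL ρ / fL ρ

/-- the primitive -/
noncomputable def kL (ρ : K) : LF K := sL ρ / (2 * fL ρ)

theorem wL' (ρ : K) : (wL ρ)′ = 4 * cc ρ * xx ^ 2 - wL ρ ^ 2 := by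
  have := fL_ne ρ
  rw [wL, Derivation.leibniz_div, fL', jL', smul_eq_mul, smul_eq_mul, smul_eq_mul]
  field_simp

theorem fL'' (ρ : K) : (fL ρ)′ = wL ρ * fL ρ := by
  rw [fL', wL, div_mul_cancel₀ _ (fL_ne ρ)]

theorem kL' (ρ : K) : (kL ρ)′ = (1 - (fL ρ ^ 2)⁻¹) / 2 := by
  have h0 := fL_ne ρ
  have h1 := wronsk ρ
  have h2 : (2 * fL ρ)′ = 2 * jL ρ := by
    rw [Derivation.leibniz, fL', smul_eq_mul]
    have : (2 : LF K)′ = 0 := by
      have := (Differential.deriv (R := LF K)).map_natCast 2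
      simpa using this
    rw [this]; simp
  rw [kL, Derivation.leibniz_div, sL', h2]
  simp only [smul_eq_mul]
  field_simp
  linear_combination h1

theorem noInt (ρ : K) : NoInt (wL ρ) := ⟨fL ρ, fL_ne ρ, fL'' ρ, not_deriv ρ⟩

/-! ### The functions are not rational -/

section rational

open PowerSeries

/-- reflection of a polynomial -/
noncomputable def rf (p : Polynomial K) : Polynomial K := p.comp (Polynomial.C (-1) * Polynomial.X)

theorem coeff_rf (p : Polynomial K) (n : ℕ) : (rf p).coeff n = p.coeff n * (-1) ^ n := by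
  rw [rf, Polynomial.comp_C_mul_X_coeff]

theorem rescale_coe (p : Polynomial K) : rescale (-1 : K) (p : K⟦X⟧) = (rf p : K⟦X⟧) := by
  ext n
  rw [coeff_rescale, Polynomial.coeff_coe, Polynomial.coeff_coe, coeff_rf, mul_comm]

theorem rescale_fs (ρ : K) : rescale (-1 : K) (fs ρ) = fs ρ := by
  ext n
  rw [coeff_rescale]
  rcases Nat.even_or_odd' n with ⟨k, rfl | rfl⟩
  · rw [pow_mul]; simp
  · rw [coeff_fs_odd, mul_zero]

theorem rescale_Js (ρ : K) : rescale (-1 : K) (Js ρ) = Js ρ := by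
  ext n
  rw [coeff_rescale, Js, coeff_th]
  rcases Nat.even_or_odd' n with ⟨k, rfl | rfl⟩
  · rw [pow_mul]; simp
  · rw [coeff_fs_odd, mul_zero, mul_zero]

theorem natDegree_th_le (p : Polynomial K) : (Polynomial.X * Polynomial.derivative p).natDegree ≤ p.natDegree := by
  refine Polynomial.natDegree_le_iff_coeff_eq_zero.2 fun k hk => ?_
  rcases k with _ | k
  · simp
  · rw [Polynomial.coeff_X_mul, Polynomial.coeff_derivative, Polynomial.coeff_eq_zero_of_natDegree_lt hk, zero_mul]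

theorem th_coe' (p : Polynomial K) : th (p : K⟦X⟧) = ((Polynomial.X * Polynomial.derivative p : Polynomial K) : K⟦X⟧) := by
  ext n
  rw [coeff_th, Polynomial.coeff_coe, Polynomial.coeff_coe]
  rcases n with _ | n
  · simp
  · rw [Polynomial.coeff_X_mul, Polynomial.coeff_derivative]; push_cast; ring

theorem not_rational {ρ : K} (hρ : ρ ≠ 0) {n m : Polynomial K} (hm : m ≠ 0)
    (h : Js ρ * (m : K⟦X⟧) = (n : K⟦X⟧) * fs ρ) : False := by
  have hf : fs ρ ≠ 0 := fun h0 => by
    have := coeff_zero_fs ρ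
    rw [h0, map_zero] at this
    exact zero_ne_one this
  have hmP : (m : K⟦X⟧) ≠ 0 := by rwa [Ne, Polynomial.coe_eq_zero_iff]
  -- evenness
  have hsym : rf n * m = n * rf m := by
    have h1 := congrArg (rescale (-1 : K)) h
    rw [map_mul, map_mul, rescale_Js, rescale_fs, rescale_coe, rescale_coe] at h1
    have h2 : fs ρ * ((rf n : K⟦X⟧) * (m : K⟦X⟧) - (n : K⟦X⟧) * (rf m : K⟦X⟧)) = 0 := by
      linear_combination (rf m : K⟦X⟧) * h - (m : K⟦X⟧) * h1
    have h3 := sub_eq_zero.1 ((mul_eq_zero.1 h2).resolve_left hf)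
    have h4 : ((rf n * m : Polynomial K) : K⟦X⟧) = ((n * rf m : Polynomial K) : K⟦X⟧) := by
      rw [Polynomial.coe_mul, Polynomial.coe_mul]; exact h3
    exact Polynomial.coe_inj.1 h4
  -- the Riccati equation
  have hric : (Polynomial.X * Polynomial.derivative n) * m - n * (Polynomial.X * Polynomial.derivative m) =
      Polynomial.C (4 * ρ) * (Polynomial.X ^ 2 * m ^ 2) - n ^ 2 := by
    have h1 := congrArg th h
    rw [th_mul, th_mul, th_Js, th_coe', th_coe'] at h1
    have hJ : th (fs ρ) = Js ρ := rfl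
    rw [hJ, smul_eq_C_mul] at h1
    have h2 : fs ρ * ((((Polynomial.X * Polynomial.derivative n : Polynomial K) : K⟦X⟧) * (m : K⟦X⟧) -
        (n : K⟦X⟧) * ((Polynomial.X * Polynomial.derivative m : Polynomial K) : K⟦X⟧)) -
        (C (4 * ρ) * (X ^ 2 * (m : K⟦X⟧) ^ 2) - (n : K⟦X⟧) ^ 2)) = 0 := by
      linear_combination (-(m : K⟦X⟧)) * h1 +
        (((Polynomial.X * Polynomial.derivative m : Polynomial K) : K⟦X⟧) - (n : K⟦X⟧)) * h
    have h3 := sub_eq_zero.1 ((mul_eq_zero.1 h2).resolve_left hf)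
    have h4 : (((Polynomial.X * Polynomial.derivative n) * m - n * (Polynomial.X * Polynomial.derivative m) :
        Polynomial K) : K⟦X⟧) = ((Polynomial.C (4 * ρ) * (Polynomial.X ^ 2 * m ^ 2) - n ^ 2 : Polynomial K) : K⟦X⟧) := by
      simp only [Polynomial.coe_sub, Polynomial.coe_mul, Polynomial.coe_pow, Polynomial.coe_C, Polynomial.coe_X] at h3 ⊢
      exact h3
    exact Polynomial.coe_inj.1 h4
  set a := n.natDegree with ha
  set b := m.natDegree with hb
  have h4ρ : (4 * ρ : K) ≠ 0 := mul_ne_zero (by norm_num) hρ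
  have hlm : m.coeff b ≠ 0 := Polynomial.leadingCoeff_ne_zero.2 hm
  have hdn := natDegree_th_le n
  have hdm := natDegree_th_le m
  have hm2 : (m ^ 2).natDegree ≤ 2 * b := by rw [Polynomial.natDegree_pow]
  have hX2 : (Polynomial.X ^ 2 * m ^ 2).natDegree ≤ 2 + 2 * b := by
    refine Polynomial.natDegree_mul_le.trans ?_
    rw [Polynomial.natDegree_X_pow]; omega
  have hL : ((Polynomial.X * Polynomial.derivative n) * m - n * (Polynomial.X * Polynomial.derivative m)).natDegree
      ≤ a + b := by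
    refine (Polynomial.natDegree_sub_le _ _).trans (max_le ?_ ?_)
    · exact Polynomial.natDegree_mul_le.trans (by omega)
    · exact Polynomial.natDegree_mul_le.trans (by omega)
  have hab : a = b + 1 := by
    rcases lt_trichotomy a (b + 1) with hlt | heq | hgt
    · exfalso
      have h1 := congrArg (Polynomial.coeff · (2 + 2 * b)) hric
      simp only [Polynomial.coeff_sub _ _ (2 + 2 * b)] at h1
      rw [← Polynomial.coeff_sub, Polynomial.coeff_eq_zero_of_natDegree_lt (lt_of_le_of_lt hL (by omega)),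
        Polynomial.coeff_C_mul] at h1
      have h2 : (Polynomial.X ^ 2 * m ^ 2).coeff (2 + 2 * b) = m.coeff b ^ 2 := by
        rw [add_comm, Polynomial.coeff_X_pow_mul, two_mul, pow_two,
          Polynomial.coeff_mul_add_eq_of_natDegree_le le_rfl le_rfl, pow_two]
      have h3 : (n ^ 2).coeff (2 + 2 * b) = 0 := Polynomial.coeff_eq_zero_of_natDegree_lt (by
        rw [Polynomial.natDegree_pow]; omega)
      rw [h2, h3, sub_zero] at h1
      exact mul_ne_zero h4ρ (pow_ne_zero 2 hlm) h1.symm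
    · exact heq
    · exfalso
      have hln : n.coeff a ≠ 0 := Polynomial.leadingCoeff_ne_zero.2 (by
        rintro rfl
        rw [Polynomial.natDegree_zero] at ha
        omega)
      have h1 := congrArg (Polynomial.coeff · (a + a)) hric
      simp only [Polynomial.coeff_sub _ _ (a + a)] at h1
      rw [← Polynomial.coeff_sub, Polynomial.coeff_eq_zero_of_natDegree_lt (lt_of_le_of_lt hL (by omega)),
        Polynomial.coeff_C_mul, Polynomial.coeff_eq_zero_of_natDegree_lt (lt_of_le_of_lt hX2 (by omega)), mul_zero,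
        zero_sub, pow_two, Polynomial.coeff_mul_add_eq_of_natDegree_le le_rfl le_rfl, ← ha] at h1
      exact mul_ne_zero hln hln (by linear_combination h1)
  have hln : n.coeff a ≠ 0 := Polynomial.leadingCoeff_ne_zero.2 (by
    rintro rfl
    rw [Polynomial.natDegree_zero] at ha
    omega)
  have hrn : (rf n).natDegree ≤ a := Polynomial.natDegree_le_iff_coeff_eq_zero.2 fun k hk => by
    rw [coeff_rf, Polynomial.coeff_eq_zero_of_natDegree_lt hk, zero_mul]
  have hrm : (rf m).natDegree ≤ b := Polynomial.natDegree_le_iff_coeff_eq_zero.2 fun k hk => by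
    rw [coeff_rf, Polynomial.coeff_eq_zero_of_natDegree_lt hk, zero_mul]
  have h1 : (rf n * m).coeff (a + b) = (n * rf m).coeff (a + b) := by rw [hsym]
  rw [Polynomial.coeff_mul_add_eq_of_natDegree_le hrn le_rfl, Polynomial.coeff_mul_add_eq_of_natDegree_le le_rfl hrm,
    coeff_rf, coeff_rf, ← ha, ← hb, hab, pow_succ] at h1
  have h2 : (-1 : K) ^ b ≠ 0 := pow_ne_zero _ (by norm_num)
  rw [hab] at hln
  have h3 : n.coeff (b + 1) * m.coeff b * (-1) ^ b * 2 = 0 := by linear_combination -h1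
  exact mul_ne_zero (mul_ne_zero (mul_ne_zero hln hlm) h2) two_ne_zero h3

end rational

theorem wL_notMem {ρ : K} (hρ : ρ ≠ 0) : wL ρ ∉ Ad (Ec K) xx := by
  intro h
  obtain ⟨N, M, hN, hM, h0, h1⟩ := exists_rep h
  obtain ⟨n, rfl⟩ := cf_Ec.1 hN
  obtain ⟨m, rfl⟩ := cf_Ec.1 hM
  rw [eval_xx] at h0
  rw [eval_xx, eval_xx] at h1
  have hm : m ≠ 0 := by
    rintro rfl
    apply h0
    rw [Polynomial.coe_zero, map_zero]
  rw [wL, div_eq_div_iff (fL_ne ρ) h0] at h1
  exact not_rational hρ hm (ps_injective (by rw [map_mul, map_mul]; exact h1))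

variable {ι : Type*}

/-- the system over the field of rational functions -/
theorem rs_base {ρ : ι → K} (hρ : Function.Injective ρ) (h0 : ∀ i, ρ i ≠ 0) :
    RS (Ad (Ec K) xx) (fun i => wL (ρ i)) (fun i => 4 * cc (ρ i) * xx ^ 2) where
  st := st_Ec.Ad Cf.X (by rw [Polynomial.eval_X]; exact deriv_xx)
  w' i := wL' (ρ i)
  no i := noInt (ρ i)
  mem i := by
    have m4 : (4 : LF K) ∈ Ad (Ec K) xx := by exact_mod_cast natCast_mem (Ad (Ec K) xx) 4
    exact Subfield.mul_mem _ (Subfield.mul_mem _ m4 (le_Ad _ _ (cc_mem _))) (Subfield.pow_mem _ (self_mem_Ad _ _) 2)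
  inj i j hij h := by
    have h3 : (4 : LF K) * xx ^ 2 ≠ 0 := mul_ne_zero (by norm_num) (pow_ne_zero 2 xx_ne)
    have h4 : (4 : LF K) * xx ^ 2 * (cc (ρ i) - cc (ρ j)) = 0 := by linear_combination h
    exact hij (hρ (cc.injective (sub_eq_zero.1 ((mul_eq_zero.1 h4).resolve_left h3))))
  b1 i := wL_notMem (h0 i)
  b2 i j hij := by
    refine pair_not (fun a ha => ?_) deriv_xx xx_ne tr_xx (cc_mem (ρ j)) (cc_mem (ρ i))
      (fun h => hij (hρ (cc.injective h)).symm) (wL' (ρ j)) (wL' (ρ i)) (noInt (ρ j)) (wL_notMem (h0 j)) (wL_notMem (h0 i))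
    obtain ⟨c, rfl⟩ := ha
    exact deriv_cc c

/-- the full system over a tower -/
theorem bs_tow {ρ : ι → K} (hρ : Function.Injective ρ) (h0 : ∀ i, ρ i ≠ 0) {E : Subfield (LF K)}
    (hE : Tow (Ad (Ec K) xx) E) :
    BS E (fun i => wL (ρ i)) (fun i => 4 * cc (ρ i) * xx ^ 2) (fun i => fL (ρ i)) (fun i => kL (ρ i)) where
  toRS := (rs_base hρ h0).tow hE
  f0 i := fL_ne (ρ i)
  f' i := fL'' (ρ i)
  fn i g := not_deriv (ρ i) g
  κ' i := kL' (ρ i)
  cst _ hx := hE.le (le_Ad _ _ (const_mem hx))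

end Pool.Agent.H18.Bes
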