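import Pool.Agent.H18.Bes.AI
import Pool.Agent.H18.Bes.Sys
import Pool.Agent.H18.L.N902.EW.Dec

/-!
# Algebraic independence of the Bessel functions over the algebra of iterated integrals
-/

set_option autoImplicit false
set_option linter.unusedSectionVars false

open scoped Differential

namespace Pool.Agent.H18.Bes

open Pool.Agent.N902.EW PowerSeries

variable {K : Type*} [Field K] [CharZero K]

/-- the parameters -/
abbrev Kx (K : Type*) [Field K] := {ρ : K // ρ ≠ 0}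

/-- the field of the functions obtained by exponentials and primitives -/
noncomputable abbrev LV (K : Type*) [Field K] [CharZero K] : Subfield (LF K) := Li (Ad (Ec K) (xx : LF K))

theorem xx_mem_LV : (xx : LF K) ∈ LV K := le_Li _ (self_mem_Ad _ _)

theorem cc_mem_LV (c : K) : cc c ∈ LV K := le_Li _ (le_Ad _ _ (cc_mem c))

theorem ex_mem_LV (l : K) : ps (ex l) ∈ LV K := by
  refine Li_exp (l := cc l * xx) ((LV K).mul_mem (cc_mem_LV l) xx_mem_LV) ?_
  rw [ps_th, th_ex, ps_smul, map_mul, xx, mul_assoc]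

theorem lt_mem_LV (a : K) : ps (lt a) ∈ LV K := by
  by_cases h : a = 0
  · rw [h, lt_zero, map_one]; exact (LV K).one_mem
  · rw [lt_ne h, map_sub, map_one]; exact (LV K).sub_mem (ex_mem_LV a) (LV K).one_mem

theorem U_mem_LV {w : List K} (hw : Adm w) : ps (U w) ∈ LV K := by
  induction w with
  | nil => rw [U_nil, map_one]; exact (LV K).one_mem
  | cons a v ih =>
    refine Li_prim (a := ps (lt a * U v)) ?_ ?_
    · rw [map_mul]; exact (LV K).mul_mem (lt_mem_LV a) (ih hw.tail)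
    · rw [ps_th, th_U_cons hw]

theorem SA_mem_LV {f : K⟦X⟧} (hf : f ∈ SA K) : ps f ∈ LV K := by
  refine Submodule.span_induction (p := fun f _ => ps f ∈ LV K) ?_ ?_ ?_ ?_ hf
  · rintro _ ⟨l, w, hw, rfl⟩
    rw [map_mul]; exact (LV K).mul_mem (ex_mem_LV l) (U_mem_LV hw)
  · rw [map_zero]; exact (LV K).zero_mem
  · intro x y _ _ hx hy; rw [map_add]; exact (LV K).add_mem hx hy
  · intro c x _ hx; rw [ps_smul]; exact (LV K).mul_mem (cc_mem_LV c) hx

/-- the family of functions -/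
noncomputable def bL (K : Type*) [Field K] [CharZero K] : Kx K ⊕ (Kx K ⊕ Kx K) → LF K :=
  Sum.elim (fun ρ => fL ρ.1) (Sum.elim (fun ρ => jL ρ.1) (fun ρ => sL ρ.1))

/-- the family of power series -/
noncomputable def bS (K : Type*) [Field K] [CharZero K] : Kx K ⊕ (Kx K ⊕ Kx K) → K⟦X⟧ :=
  Sum.elim (fun ρ => fs ρ.1) (Sum.elim (fun ρ => Js ρ.1) (fun ρ => Ss ρ.1))

theorem ai_bL : AlgebraicIndependent (LV K) (bL K) := by
  classical
  refine algebraicIndependent_of_finite_type fun t ht => ?_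
  let T : Set (Kx K) := {ρ | Sum.inl ρ ∈ t ∨ Sum.inr (Sum.inl ρ) ∈ t ∨ Sum.inr (Sum.inr ρ) ∈ t}
  have hT : T.Finite := by
    have h1 : T = Sum.inl ⁻¹' t ∪ ((fun ρ => Sum.inr (Sum.inl ρ)) ⁻¹' t ∪ (fun ρ => Sum.inr (Sum.inr ρ)) ⁻¹' t) := by
      ext ρ; rfl
    rw [h1]
    refine (ht.preimage (Sum.inl_injective.injOn)).union ((ht.preimage ?_).union (ht.preimage ?_))
    · exact (Sum.inr_injective.comp Sum.inl_injective).injOn
    · exact (Sum.inr_injective.comp Sum.inr_injective).injOn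
  have := hT.to_subtype
  have h0 : BS (LV K) (fun ρ : T => wL ρ.1.1) (fun ρ : T => 4 * cc ρ.1.1 * xx ^ 2) (fun ρ : T => fL ρ.1.1)
      (fun ρ : T => kL ρ.1.1) :=
    (bs_tow (ρ := fun ρ : T => ρ.1.1) (Subtype.val_injective.comp Subtype.val_injective) (fun ρ => ρ.1.2)
      Tow.base).li
  have h1 := h0.ai' (j := fun ρ : T => jL ρ.1.1) (s := fun ρ : T => sL ρ.1.1) (fun _ => rfl) (fun _ => rfl)
  have hJ : ∀ x : t, ∃ z : T ⊕ (T ⊕ T), Sum.map Subtype.val (Sum.map Subtype.val Subtype.val) z = x.1 := by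
    rintro ⟨x | x | x, hx⟩
    · exact ⟨Sum.inl ⟨x, Or.inl hx⟩, rfl⟩
    · exact ⟨Sum.inr (Sum.inl ⟨x, Or.inr (Or.inl hx)⟩), rfl⟩
    · exact ⟨Sum.inr (Sum.inr ⟨x, Or.inr (Or.inr hx)⟩), rfl⟩
  choose g hg using hJ
  have hgi : Function.Injective g := fun x y h => Subtype.ext (by rw [← hg x, ← hg y, h])
  have h2 := h1.comp g hgi
  convert h2 using 1
  ext x
  show bL K x.1 = _
  rw [← hg x]
  rcases hgx : g x with z | z | z <;> simp [bL, hgx]

theorem ai_bS : AlgebraicIndependent (Algebra.adjoin (AA K) (Set.range fun _ : Unit => (X : K⟦X⟧))) (bS K) := by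
  have hmem : ∀ a : Algebra.adjoin (AA K) (Set.range fun _ : Unit => (X : K⟦X⟧)), ps (a : K⟦X⟧) ∈ LV K := by
    intro a
    refine Algebra.adjoin_induction (p := fun a _ => ps (a : K⟦X⟧) ∈ LV K) ?_ ?_ ?_ ?_ a.2
    · rintro _ ⟨_, rfl⟩
      exact xx_mem_LV
    · intro r; exact SA_mem_LV r.2
    · intro b c _ _ hb hc; rw [map_add]; exact (LV K).add_mem hb hc
    · intro b c _ _ hb hc; rw [map_mul]; exact (LV K).mul_mem hb hc
  have h1 : AlgebraicIndependent (LV K) ((ps (K := K)) ∘ (bS K)) := by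
    have := ai_bL (K := K)
    convert this using 1
    ext (x | x | x) <;> rfl
  refine h1.of_ringHom_of_comp_eq (((ps (K := K)).comp
    (algebraMap (Algebra.adjoin (AA K) (Set.range fun _ : Unit => (X : K⟦X⟧))) K⟦X⟧)).codRestrict (LV K) hmem) ps ?_ ?_
  · intro a b hab
    exact Subtype.ext (ps_injective (congrArg Subtype.val hab))
  · rfl

theorem tr_X : AlgebraicIndependent (AA K) (fun _ : Unit => (X : K⟦X⟧)) := by
  rw [algebraicIndependent_unique_type_iff, transcendental_iff]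
  intro p hp
  have h1 : ∑ n ∈ Finset.range (p.natDegree + 1), X ^ n * ((p.coeff n : AA K) : K⟦X⟧) = 0 := by
    rw [← hp, Polynomial.aeval_eq_sum_range]
    refine Finset.sum_congr rfl fun n _ => ?_
    rw [Algebra.smul_def, mul_comm]; rfl
  refine Polynomial.ext fun n => ?_
  rw [Polynomial.coeff_zero]
  by_cases hn : n < p.natDegree + 1
  · exact Subtype.ext (direct _ (fun n => ((p.coeff n : AA K) : K⟦X⟧)) (fun n => (p.coeff n).2) h1 n hn)
  · rw [Polynomial.coeff_eq_zero_of_natDegree_lt (by omega)]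

theorem ai_all : AlgebraicIndependent (AA K) (Sum.elim (bS K) (fun _ : Unit => (X : K⟦X⟧))) := tr_X.sumElim ai_bS

/-- the algebra over the iterated integrals generated by the Bessel functions -/
noncomputable def B1 (K : Type*) [Field K] [CharZero K] : Subalgebra (AA K) K⟦X⟧ := Algebra.adjoin (AA K) (Set.range (bS K))

theorem tr_X_B1 : Transcendental (B1 K) (X : K⟦X⟧) := by
  have h1 : AlgebraicIndependent (AA K) (Sum.elim (fun _ : Unit => (X : K⟦X⟧)) (bS K)) := by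
    refine (algebraicIndependent_equiv' (Equiv.sumComm _ _) ?_).2 (ai_all (K := K))
    ext (x | x) <;> rfl
  have h2 := (AlgebraicIndependent.sumElim_iff.1 h1).2
  exact (algebraicIndependent_unique_type_iff (ι := Unit)).1 h2

theorem ai_bS' : AlgebraicIndependent (AA K) (bS K) := by
  have := (ai_all (K := K)).comp Sum.inl Sum.inl_injective
  exact this

theorem direct_B1 (m : ℕ) (g : ℕ → K⟦X⟧) (hg : ∀ n, g n ∈ B1 K) (h : ∑ n ∈ Finset.range m, X ^ n * g n = 0) :
    ∀ n < m, g n = 0 := by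
  have h1 := transcendental_iff.1 (tr_X_B1 (K := K)) (∑ n ∈ Finset.range m, Polynomial.C (⟨g n, hg n⟩ : B1 K) * Polynomial.X ^ n) (by
    rw [map_sum, ← h]
    refine Finset.sum_congr rfl fun n _ => ?_
    rw [map_mul, map_pow, Polynomial.aeval_C, Polynomial.aeval_X, mul_comm]; rfl)
  intro n hn
  have h2 := congrArg (fun p => Polynomial.coeff p n) h1
  simp only [Polynomial.finsetSum_coeff, Polynomial.coeff_C_mul, Polynomial.coeff_X_pow, Polynomial.coeff_zero] at h2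
  rw [Finset.sum_eq_single n] at h2
  · rw [if_pos rfl, mul_one] at h2
    exact congrArg Subtype.val h2
  · intro k _ hk
    rw [if_neg (Ne.symm hk), mul_zero]
  · intro h2; exact absurd (Finset.mem_range.2 hn) h2

/-! ### The algebra -/

/-- the Bessel generators for a parameter -/
def Gs (ρ : K) : Set K⟦X⟧ := {fs ρ, Js ρ, Ss ρ, Rs ρ}

/-- the algebra of all functions under consideration -/
noncomputable def BA (K : Type*) [Field K] [CharZero K] : Subalgebra K K⟦X⟧ :=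
  Algebra.adjoin K ((SA K : Set K⟦X⟧) ∪ ⋃ ρ : Kx K, Gs ρ.1)

theorem SA_le_BA {f : K⟦X⟧} (hf : f ∈ SA K) : f ∈ BA K := Algebra.subset_adjoin (Or.inl hf)

theorem Gs_le_BA (ρ : Kx K) {f : K⟦X⟧} (hf : f ∈ Gs ρ.1) : f ∈ BA K :=
  Algebra.subset_adjoin (Or.inr (Set.mem_iUnion.2 ⟨ρ, hf⟩))

/-- an induction principle -/
theorem BA_ind {p : K⟦X⟧ → Prop} (h1 : ∀ f ∈ SA K, p f) (h2 : ∀ ρ : Kx K, ∀ f ∈ Gs ρ.1, p f)
    (ha : ∀ f g, f ∈ BA K → g ∈ BA K → p f → p g → p (f + g)) (hm : ∀ f g, f ∈ BA K → g ∈ BA K → p f → p g → p (f * g))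
    {f : K⟦X⟧} (hf : f ∈ BA K) : p f := by
  refine Algebra.adjoin_induction (p := fun f _ => p f) ?_ ?_ ?_ ?_ hf
  · rintro f (h | h)
    · exact h1 f h
    · obtain ⟨ρ, hρ⟩ := Set.mem_iUnion.1 h
      exact h2 ρ f hρ
  · intro r
    exact h1 _ ((AA K).algebraMap_mem r)
  · intro x y hx hy h h'; exact ha x y hx hy h h'
  · intro x y hx hy h h'; exact hm x y hx hy h h'

/-- the Wronskian relation for the power series -/
theorem wronsk' (ρ : K) : fs ρ * Rs ρ = Ss ρ * Js ρ + fs ρ ^ 2 - 1 := by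
  apply ps_injective
  have := wronsk ρ
  simp only [fL, rL, sL, jL] at this
  rw [map_mul, map_sub, map_add, map_mul, map_pow, map_one]
  linear_combination this

theorem fs_ne (ρ : K) : fs ρ ≠ 0 := fun h => fL_ne ρ (by rw [fL, h, map_zero])

theorem BA_den {f : K⟦X⟧} (hf : f ∈ BA K) : ∃ D ∈ B1 K, D ≠ 0 ∧ D * f ∈ B1 K := by
  have mf : ∀ ρ : Kx K, fs ρ.1 ∈ B1 K := fun ρ => Algebra.subset_adjoin ⟨Sum.inl ρ, rfl⟩
  have mj : ∀ ρ : Kx K, Js ρ.1 ∈ B1 K := fun ρ => Algebra.subset_adjoin ⟨Sum.inr (Sum.inl ρ), rfl⟩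
  have ms : ∀ ρ : Kx K, Ss ρ.1 ∈ B1 K := fun ρ => Algebra.subset_adjoin ⟨Sum.inr (Sum.inr ρ), rfl⟩
  refine BA_ind (p := fun f => ∃ D ∈ B1 K, D ≠ 0 ∧ D * f ∈ B1 K) ?_ ?_ ?_ ?_ hf
  · intro f hf
    exact ⟨1, (B1 K).one_mem, one_ne_zero, by rw [one_mul]; exact (B1 K).algebraMap_mem (⟨f, hf⟩ : AA K)⟩
  · rintro ρ f (rfl | rfl | rfl | rfl)
    · exact ⟨1, (B1 K).one_mem, one_ne_zero, by rw [one_mul]; exact mf ρ⟩
    · exact ⟨1, (B1 K).one_mem, one_ne_zero, by rw [one_mul]; exact mj ρ⟩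
    · exact ⟨1, (B1 K).one_mem, one_ne_zero, by rw [one_mul]; exact ms ρ⟩
    · refine ⟨fs ρ.1, mf ρ, fs_ne ρ.1, ?_⟩
      rw [wronsk']
      exact (B1 K).sub_mem ((B1 K).add_mem ((B1 K).mul_mem (ms ρ) (mj ρ)) ((B1 K).pow_mem (mf ρ) 2)) (B1 K).one_mem
  · rintro f g _ _ ⟨D, hD, h0, h1⟩ ⟨D', hD', h0', h1'⟩
    refine ⟨D * D', (B1 K).mul_mem hD hD', mul_ne_zero h0 h0', ?_⟩
    have : D * D' * (f + g) = D' * (D * f) + D * (D' * g) := by ring
    rw [this]
    exact (B1 K).add_mem ((B1 K).mul_mem hD' h1) ((B1 K).mul_mem hD h1')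
  · rintro f g _ _ ⟨D, hD, h0, h1⟩ ⟨D', hD', h0', h1'⟩
    refine ⟨D * D', (B1 K).mul_mem hD hD', mul_ne_zero h0 h0', ?_⟩
    have : D * D' * (f * g) = (D * f) * (D' * g) := by ring
    rw [this]
    exact (B1 K).mul_mem h1 h1'

theorem direct_BA (m : ℕ) (g : ℕ → K⟦X⟧) (hg : ∀ n, g n ∈ BA K) (h : ∑ n ∈ Finset.range m, X ^ n * g n = 0) :
    ∀ n < m, g n = 0 := by
  classical
  choose D hD h0 h1 using fun n => BA_den (hg n)
  have hP0 : ∏ n ∈ Finset.range m, D n ≠ 0 := Finset.prod_ne_zero_iff.2 fun n _ => h0 n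
  have key := direct_B1 m (fun n => if n < m then (∏ n ∈ Finset.range m, D n) * g n else 0) (fun n => by
    by_cases hn : n < m
    · simp only [if_pos hn]
      rw [← Finset.mul_prod_erase _ _ (Finset.mem_range.2 hn)]
      have : D n * (∏ x ∈ (Finset.range m).erase n, D x) * g n = (∏ x ∈ (Finset.range m).erase n, D x) * (D n * g n) := by
        ring
      rw [this]
      exact (B1 K).mul_mem ((B1 K).prod_mem fun k _ => hD k) (h1 n)
    · simp only [if_neg hn]; exact (B1 K).zero_mem) (by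
    have h2 : ∑ n ∈ Finset.range m, X ^ n * (if n < m then (∏ n ∈ Finset.range m, D n) * g n else 0) =
        (∏ n ∈ Finset.range m, D n) * ∑ n ∈ Finset.range m, X ^ n * g n := by
      rw [Finset.mul_sum]
      refine Finset.sum_congr rfl fun n hn => ?_
      rw [if_pos (Finset.mem_range.1 hn)]
      ring
    rw [h2, h, mul_zero])
  intro n hn
  have h2 := key n hn
  simp only [if_pos hn] at h2
  exact (mul_eq_zero.1 h2).resolve_left hP0

end Pool.Agent.H18.Bes
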