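import Pool.Agent.H18.Bes.Ser
import Pool.Agent.H18.L.R352.E.Rel2

/-!
# The integral `∫_0^∞ exp(-z cosh t) dt`
-/

set_option autoImplicit false
set_option linter.unusedSectionVars false

open Filter Topology Set MeasureTheory

namespace Pool.Agent.H18.Bes

/-- the integrand -/
noncomputable def kf (n : ℕ) (z : ℂ) (t : ℝ) : ℂ := ((Real.cosh t : ℝ) : ℂ) ^ n * Complex.exp (-z * ((Real.cosh t : ℝ) : ℂ))

/-- the integrals -/
noncomputable def kn (n : ℕ) (z : ℂ) : ℂ := ∫ t in Ioi (0 : ℝ), kf n z t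

theorem kf_continuous (n : ℕ) (z : ℂ) : Continuous (kf n z) := by
  unfold kf
  have h : Continuous fun t : ℝ => ((Real.cosh t : ℝ) : ℂ) := Complex.continuous_ofReal.comp Real.continuous_cosh
  fun_prop

theorem norm_kf (n : ℕ) (z : ℂ) (t : ℝ) : ‖kf n z t‖ = Real.cosh t ^ n * Real.exp (-(z.re * Real.cosh t)) := by
  rw [kf, norm_mul, norm_pow, Complex.norm_real, Real.norm_eq_abs, abs_of_pos (Real.cosh_pos t), Complex.norm_exp]
  congr 2
  rw [Complex.mul_re, Complex.ofReal_re, Complex.ofReal_im]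
  simp

theorem half_exp_le (t : ℝ) : Real.exp t / 2 ≤ Real.cosh t := by
  rw [Real.cosh_eq]
  have := Real.exp_pos (-t)
  linarith

theorem kf_bound (n : ℕ) {a : ℝ} (ha : 0 < a) {z : ℂ} (hz : a ≤ z.re) (t : ℝ) :
    ‖kf n z t‖ ≤ (2 * (n + 1).factorial / a ^ (n + 1)) * Real.exp (-t) := by
  rw [norm_kf]
  have hc := Real.cosh_pos t
  have h1 : Real.exp (-(z.re * Real.cosh t)) ≤ Real.exp (-(a * Real.cosh t)) :=
    Real.exp_le_exp.2 (neg_le_neg (mul_le_mul_of_nonneg_right hz hc.le))
  have h2 := Real.pow_div_factorial_le_exp (x := a * Real.cosh t) (by positivity) (n + 1)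
  have h3 : Real.exp (-(a * Real.cosh t)) ≤ ((n + 1).factorial : ℝ) / (a * Real.cosh t) ^ (n + 1) := by
    rw [Real.exp_neg, ← inv_div]
    exact inv_anti₀ (by positivity) h2
  have h4 : (Real.cosh t)⁻¹ ≤ 2 * Real.exp (-t) := by
    rw [Real.exp_neg]
    have h5 := half_exp_le t
    have h6 := Real.exp_pos t
    calc (Real.cosh t)⁻¹ ≤ (Real.exp t / 2)⁻¹ := inv_anti₀ (by positivity) h5
      _ = 2 * (Real.exp t)⁻¹ := by rw [inv_div, div_eq_mul_inv]
  calc Real.cosh t ^ n * Real.exp (-(z.re * Real.cosh t))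
      ≤ Real.cosh t ^ n * (((n + 1).factorial : ℝ) / (a * Real.cosh t) ^ (n + 1)) :=
        mul_le_mul_of_nonneg_left (h1.trans h3) (by positivity)
    _ = ((n + 1).factorial : ℝ) / a ^ (n + 1) * (Real.cosh t)⁻¹ := by
        rw [mul_pow, pow_succ (Real.cosh t)]
        field_simp
    _ ≤ ((n + 1).factorial : ℝ) / a ^ (n + 1) * (2 * Real.exp (-t)) := mul_le_mul_of_nonneg_left h4 (by positivity)
    _ = _ := by ring

theorem exp_neg_int (C : ℝ) : IntegrableOn (fun t : ℝ => C * Real.exp (-t)) (Ioi 0) := by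
  have h : Integrable (fun t : ℝ => C * Real.exp (-1 * t)) (volume.restrict (Ioi 0)) :=
    (exp_neg_integrableOn_Ioi 0 one_pos).const_mul C
  simpa [IntegrableOn] using h

theorem kf_int (n : ℕ) {z : ℂ} (hz : 0 < z.re) : IntegrableOn (kf n z) (Ioi 0) :=
  Integrable.mono' (exp_neg_int _) (kf_continuous n z).aestronglyMeasurable
    (Eventually.of_forall fun t => kf_bound n hz le_rfl t)

theorem kn_deriv (n : ℕ) {z : ℂ} (hz : 0 < z.re) : HasDerivAt (kn n) (-kn (n + 1) z) z := by
  have hs : {w : ℂ | z.re / 2 < w.re} ∈ 𝓝 z :=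
    (isOpen_lt continuous_const Complex.continuous_re).mem_nhds (by show z.re / 2 < z.re; linarith)
  have key := hasDerivAt_integral_of_dominated_loc_of_deriv_le (μ := volume.restrict (Ioi (0 : ℝ))) (F := kf n)
    (F' := fun w t => -kf (n + 1) w t) (bound := fun t => (2 * (n + 1 + 1).factorial / (z.re / 2) ^ (n + 1 + 1)) * Real.exp (-t))
    hs (Eventually.of_forall fun w => (kf_continuous n w).aestronglyMeasurable) (kf_int n hz)
    (kf_continuous (n + 1) z).neg.aestronglyMeasurable
    (Eventually.of_forall fun t w hw => by rw [norm_neg]; exact kf_bound (n + 1) (by linarith) (le_of_lt hw) t)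
    (exp_neg_int _)
    (Eventually.of_forall fun t w _ => by
      have h1 : HasDerivAt (fun w : ℂ => -w * ((Real.cosh t : ℝ) : ℂ)) (-((Real.cosh t : ℝ) : ℂ)) w := by
        have := ((hasDerivAt_id w).neg).mul_const ((Real.cosh t : ℝ) : ℂ)
        simpa using this
      have h2 := (h1.cexp).const_mul (((Real.cosh t : ℝ) : ℂ) ^ n)
      refine h2.congr_deriv ?_
      rw [kf, pow_succ]
      ring)
  rw [kn, ← integral_neg]
  exact key.2

/-- the differential equation -/
theorem kn_ode {z : ℂ} (hz : 0 < z.re) : z * kn 2 z = kn 1 z + z * kn 0 z := by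
  have hd : ∀ t : ℝ, HasDerivAt (fun t : ℝ => ((Real.sinh t : ℝ) : ℂ) * Complex.exp (-z * ((Real.cosh t : ℝ) : ℂ)))
      (kf 1 z t + z * kf 0 z t - z * kf 2 z t) t := by
    intro t
    have h1 : HasDerivAt (fun t : ℝ => ((Real.cosh t : ℝ) : ℂ)) ((Real.sinh t : ℝ) : ℂ) t :=
      (Real.hasDerivAt_cosh t).ofReal_comp
    have h2 : HasDerivAt (fun t : ℝ => ((Real.sinh t : ℝ) : ℂ)) ((Real.cosh t : ℝ) : ℂ) t :=
      (Real.hasDerivAt_sinh t).ofReal_comp
    have h3 := h2.mul ((h1.const_mul (-z)).cexp)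
    refine h3.congr_deriv ?_
    have h4 : (((Real.sinh t : ℝ) : ℂ)) ^ 2 = ((Real.cosh t : ℝ) : ℂ) ^ 2 - 1 := by
      have := Real.cosh_sq t
      have h5 : Real.sinh t ^ 2 = Real.cosh t ^ 2 - 1 := by linarith
      exact_mod_cast h5
    simp only [kf]
    linear_combination (-z * Complex.exp (-z * ((Real.cosh t : ℝ) : ℂ))) * h4
  have hlim : Tendsto (fun t : ℝ => ((Real.sinh t : ℝ) : ℂ) * Complex.exp (-z * ((Real.cosh t : ℝ) : ℂ))) atTop (𝓝 0) := by
    rw [tendsto_zero_iff_norm_tendsto_zero]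
    have h0 : Tendsto (fun t : ℝ => (2 * (1 + 1).factorial / z.re ^ (1 + 1)) * Real.exp (-t)) atTop (𝓝 0) := by
      have := (Real.tendsto_exp_neg_atTop_nhds_zero).const_mul (2 * (1 + 1).factorial / z.re ^ (1 + 1))
      rwa [mul_zero] at this
    refine squeeze_zero (fun t => norm_nonneg _) (fun t => ?_) h0
    refine le_trans ?_ (kf_bound 1 hz le_rfl t)
    rw [kf, norm_mul, norm_mul, pow_one]
    refine mul_le_mul_of_nonneg_right ?_ (norm_nonneg _)
    rw [Complex.norm_real, Complex.norm_real, Real.norm_eq_abs, Real.norm_eq_abs, abs_of_pos (Real.cosh_pos t), abs_le]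
    constructor
    · have := Real.exp_pos t
      rw [Real.cosh_eq, Real.sinh_eq]
      linarith
    · exact (Real.sinh_lt_cosh t).le
  have hint : IntegrableOn (fun t => kf 1 z t + z * kf 0 z t - z * kf 2 z t) (Ioi 0) :=
    ((kf_int 1 hz).add ((kf_int 0 hz).const_mul z)).sub ((kf_int 2 hz).const_mul z)
  have h := integral_Ioi_of_hasDerivAt_of_tendsto' (a := (0 : ℝ)) (fun t _ => hd t) hint hlim
  have e1 := integral_sub (μ := volume.restrict (Ioi (0 : ℝ))) (f := fun t => kf 1 z t + z * kf 0 z t)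
    (g := fun t => z * kf 2 z t) ((kf_int 1 hz).add ((kf_int 0 hz).const_mul z)) ((kf_int 2 hz).const_mul z)
  have e2 := integral_add (μ := volume.restrict (Ioi (0 : ℝ))) (f := fun t => kf 1 z t) (g := fun t => z * kf 0 z t)
    (kf_int 1 hz) ((kf_int 0 hz).const_mul z)
  rw [e1, e2, integral_const_mul, integral_const_mul] at h
  have h0 : ((Real.sinh 0 : ℝ) : ℂ) = 0 := by rw [Real.sinh_zero, Complex.ofReal_zero]
  rw [h0, zero_mul, sub_zero] at h
  rw [kn, kn, kn]
  linear_combination -h

/-! ### The real integrals -/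

/-- the real integrand -/
noncomputable def krf (n : ℕ) (x t : ℝ) : ℝ := Real.cosh t ^ n * Real.exp (-x * Real.cosh t)

/-- the real integrals -/
noncomputable def kr (n : ℕ) (x : ℝ) : ℝ := ∫ t in Ioi (0 : ℝ), krf n x t

theorem kf_real (n : ℕ) (x t : ℝ) : kf n x t = ((krf n x t : ℝ) : ℂ) := by
  rw [kf, krf]; push_cast; rfl

theorem kn_real (n : ℕ) (x : ℝ) : kn n x = ((kr n x : ℝ) : ℂ) := by
  rw [kn, kr, ← integral_complex_ofReal]
  simp only [kf_real]

theorem krf_int (n : ℕ) {x : ℝ} (hx : 0 < x) : IntegrableOn (krf n x) (Ioi 0) := by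
  have h1 : IntegrableOn (kf n x) (Ioi 0) := kf_int n (by simpa using hx)
  have h2 := h1.re
  refine h2.congr (Eventually.of_forall fun t => ?_)
  show (kf n x t).re = krf n x t
  rw [kf_real, Complex.ofReal_re]

theorem kr_deriv (n : ℕ) {x : ℝ} (hx : 0 < x) : HasDerivAt (kr n) (-kr (n + 1) x) x := by
  have h1 : HasDerivAt (kn n) (-kn (n + 1) x) (x : ℂ) := kn_deriv n (by simpa using hx)
  have h2 := h1.real_of_complex
  have h3 : (fun x : ℝ => (kn n (x : ℂ)).re) = kr n := by
    funext y
    rw [kn_real, Complex.ofReal_re]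
  rw [h3, kn_real, ← Complex.ofReal_neg, Complex.ofReal_re] at h2
  exact h2

theorem kr_ode {x : ℝ} (hx : 0 < x) : x * kr 2 x = kr 1 x + x * kr 0 x := by
  have h := kn_ode (z := (x : ℂ)) (by simpa using hx)
  rw [kn_real, kn_real, kn_real] at h
  exact_mod_cast h

/-! ### The asymptotics at zero -/

theorem exp_neg_integral : ∫ t in Ioi (0 : ℝ), Real.exp (-t) = 1 := integral_exp_neg_Ioi_zero

theorem xk1 {x : ℝ} (hx : 0 < x) : |x * kr 1 x - Real.exp (-x)| ≤ x := by
  have hd : ∀ t : ℝ, HasDerivAt (fun t : ℝ => -Real.exp (-x * Real.cosh t)) (x * Real.sinh t * Real.exp (-x * Real.cosh t)) t := by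
    intro t
    have h1 := (((Real.hasDerivAt_cosh t).const_mul (-x)).exp).neg
    exact h1.congr_deriv (by ring)
  have hb : ∀ t : ℝ, Real.exp (-x * Real.cosh t) ≤ 1 := fun t => by
    rw [Real.exp_le_one_iff]
    have := Real.cosh_pos t
    nlinarith
  have hi2 : IntegrableOn (fun t => x * (Real.exp (-t) * Real.exp (-x * Real.cosh t))) (Ioi 0) := by
    refine Integrable.mono' (exp_neg_int x) ?_ (Eventually.of_forall fun t => ?_)
    · refine Continuous.aestronglyMeasurable ?_
      have := Real.continuous_cosh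
      fun_prop
    · rw [Real.norm_eq_abs, abs_of_nonneg (by positivity)]
      have h2 := hb t
      have h3 := Real.exp_pos (-t)
      have h4 : Real.exp (-t) * Real.exp (-x * Real.cosh t) ≤ Real.exp (-t) * 1 := mul_le_mul_of_nonneg_left h2 h3.le
      rw [mul_one] at h4
      exact mul_le_mul_of_nonneg_left h4 hx.le
  have hsplit : ∀ t : ℝ, x * krf 1 x t = x * Real.sinh t * Real.exp (-x * Real.cosh t) +
      x * (Real.exp (-t) * Real.exp (-x * Real.cosh t)) := by
    intro t
    rw [krf, pow_one]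
    have : Real.cosh t = Real.sinh t + Real.exp (-t) := by
      rw [Real.cosh_eq, Real.sinh_eq]; ring
    nth_rewrite 1 [this]
    ring
  have hi1 : IntegrableOn (fun t => x * Real.sinh t * Real.exp (-x * Real.cosh t)) (Ioi 0) := by
    have h1 := ((krf_int 1 hx).const_mul x).sub hi2
    refine h1.congr (Eventually.of_forall fun t => ?_)
    show x * krf 1 x t - _ = _
    rw [hsplit]
    ring
  have hlim : Tendsto (fun t : ℝ => -Real.exp (-x * Real.cosh t)) atTop (𝓝 0) := by
    rw [← neg_zero]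
    refine Tendsto.neg ?_
    refine Real.tendsto_exp_atBot.comp ?_
    have h1 : Tendsto Real.cosh atTop atTop := by
      refine tendsto_atTop_mono (fun t => half_exp_le t) ?_
      exact Real.tendsto_exp_atTop.atTop_div_const (by norm_num)
    exact h1.const_mul_atTop_of_neg (by linarith)
  have h1 := integral_Ioi_of_hasDerivAt_of_tendsto' (a := (0 : ℝ)) (fun t _ => hd t) hi1 hlim
  rw [Real.cosh_zero, mul_one, sub_neg_eq_add, zero_add] at h1
  have h2 : x * kr 1 x = Real.exp (-x) + ∫ t in Ioi (0 : ℝ), x * (Real.exp (-t) * Real.exp (-x * Real.cosh t)) := by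
    rw [kr, ← integral_const_mul, ← h1, ← integral_add hi1 hi2]
    exact integral_congr_ae (Eventually.of_forall fun t => hsplit t)
  rw [h2, add_sub_cancel_left, abs_of_nonneg (integral_nonneg fun t => by positivity)]
  have h3 : ∫ t in Ioi (0 : ℝ), x * (Real.exp (-t) * Real.exp (-x * Real.cosh t)) ≤ ∫ t in Ioi (0 : ℝ), x * Real.exp (-t) := by
    refine integral_mono hi2 (exp_neg_int x) fun t => ?_
    have h4 : Real.exp (-t) * Real.exp (-x * Real.cosh t) ≤ Real.exp (-t) * 1 :=
      mul_le_mul_of_nonneg_left (hb t) (Real.exp_pos _).le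
    rw [mul_one] at h4
    exact mul_le_mul_of_nonneg_left h4 hx.le
  refine h3.trans ?_
  rw [integral_const_mul, exp_neg_integral, mul_one]

open Pool.Agent.R352.E in
/-- `∫_0^∞ exp(-y e^t) dt` -/
theorem Ey {y : ℝ} (hy : 0 < y) : IntegrableOn (fun t => Real.exp (-(y * Real.exp t))) (Ioi 0) ∧
    ∫ t in Ioi (0 : ℝ), Real.exp (-(y * Real.exp t)) = EE 1 y - Real.eulerMascheroniConstant - Real.log y := by
  have hE : ∀ t : ℝ, 0 < Real.exp t := Real.exp_pos
  have hb1 : ∀ t : ℝ, Real.exp (-(y * Real.exp t)) ≤ 1 / y * Real.exp (-t) := by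
    intro t
    have h1 := Real.pow_div_factorial_le_exp (x := y * Real.exp t) (by positivity) 1
    rw [pow_one, Nat.factorial_one, Nat.cast_one, div_one] at h1
    rw [Real.exp_neg, Real.exp_neg, one_div, ← mul_inv]
    exact inv_anti₀ (by positivity) h1
  have hb3 : ∀ t : ℝ, 0 ≤ t → t * Real.exp (-(y * Real.exp t)) * (y * Real.exp t) ≤ 6 / y ^ 2 * Real.exp (-t) := by
    intro t ht
    have h1 := Real.pow_div_factorial_le_exp (x := y * Real.exp t) (by positivity) 3
    have h2 : Real.exp (-(y * Real.exp t)) ≤ 6 / (y * Real.exp t) ^ 3 := by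
      rw [Real.exp_neg, ← inv_div]
      refine inv_anti₀ (by positivity) ?_
      have : ((3 : ℕ).factorial : ℝ) = 6 := by norm_num [Nat.factorial]
      rwa [this] at h1
    have h3 : t ≤ Real.exp t := (Real.add_one_le_exp t).trans' (by linarith)
    calc t * Real.exp (-(y * Real.exp t)) * (y * Real.exp t)
        ≤ Real.exp t * (6 / (y * Real.exp t) ^ 3) * (y * Real.exp t) := by gcongr
      _ = 6 / y ^ 2 * Real.exp (-t) := by
          rw [Real.exp_neg]
          have := (hE t).ne'
          field_simp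
  have hi1 : IntegrableOn (fun t => Real.exp (-(y * Real.exp t))) (Ioi 0) := by
    refine Integrable.mono' (exp_neg_int (1 / y)) ?_ (Eventually.of_forall fun t => ?_)
    · exact Continuous.aestronglyMeasurable (by fun_prop)
    · rw [Real.norm_eq_abs, abs_of_pos (Real.exp_pos _)]
      exact hb1 t
  have hi2 : IntegrableOn (fun t => t * Real.exp (-(y * Real.exp t)) * (y * Real.exp t)) (Ioi 0) := by
    refine Integrable.mono' (exp_neg_int (6 / y ^ 2)) ?_ ((ae_restrict_mem measurableSet_Ioi).mono fun t ht => ?_)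
    · exact Continuous.aestronglyMeasurable (by fun_prop)
    · have ht' : (0 : ℝ) < t := ht
      rw [Real.norm_eq_abs, abs_of_nonneg (by positivity)]
      exact hb3 t ht'.le
  refine ⟨hi1, ?_⟩
  -- integration by parts
  have hd : ∀ t : ℝ, HasDerivAt (fun t : ℝ => t * Real.exp (-(y * Real.exp t)))
      (Real.exp (-(y * Real.exp t)) - t * Real.exp (-(y * Real.exp t)) * (y * Real.exp t)) t := by
    intro t
    have h0 : HasDerivAt (fun t : ℝ => -(y * Real.exp t)) (-(y * Real.exp t)) t := ((Real.hasDerivAt_exp t).const_mul y).neg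
    have h1 : HasDerivAt (fun t : ℝ => t * Real.exp (-(y * Real.exp t)))
        (1 * Real.exp (-(y * Real.exp t)) + t * (Real.exp (-(y * Real.exp t)) * (-(y * Real.exp t)))) t :=
      (hasDerivAt_id t).mul h0.exp
    refine h1.congr_deriv ?_
    ring
  have hlim : Tendsto (fun t : ℝ => t * Real.exp (-(y * Real.exp t))) atTop (𝓝 0) := by
    have h0 : Tendsto (fun t : ℝ => 1 / y * (t * Real.exp (-t))) atTop (𝓝 0) := by
      have h2 := (Real.tendsto_pow_mul_exp_neg_atTop_nhds_zero 1).const_mul (1 / y)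
      rw [mul_zero] at h2
      refine h2.congr fun t => ?_
      rw [pow_one]
    refine squeeze_zero' ((eventually_ge_atTop 0).mono fun t ht => by positivity)
      ((eventually_ge_atTop 0).mono fun t ht => ?_) h0
    calc t * Real.exp (-(y * Real.exp t)) ≤ t * (1 / y * Real.exp (-t)) := mul_le_mul_of_nonneg_left (hb1 t) ht
      _ = _ := by ring
  have hparts := integral_Ioi_of_hasDerivAt_of_tendsto' (a := (0 : ℝ)) (fun t _ => hd t) (hi1.sub hi2) hlim
  rw [zero_mul, sub_zero] at hparts
  have e1 := integral_sub (μ := volume.restrict (Ioi (0 : ℝ))) (f := fun t => Real.exp (-(y * Real.exp t)))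
    (g := fun t => t * Real.exp (-(y * Real.exp t)) * (y * Real.exp t)) hi1 hi2
  rw [e1] at hparts
  -- the substitution
  have hg : IntegrableOn (fun v : ℝ => (Real.log v - Real.log y) ^ 1 * Real.exp (-v)) (Ici y) := by
    have h1 := (fr_integrable 1).sub ((fr_integrable 0).const_mul (Real.log y))
    have h2 : IntegrableOn (fun v : ℝ => (Real.log v - Real.log y) ^ 1 * Real.exp (-v)) (Ioi 0) := by
      refine h1.congr (Eventually.of_forall fun v => ?_)
      show fr 1 v - Real.log y * fr 0 v = _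
      rw [fr, fr]
      ring
    exact h2.mono_set fun v hv => lt_of_lt_of_le hy hv
  have hsub := integral_comp_mul_deriv_Ioi (f := fun t => y * Real.exp t) (f' := fun t => y * Real.exp t)
    (g := fun v : ℝ => (Real.log v - Real.log y) ^ 1 * Real.exp (-v)) (a := 0)
    (by fun_prop) (Real.tendsto_exp_atTop.const_mul_atTop hy)
    (fun t _ => ((Real.hasDerivAt_exp t).const_mul y).hasDerivWithinAt)
    (by
      refine ContinuousOn.mul (ContinuousOn.pow (ContinuousOn.sub (Real.continuousOn_log.mono ?_) continuousOn_const) 1)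
        (Continuous.continuousOn (by fun_prop))
      rintro _ ⟨t, _, rfl⟩
      have : 0 < y * Real.exp t := by positivity
      exact this.ne')
    (hg.mono_set (by
      rintro _ ⟨t, ht, rfl⟩
      have ht' : (0 : ℝ) ≤ t := ht
      show y ≤ y * Real.exp t
      exact le_mul_of_one_le_right hy.le (Real.one_le_exp ht')))
    (by
      rw [integrableOn_Ici_iff_integrableOn_Ioi]
      refine hi2.congr (Eventually.of_forall fun t => ?_)
      show _ = (Real.log (y * Real.exp t) - Real.log y) ^ 1 * Real.exp (-(y * Real.exp t)) * (y * Real.exp t)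
      rw [Real.log_mul hy.ne' (hE t).ne', Real.log_exp]
      ring)
  have hsub' : ∫ t in Ioi (0 : ℝ), t * Real.exp (-(y * Real.exp t)) * (y * Real.exp t) = Real.exp (-y) * dl 1 y := by
    rw [exp_dl 1 hy]
    rw [Real.exp_zero, mul_one] at hsub
    rw [← hsub]
    refine integral_congr_ae (Eventually.of_forall fun t => ?_)
    show _ = (Real.log (y * Real.exp t) - Real.log y) ^ 1 * Real.exp (-(y * Real.exp t)) * (y * Real.exp t)
    rw [Real.log_mul hy.ne' (hE t).ne', Real.log_exp]
    ring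
  have hrel := EE_rel 1 hy
  rw [NN_one, pow_one, Nat.factorial_one, Nat.cast_one] at hrel
  linarith

end Pool.Agent.H18.Bes
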