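import Pool.Agent.H18.Bes.Val

/-!
# The field of the exponentials and the Bessel values; counting
-/

set_option autoImplicit false
set_option linter.unusedSectionVars false

open PowerSeries Set

namespace Pool.Agent.H18.Bes

open Pool.Agent.N902.EW Pool.Agent.R352.E

/-- the generators of the field of the exponentials and the Bessel values -/
def GB : Set ℂ := GE ∪ {z | ∃ b : ℂ, IsAlgebraic ℚ b ∧ (z = I0 b ∨ z = I1 b)}

/-- the field of the exponentials and the Bessel values -/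
noncomputable def BB : IntermediateField ℚ ℂ := IntermediateField.adjoin ℚ GB

/-- `κ(z)` -/
noncomputable def ka (z : ℂ) : ℂ := HS z / I0 z

theorem E0_le_HH : E0 ≤ HH := by
  refine IntermediateField.adjoin_le_iff.2 ?_
  intro z hz
  obtain ⟨f, hf, -⟩ := killed_GE hz
  exact IntermediateField.subset_adjoin _ _ ⟨f, hf⟩

theorem su_mem_HH {L : ℕ} {P : Set ℝ} (hP : ∀ x ∈ P, 0 < x ∧ IsAlgebraic ℚ x) {X : Set ℂ}
    (hX : ∀ x ∈ X, IsAlgebraic ℚ x ∧ x ≠ 0) (i : Ix L P X) : su i ∈ HH := by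
  rcases i with p | p
  · obtain ⟨f, hf⟩ := mem_range_io (hX _ p.2.2.2).1
    have h0 : f ≠ 0 := by
      rintro rfl
      exact (hX _ p.2.2.2).2 (by rw [← hf, map_zero])
    refine IntermediateField.subset_adjoin _ _ ⟨sk f h0 (p.1.1 - 2), ?_⟩
    show evA io (sk f h0 (p.1.1 - 2)) = PS p.1.1 p.1.2
    rw [evA_sk, hf]
    congr 1
    have := p.2.1
    omega
  · have hPa : IsAlgebraic ℚ ((-p.1.2 : ℝ) : ℂ) := alg_cast (hP _ p.2.2.2).2.neg
    obtain ⟨a, ha⟩ := mem_range_io hPa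
    have ha0 : a ≠ 0 := by
      intro h
      rw [h, map_zero] at ha
      have h3 : (-p.1.2 : ℝ) = 0 := by exact_mod_cast ha.symm
      have := (hP _ p.2.2.2).1
      linarith
    refine IntermediateField.subset_adjoin _ _ ⟨mk 0 (zs a (p.1.1 - 1)) (adm_zs ha0 (p.1.1 - 1)), ?_⟩
    show evA io (mk 0 (zs a (p.1.1 - 1)) _) = ((-EE p.1.1 p.1.2 : ℝ) : ℂ)
    rw [evA_zs_neg ha0 ha]
    congr 3
    have := p.2.1
    omega

/-- the joint independence over the field of the exponentials -/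
theorem ai_all_E0 (L : ℕ) (P : Set ℝ) (hP : ∀ x ∈ P, 0 < x ∧ IsAlgebraic ℚ x) (X : Set ℂ)
    (hX : ∀ x ∈ X, IsAlgebraic ℚ x ∧ ∀ y ∈ X, x + y ≠ 0) :
    AlgebraicIndependent E0 (Sum.elim (fun p => evk io (bS Qb p)) (su (L := L) (P := P) (X := X))) := by
  let _ : Algebra E0 HH := (IntermediateField.inclusion E0_le_HH).toRingHom.toAlgebra
  have : IsScalarTower E0 HH ℂ := IsScalarTower.of_algebraMap_eq fun _ => rfl
  refine (ai_su L P hP X hX).sumElim_of_tower (S := HH) ?_ ai_bval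
  rintro _ ⟨i, rfl⟩
  refine ⟨⟨su i, su_mem_HH hP (fun x hx => ⟨(hX x hx).1, fun h0 => (hX x hx).2 x hx (by rw [h0, add_zero])⟩) i⟩, rfl⟩

/-- the rearrangement -/
def rea (A B : Type*) : (A ⊕ (A ⊕ A)) ⊕ B ≃ (A ⊕ B) ⊕ (A ⊕ A) where
  toFun x := match x with
    | Sum.inl (Sum.inl a) => Sum.inr (Sum.inl a)
    | Sum.inl (Sum.inr (Sum.inl a)) => Sum.inr (Sum.inr a)
    | Sum.inl (Sum.inr (Sum.inr a)) => Sum.inl (Sum.inl a)
    | Sum.inr b => Sum.inl (Sum.inr b)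
  invFun x := match x with
    | Sum.inr (Sum.inl a) => Sum.inl (Sum.inl a)
    | Sum.inr (Sum.inr a) => Sum.inl (Sum.inr (Sum.inl a))
    | Sum.inl (Sum.inl a) => Sum.inl (Sum.inr (Sum.inr a))
    | Sum.inl (Sum.inr b) => Sum.inr b
  left_inv := by rintro ((a | a | a) | b) <;> rfl
  right_inv := by rintro ((a | b) | (a | a)) <;> rfl

/-- the values -/
noncomputable def fV (ρ : Kx Qb) : ℂ := evk io (fs ρ.1)
noncomputable def jV (ρ : Kx Qb) : ℂ := evk io (Js ρ.1)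
noncomputable def sV (ρ : Kx Qb) : ℂ := evk io (Ss ρ.1)

/-- the set of the Bessel values -/
def SV : Set ℂ := Set.range (Sum.elim fV jV)

theorem ai_all_SV (L : ℕ) (P : Set ℝ) (hP : ∀ x ∈ P, 0 < x ∧ IsAlgebraic ℚ x) (X : Set ℂ)
    (hX : ∀ x ∈ X, IsAlgebraic ℚ x ∧ ∀ y ∈ X, x + y ≠ 0) :
    AlgebraicIndependent (IntermediateField.adjoin E0 SV) (Sum.elim sV (su (L := L) (P := P) (X := X))) := by
  have h1 : AlgebraicIndependent E0 (Sum.elim (Sum.elim sV (su (L := L) (P := P) (X := X))) (Sum.elim fV jV)) := by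
    refine (algebraicIndependent_equiv' (rea _ _) ?_).1 (ai_all_E0 L P hP X hX)
    ext ((a | a | a) | b) <;> rfl
  rw [IntermediateField.algebraicIndependent_adjoin_iff]
  exact (AlgebraicIndependent.sumElim_iff.1 h1).2

theorem alg_mem_GE {b : ℂ} (hb : IsAlgebraic ℚ b) : b ∈ GE := Or.inl hb

theorem exists_rho {z : ℂ} (hz : IsAlgebraic ℚ z) (h0 : z ≠ 0) : ∃ ρ : Kx Qb, io ρ.1 = z ^ 2 / 4 := by
  have h1 : IsAlgebraic ℚ (z ^ 2 / 4) := by
    refine (hz.pow 2).mul (IsAlgebraic.inv ?_)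
    exact_mod_cast isAlgebraic_algebraMap (R := ℚ) (A := ℂ) 4
  obtain ⟨f, hf⟩ := mem_range_io h1
  refine ⟨⟨f, ?_⟩, hf⟩
  rintro rfl
  rw [map_zero] at hf
  exact h0 (by simpa using hf.symm)

theorem I0_zero : I0 0 = 1 := by
  rw [I0, tsum_eq_single 0]
  · simp
  · intro k hk; rw [zero_pow (by norm_num), zero_div, zero_pow hk, zero_div]

theorem I1_zero : I1 0 = 0 := by rw [I1]; simp

theorem BB_le : (BB : IntermediateField ℚ ℂ) ≤ (IntermediateField.adjoin E0 SV).restrictScalars ℚ := by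
  have h1 : (IntermediateField.adjoin E0 SV).restrictScalars ℚ = IntermediateField.adjoin ℚ (GE ∪ SV) := by
    rw [E0]
    exact IntermediateField.adjoin_adjoin_left ℚ GE SV
  rw [h1]
  refine IntermediateField.adjoin_le_iff.2 ?_
  have hsub := IntermediateField.subset_adjoin ℚ (GE ∪ SV)
  rintro z (hz | ⟨b, hb, hz⟩)
  · exact hsub (Or.inl hz)
  · by_cases h0 : b = 0
    · subst h0
      rcases hz with rfl | rfl
      · rw [I0_zero]; exact IntermediateField.one_mem _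
      · rw [I1_zero]; exact IntermediateField.zero_mem _
    · obtain ⟨ρ, hρ⟩ := exists_rho hb h0
      rcases hz with rfl | rfl
      · have h2 : fV ρ = I0 b := evk_fs ρ.1 hρ
        rw [← h2]
        exact hsub (Or.inr ⟨Sum.inl ρ, rfl⟩)
      · have h2 : jV ρ = b * I1 b := evk_Js ρ.1 hρ
        have h3 : I1 b = jV ρ / b := by rw [h2]; field_simp
        rw [h3]
        exact IntermediateField.div_mem _ (hsub (Or.inr ⟨Sum.inr ρ, rfl⟩)) (hsub (Or.inl (alg_mem_GE hb)))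

theorem ai_BB (L : ℕ) (P : Set ℝ) (hP : ∀ x ∈ P, 0 < x ∧ IsAlgebraic ℚ x) (X : Set ℂ)
    (hX : ∀ x ∈ X, IsAlgebraic ℚ x ∧ ∀ y ∈ X, x + y ≠ 0) :
    AlgebraicIndependent BB (Sum.elim sV (su (L := L) (P := P) (X := X))) := by
  have h := ai_all_SV L P hP X hX
  have h' : AlgebraicIndependent ((IntermediateField.adjoin E0 SV).restrictScalars ℚ)
    (Sum.elim sV (su (L := L) (P := P) (X := X))) := h
  let _ : Algebra BB ((IntermediateField.adjoin E0 SV).restrictScalars ℚ) :=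
    (IntermediateField.inclusion BB_le).toRingHom.toAlgebra
  have : IsScalarTower BB ((IntermediateField.adjoin E0 SV).restrictScalars ℚ) ℂ := IsScalarTower.of_algebraMap_eq fun _ => rfl
  exact h'.restrictScalars (IntermediateField.inclusion BB_le).injective

/-- admissible sets of points -/
def Pts (Z : Set ℂ) : Prop := (∀ z ∈ Z, IsAlgebraic ℚ z ∧ z ≠ 0) ∧ ∀ z ∈ Z, ∀ w ∈ Z, z ^ 2 = w ^ 2 → z = w

theorem I0_ne {z : ℂ} (hz : IsAlgebraic ℚ z) : I0 z ≠ 0 := by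
  by_cases h0 : z = 0
  · rw [h0, I0_zero]; exact one_ne_zero
  · obtain ⟨ρ, hρ⟩ := exists_rho hz h0
    have h1 : fV ρ = I0 z := evk_fs ρ.1 hρ
    rw [← h1]
    exact ai_bval.ne_zero (Sum.inl ρ)

theorem I0_mem {z : ℂ} (hz : IsAlgebraic ℚ z) : I0 z ∈ BB := IntermediateField.subset_adjoin _ _ (Or.inr ⟨z, hz, Or.inl rfl⟩)

theorem I1_mem {z : ℂ} (hz : IsAlgebraic ℚ z) : I1 z ∈ BB := IntermediateField.subset_adjoin _ _ (Or.inr ⟨z, hz, Or.inr rfl⟩)

theorem E0_le_BB : E0 ≤ BB := IntermediateField.adjoin.mono _ _ _ subset_union_left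

theorem BB_le_clf {T : Set ℂ} {z : ℂ} (hz : z ∈ BB) : z ∈ clf BB T := E0_le_clf hz

/-- **the numbers `κ(z)`, `S_k(x)` and `E_l(x)` are algebraically independent over the field of the exponentials and the
Bessel values** -/
theorem ai_ka (L : ℕ) (P : Set ℝ) (hP : ∀ x ∈ P, 0 < x ∧ IsAlgebraic ℚ x) (X : Set ℂ)
    (hX : ∀ x ∈ X, IsAlgebraic ℚ x ∧ ∀ y ∈ X, x + y ≠ 0) {Z : Set ℂ} (hZ : Pts Z) :
    AlgebraicIndependent BB (Sum.elim (fun z : Z => ka z) (su (L := L) (P := P) (X := X))) := by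
  choose ρ hρ using fun z : Z => exists_rho (hZ.1 z z.2).1 (hZ.1 z z.2).2
  have hρi : Function.Injective ρ := by
    intro z w h
    apply Subtype.ext
    refine hZ.2 _ z.2 _ w.2 ?_
    have h1 : (z : ℂ) ^ 2 / 4 = (w : ℂ) ^ 2 / 4 := by rw [← hρ z, ← hρ w, h]
    linear_combination 4 * h1
  have h1 := (ai_BB L P hP X hX).comp (Sum.map ρ id) (Function.Injective.sumMap hρi Function.injective_id)
  refine ai_of_span h1 _ fun i => ?_
  rcases i with z | i
  · show sV (ρ z) ∈ clf BB {ka z}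
    have h2 : sV (ρ z) = ka z * I0 z := by
      have h3 : sV (ρ z) = HS z := evk_Ss _ (hρ z)
      rw [h3, ka, div_mul_cancel₀ _ (I0_ne (hZ.1 z z.2).1)]
    rw [h2]
    exact (clf BB _).mul_mem (subset_clf _ rfl) (BB_le_clf (I0_mem (hZ.1 z z.2).1))
  · exact subset_clf _ rfl

/-- membership -/
theorem su_mem' {L : ℕ} {P : Set ℝ} (hP : ∀ x ∈ P, 0 < x ∧ IsAlgebraic ℚ x) {X : Set ℂ} {T : Set ℂ}
    (hL : ∀ k, 2 ≤ k → k ≤ L → riemannZeta k ∈ clf BB T)
    (hG : ∀ x ∈ P, ((Real.eulerMascheroniConstant + Real.log x : ℝ) : ℂ) ∈ clf BB T) (i : Ix L P X)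
    (hi : nu i ∈ clf BB T) : su i ∈ clf BB T := by
  rcases i with p | p
  · have h3 := zeta_split p.2.1 p.1.2
    have h4 : PS p.1.1 p.1.2 = riemannZeta p.1.1 - PT p.1.1 p.1.2 := by rw [h3]; ring
    show PS p.1.1 p.1.2 ∈ _
    rw [h4]
    exact (clf BB T).sub_mem (hL _ p.2.1 p.2.2.1) hi
  · show ((-EE p.1.1 p.1.2 : ℝ) : ℂ) ∈ _
    push_cast
    refine (clf BB T).neg_mem ?_
    refine EE_mem' (hP _ p.2.2.2).1 p.1.1 ?_ (hG _ p.2.2.2) (fun k h2 hk => hL k h2 (hk.trans p.2.2.1)) hi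
    push_cast
    refine E0_le_clf (E0_le_BB (exp_mem_E0 ?_))
    exact (alg_cast (hP _ p.2.2.2).2).neg

/-- the counting theorem -/
theorem count_B (L : ℕ) (P : Set ℝ) (hP : ∀ x ∈ P, 0 < x ∧ IsAlgebraic ℚ x) (X : Set ℂ)
    (hX : ∀ x ∈ X, IsAlgebraic ℚ x ∧ ∀ y ∈ X, x + y ≠ 0) {Z : Set ℂ} (hZ : Pts Z) (kb : ℂ → ℂ) {r : ℕ} (y : Fin r → ℂ)
    (hL : ∀ k, 2 ≤ k → k ≤ L → riemannZeta k ∈ clf BB (range y))
    (hG : ∀ x ∈ P, ((Real.eulerMascheroniConstant + Real.log x : ℝ) : ℂ) ∈ clf BB (range y))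
    (hK : ∀ z ∈ Z, ka z - kb z ∈ clf BB (range y)) :
    {n : Fin r ⊕ ({z // z ∈ Z} ⊕ Ix L P X) | Sum.elim (fun j => IsAlgebraic BB (y j))
      (fun i => IsAlgebraic BB (Sum.elim (fun z : {z // z ∈ Z} => kb z) nu i)) n}.encard ≤ (r : ℕ∞) := by
  refine count_le (ai_ka L P hP X hX hZ) y (Sum.elim (fun z : {z // z ∈ Z} => kb z) nu) fun i => ?_
  rcases i with z | i
  · show ka z ∈ clf BB (insert (kb z) (range y))
    have h1 : ka z = (ka z - kb z) + kb z := by ring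
    rw [h1]
    exact (clf BB _).add_mem (clf_mono (subset_insert _ _) (hK z z.2)) (subset_clf _ (mem_insert _ _))
  · exact su_mem' hP (fun k h2 hk => clf_mono (subset_insert _ _) (hL k h2 hk))
      (fun x hx => clf_mono (subset_insert _ _) (hG x hx)) i (subset_clf _ (mem_insert _ _))

/-- the transcendence degree -/
theorem trdeg_B (L : ℕ) (P : Set ℝ) (hP : ∀ x ∈ P, 0 < x ∧ IsAlgebraic ℚ x) (X : Set ℂ)
    (hX : ∀ x ∈ X, IsAlgebraic ℚ x ∧ ∀ y ∈ X, x + y ≠ 0) {Z : Set ℂ} (hZ : Pts Z) (kb : ℂ → ℂ) {r : ℕ} (y : Fin r → ℂ)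
    (hL : ∀ k, 2 ≤ k → k ≤ L → riemannZeta k ∈ clf BB (range y))
    (hG : ∀ x ∈ P, ((Real.eulerMascheroniConstant + Real.log x : ℝ) : ℂ) ∈ clf BB (range y))
    (hK : ∀ z ∈ Z, ka z - kb z ∈ clf BB (range y)) (A : Finset ({z // z ∈ Z} ⊕ Ix L P X)) :
    (A.card : Cardinal) ≤ Algebra.trdeg BB (IntermediateField.adjoin BB
      (range y ∪ Sum.elim (fun z : {z // z ∈ Z} => kb z) nu '' (A : Set ({z // z ∈ Z} ⊕ Ix L P X)))) := by
  have h0 := trdeg_ge ((ai_ka L P hP X hX hZ).comp (Subtype.val : A → {z // z ∈ Z} ⊕ Ix L P X) Subtype.val_injective)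
    (A := range y ∪ Sum.elim (fun z : {z // z ∈ Z} => kb z) nu '' (A : Set ({z // z ∈ Z} ⊕ Ix L P X))) fun i => by
      obtain ⟨i, hi⟩ := i
      have hmem : Sum.elim (fun z : {z // z ∈ Z} => kb z) nu i ∈ clf BB
        (range y ∪ Sum.elim (fun z : {z // z ∈ Z} => kb z) nu '' (A : Set ({z // z ∈ Z} ⊕ Ix L P X))) :=
        subset_clf _ (Or.inr ⟨i, hi, rfl⟩)
      rcases i with z | i
      · have h1 : ka z = (ka z - kb z) + kb z := by ring
        show ka z ∈ _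
        rw [h1]
        exact (clf BB _).add_mem (clf_mono subset_union_left (hK z z.2)) hmem
      · exact su_mem' hP (fun k h2 hk => clf_mono subset_union_left (hL k h2 hk))
          (fun x hx => clf_mono subset_union_left (hG x hx)) i hmem
  rw [Fintype.card_coe] at h0
  exact h0

end Pool.Agent.H18.Bes
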