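import Pool.Agent.H18.Bes.Ana
import Pool.Agent.H18.Bes.Val2

/-!
# The integral `∫_0^∞ exp(-z cosh t) dt` as a combination of the two series
-/

set_option autoImplicit false
set_option linter.unusedSectionVars false

open Filter Topology Set MeasureTheory

namespace Pool.Agent.H18.Bes

open Pool.Agent.R352.E

theorem kr0_E {x : ℝ} (hx : 0 < x) : |kr 0 x - ∫ t in Ioi (0 : ℝ), Real.exp (-(x / 2 * Real.exp t))| ≤ x / 2 := by
  have hi1 := krf_int 0 hx
  have hi2 := (Ey (y := x / 2) (by positivity)).1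
  have e : ∀ t : ℝ, krf 0 x t = Real.exp (-(x / 2 * Real.exp t)) * Real.exp (-(x / 2 * Real.exp (-t))) := by
    intro t
    rw [krf, pow_zero, one_mul, ← Real.exp_add, Real.cosh_eq]
    congr 1
    ring
  rw [kr, ← integral_sub hi1 hi2]
  refine (abs_integral_le_integral_abs).trans ?_
  have h1 : ∫ t in Ioi (0 : ℝ), |krf 0 x t - Real.exp (-(x / 2 * Real.exp t))| ≤ ∫ t in Ioi (0 : ℝ), x / 2 * Real.exp (-t) := by
    refine integral_mono (hi1.sub hi2).abs (exp_neg_int (x / 2)) fun t => ?_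
    show |krf 0 x t - Real.exp (-(x / 2 * Real.exp t))| ≤ x / 2 * Real.exp (-t)
    rw [e]
    have h2 : Real.exp (-(x / 2 * Real.exp t)) ≤ 1 := by
      rw [Real.exp_le_one_iff]
      have := Real.exp_pos t
      nlinarith
    have h3 : Real.exp (-(x / 2 * Real.exp (-t))) ≤ 1 := by
      rw [Real.exp_le_one_iff]
      have := Real.exp_pos (-t)
      nlinarith
    have h4 : 1 - x / 2 * Real.exp (-t) ≤ Real.exp (-(x / 2 * Real.exp (-t))) := by
      have := Real.add_one_le_exp (-(x / 2 * Real.exp (-t)))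
      linarith
    have h5 := Real.exp_pos (-(x / 2 * Real.exp t))
    have h6 : 0 < x / 2 * Real.exp (-t) := by positivity
    rw [abs_le]
    constructor <;> nlinarith
  refine h1.trans ?_
  rw [integral_const_mul, exp_neg_integral, mul_one]

/-- the logarithmic term -/
noncomputable def cL (x : ℝ) : ℝ := Real.log x - Real.log 2 + Real.eulerMascheroniConstant

theorem tendsto_half : Tendsto (fun x : ℝ => x / 2) (𝓝[>] 0) (𝓝[>] 0) := by
  refine tendsto_nhdsWithin_iff.2 ⟨?_, ?_⟩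
  · have : Tendsto (fun x : ℝ => x / 2) (𝓝 0) (𝓝 (0 / 2)) := (continuous_id.div_const 2).tendsto 0
    rw [zero_div] at this
    exact this.mono_left nhdsWithin_le_nhds
  · filter_upwards [self_mem_nhdsWithin] with x hx
    have : (0 : ℝ) < x := hx
    show (0 : ℝ) < x / 2
    positivity

theorem kr0_tendsto : Tendsto (fun x => kr 0 x + cL x) (𝓝[>] 0) (𝓝 0) := by
  have h1 : Tendsto (fun x => kr 0 x - ∫ t in Ioi (0 : ℝ), Real.exp (-(x / 2 * Real.exp t))) (𝓝[>] 0) (𝓝 0) := by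
    rw [tendsto_zero_iff_norm_tendsto_zero]
    refine squeeze_zero' (Eventually.of_forall fun x => norm_nonneg _) ?_ (tendsto_half.mono_right nhdsWithin_le_nhds)
    filter_upwards [self_mem_nhdsWithin] with x hx
    exact kr0_E hx
  have h2 : Tendsto (fun x : ℝ => EE 1 (x / 2)) (𝓝[>] 0) (𝓝 0) := (EE_tendsto 0).comp tendsto_half
  have h3 := h1.add h2
  rw [add_zero] at h3
  refine h3.congr' ?_
  filter_upwards [self_mem_nhdsWithin] with x hx
  have hx' : (0 : ℝ) < x := hx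
  rw [(Ey (y := x / 2) (by positivity)).2, Real.log_div hx'.ne' (by norm_num), cL]
  ring

theorem tendsto_sq : Tendsto (fun x : ℝ => x ^ 2 / 4) (𝓝[>] 0) (𝓝[≠] 0) := by
  refine tendsto_nhdsWithin_iff.2 ⟨?_, ?_⟩
  · have : Tendsto (fun x : ℝ => x ^ 2 / 4) (𝓝 0) (𝓝 ((0 : ℝ) ^ 2 / 4)) := ((continuous_pow 2).div_const 4).tendsto 0
    rw [zero_pow two_ne_zero, zero_div] at this
    exact this.mono_left nhdsWithin_le_nhds
  · filter_upwards [self_mem_nhdsWithin] with x hx
    have : (0 : ℝ) < x := hx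
    show x ^ 2 / 4 ≠ 0
    positivity

theorem cL_tendsto {g : ℝ → ℝ} {g' : ℝ} (hg : HasDerivAt g g' 0) (h0 : g 0 = 0) :
    Tendsto (fun x => cL x * g (x ^ 2 / 4)) (𝓝[>] 0) (𝓝 0) := by
  have h1 : Tendsto (fun ρ : ℝ => ρ⁻¹ * g ρ) (𝓝[≠] 0) (𝓝 g') := by
    have := hasDerivAt_iff_tendsto_slope.1 hg
    refine this.congr fun ρ => ?_
    rw [slope_def_field, h0, sub_zero, sub_zero]
    ring
  have h2 := h1.comp tendsto_sq
  have h3 : Tendsto (fun x : ℝ => cL x * (x ^ 2 / 4)) (𝓝[>] 0) (𝓝 0) := by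
    have e1 : Tendsto (fun x : ℝ => Real.log x * x ^ (2 : ℝ)) (𝓝[>] 0) (𝓝 0) := tendsto_log_mul_rpow_nhdsGT_zero (by norm_num)
    have e2 : Tendsto (fun x : ℝ => (Real.eulerMascheroniConstant - Real.log 2) * x ^ 2) (𝓝[>] 0) (𝓝 0) := by
      have : Tendsto (fun x : ℝ => (Real.eulerMascheroniConstant - Real.log 2) * x ^ 2) (𝓝 0)
        (𝓝 ((Real.eulerMascheroniConstant - Real.log 2) * 0 ^ 2)) := ((continuous_pow 2).const_mul _).tendsto 0
      rw [zero_pow two_ne_zero, mul_zero] at this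
      exact this.mono_left nhdsWithin_le_nhds
    have e3 := (e1.add e2).const_mul (1 / 4)
    rw [add_zero, mul_zero] at e3
    refine e3.congr fun x => ?_
    have : x ^ (2 : ℝ) = x ^ 2 := by exact_mod_cast Real.rpow_natCast x 2
    rw [this, cL]
    ring
  have h4 := h3.mul h2
  rw [zero_mul] at h4
  refine h4.congr' ?_
  filter_upwards [self_mem_nhdsWithin] with x hx
  have hx' : (0 : ℝ) < x := hx
  show cL x * (x ^ 2 / 4) * ((x ^ 2 / 4)⁻¹ * g (x ^ 2 / 4)) = _
  field_simp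

theorem sq_deriv (x : ℝ) : HasDerivAt (fun x : ℝ => x ^ 2 / 4) (x / 2) x := by
  refine ((hasDerivAt_pow 2 x).div_const 4).congr_deriv ?_
  push_cast
  ring

theorem Fk_pos {ρ : ℝ} (hρ : 0 ≤ ρ) : 1 ≤ Fk ℝ ρ := by
  have h := (ent_a1 (𝕜 := ℝ)).summable ρ
  rw [Fk, sr, h.tsum_eq_zero_add]
  have h1 : 0 ≤ ∑' n : ℕ, a1 ℝ (n + 1) * ρ ^ (n + 1) := tsum_nonneg fun n => by rw [a1]; positivity
  have h2 : a1 ℝ 0 * ρ ^ 0 = 1 := by rw [a1]; simp
  linarith

/-- the identity on the positive real axis -/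
theorem kr0_eq {x : ℝ} (hx : 0 < x) : kr 0 x + cL x * Fk ℝ (x ^ 2 / 4) - Sk ℝ (x ^ 2 / 4) = 0 := by
  set f : ℝ → ℝ := fun x => Fk ℝ (x ^ 2 / 4) with hf
  set j : ℝ → ℝ := fun x => 2 * Jk ℝ (x ^ 2 / 4) with hj
  set s : ℝ → ℝ := fun x => Sk ℝ (x ^ 2 / 4) with hs
  set r : ℝ → ℝ := fun x => 2 * Rk ℝ (x ^ 2 / 4) with hr
  set D : ℝ → ℝ := fun x => kr 0 x + cL x * f x - s x with hD
  set M : ℝ → ℝ := fun x => -(x * kr 1 x) + f x + cL x * j x - r x with hM
  have hf' : ∀ x, 0 < x → HasDerivAt f (j x / x) x := fun x hx => by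
    refine ((Fk_deriv (x ^ 2 / 4)).comp x (sq_deriv x)).congr_deriv ?_
    show F1 ℝ (x ^ 2 / 4) * (x / 2) = 2 * Jk ℝ (x ^ 2 / 4) / x
    rw [← mul_F1]
    field_simp
    ring
  have hj' : ∀ x, 0 < x → HasDerivAt j (x * f x) x := fun x hx => by
    refine (((Jk_deriv (x ^ 2 / 4)).comp x (sq_deriv x)).const_mul 2).congr_deriv ?_
    show 2 * (Fk ℝ (x ^ 2 / 4) * (x / 2)) = x * Fk ℝ (x ^ 2 / 4)
    ring
  have hs' : ∀ x, 0 < x → HasDerivAt s (r x / x) x := fun x hx => by
    refine ((Sk_deriv (x ^ 2 / 4)).comp x (sq_deriv x)).congr_deriv ?_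
    show S1 ℝ (x ^ 2 / 4) * (x / 2) = 2 * Rk ℝ (x ^ 2 / 4) / x
    rw [← mul_S1]
    field_simp
    ring
  have hr' : ∀ x, 0 < x → HasDerivAt r (x * s x + 2 * j x / x) x := fun x hx => by
    refine (((Rk_deriv (x ^ 2 / 4)).comp x (sq_deriv x)).const_mul 2).congr_deriv ?_
    show 2 * ((Sk ℝ (x ^ 2 / 4) + F1 ℝ (x ^ 2 / 4)) * (x / 2)) = x * Sk ℝ (x ^ 2 / 4) + 2 * (2 * Jk ℝ (x ^ 2 / 4)) / x
    rw [← mul_F1]
    field_simp
    ring
  have hc' : ∀ x, 0 < x → HasDerivAt cL (1 / x) x := fun x hx => by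
    have := ((Real.hasDerivAt_log hx.ne').sub_const (Real.log 2)).add_const Real.eulerMascheroniConstant
    rw [one_div]
    exact this
  have hD' : ∀ x, 0 < x → HasDerivAt D (M x / x) x := fun x hx => by
    have h1 := ((kr_deriv 0 hx).add ((hc' x hx).mul (hf' x hx))).sub (hs' x hx)
    refine h1.congr_deriv ?_
    show -kr (0 + 1) x + (1 / x * f x + cL x * (j x / x)) - r x / x = (-(x * kr 1 x) + f x + cL x * j x - r x) / x
    field_simp
    ring
  have hM' : ∀ x, 0 < x → HasDerivAt M (x * D x) x := fun x hx => by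
    have h1 := ((((hasDerivAt_id x).mul (kr_deriv 1 hx)).neg.add (hf' x hx)).add ((hc' x hx).mul (hj' x hx))).sub (hr' x hx)
    refine h1.congr_deriv ?_
    show -(1 * kr 1 x + x * -kr (1 + 1) x) + j x / x + (1 / x * j x + cL x * (x * f x)) - (x * s x + 2 * j x / x) =
      x * (kr 0 x + cL x * f x - s x)
    have h2 := kr_ode hx
    field_simp
    linear_combination x * h2
  -- limits
  have lf : Tendsto f (𝓝[>] 0) (𝓝 1) := by
    have h1 := ((Fk_deriv (0 : ℝ)).continuousAt.tendsto).comp (tendsto_sq.mono_right nhdsWithin_le_nhds)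
    rwa [Fk_zero] at h1
  have lj : Tendsto j (𝓝[>] 0) (𝓝 0) := by
    have h1 := (((Jk_deriv (0 : ℝ)).continuousAt.tendsto).comp (tendsto_sq.mono_right nhdsWithin_le_nhds)).const_mul 2
    rwa [Jk_zero, mul_zero] at h1
  have ls : Tendsto s (𝓝[>] 0) (𝓝 0) := by
    have h1 := ((Sk_deriv (0 : ℝ)).continuousAt.tendsto).comp (tendsto_sq.mono_right nhdsWithin_le_nhds)
    rwa [Sk_zero] at h1
  have lr : Tendsto r (𝓝[>] 0) (𝓝 0) := by
    have h1 := (((Rk_deriv (0 : ℝ)).continuousAt.tendsto).comp (tendsto_sq.mono_right nhdsWithin_le_nhds)).const_mul 2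
    rwa [Rk_zero, mul_zero] at h1
  have lcf : Tendsto (fun x => cL x * (f x - 1)) (𝓝[>] 0) (𝓝 0) :=
    cL_tendsto (g := fun ρ => Fk ℝ ρ - 1) ((Fk_deriv 0).sub_const 1) (by show Fk ℝ 0 - 1 = 0; rw [Fk_zero, sub_self])
  have lcj : Tendsto (fun x => cL x * j x) (𝓝[>] 0) (𝓝 0) :=
    cL_tendsto (g := fun ρ => 2 * Jk ℝ ρ) ((Jk_deriv 0).const_mul 2) (by show 2 * Jk ℝ 0 = 0; rw [Jk_zero, mul_zero])
  have lk1 : Tendsto (fun x => x * kr 1 x) (𝓝[>] 0) (𝓝 1) := by
    have h1 : Tendsto (fun x => x * kr 1 x - Real.exp (-x)) (𝓝[>] 0) (𝓝 0) := by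
      rw [tendsto_zero_iff_norm_tendsto_zero]
      have hid : Tendsto (fun x : ℝ => x) (𝓝[>] 0) (𝓝 0) := tendsto_id.mono_left nhdsWithin_le_nhds
      refine squeeze_zero' (Eventually.of_forall fun x => norm_nonneg _) ?_ hid
      filter_upwards [self_mem_nhdsWithin] with x hx
      exact xk1 hx
    have h2 : Tendsto (fun x : ℝ => Real.exp (-x)) (𝓝[>] 0) (𝓝 1) := by
      have : Tendsto (fun x : ℝ => Real.exp (-x)) (𝓝 0) (𝓝 (Real.exp (-0))) := (Real.continuous_exp.comp continuous_neg).tendsto 0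
      rw [neg_zero, Real.exp_zero] at this
      exact this.mono_left nhdsWithin_le_nhds
    have h3 := h1.add h2
    rw [zero_add] at h3
    exact h3.congr fun x => by ring
  have lD : Tendsto D (𝓝[>] 0) (𝓝 0) := by
    have h1 := (kr0_tendsto.add lcf).sub ls
    rw [add_zero, sub_zero] at h1
    exact h1.congr fun x => by simp only [hD]; ring
  have lM : Tendsto M (𝓝[>] 0) (𝓝 0) := by
    have h1 := ((lk1.neg.add lf).add lcj).sub lr
    rw [neg_add_cancel, zero_add, sub_zero] at h1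
    exact h1
  -- the Wronskian
  have hW : ∀ x, 0 < x → f x * M x - j x * D x = 0 := by
    intro x hx
    refine zero_of_deriv (F := fun x => f x * M x - j x * D x) (fun y hy => ?_) ?_ hx
    · have h1 := ((hf' y hy).mul (hM' y hy)).sub ((hj' y hy).mul (hD' y hy))
      refine h1.congr_deriv ?_
      show j y / y * M y + f y * (y * D y) - (y * f y * D y + j y * (M y / y)) = 0
      ring
    · have h1 := (lf.mul lM).sub (lj.mul lD)
      rw [mul_zero, mul_zero, sub_zero] at h1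
      exact h1
  have hfp : ∀ x, 0 < f x := fun x => by
    have := Fk_pos (ρ := x ^ 2 / 4) (by positivity)
    show 0 < Fk ℝ (x ^ 2 / 4)
    linarith
  have hG : ∀ x, 0 < x → D x / f x = 0 := by
    intro x hx
    refine zero_of_deriv (F := fun x => D x / f x) (fun y hy => ?_) ?_ hx
    · have h1 := (hD' y hy).div (hf' y hy) (hfp y).ne'
      refine h1.congr_deriv ?_
      have h2 := hW y hy
      have h3 : M y / y * f y - D y * (j y / y) = 0 := by
        field_simp
        linear_combination h2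
      rw [h3, zero_div]
    · have h1 := lD.div lf one_ne_zero
      rw [zero_div] at h1
      exact h1
  have := hG x hx
  rw [div_eq_zero_iff] at this
  exact this.resolve_right (hfp x).ne'

/-! ### The right half plane -/

theorem I0_eq (z : ℂ) : I0 z = Fk ℂ (z ^ 2 / 4) := by
  rw [I0, Fk, sr]
  exact tsum_congr fun k => by rw [a1]; ring

theorem HS_eq (z : ℂ) : HS z = Sk ℂ (z ^ 2 / 4) := by
  rw [HS, Sk, sr]
  refine tsum_congr fun k => ?_
  rw [a2]
  ring

theorem Fk_real (x : ℝ) : Fk ℂ (x : ℂ) = ((Fk ℝ x : ℝ) : ℂ) := by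
  rw [Fk, Fk, sr, sr, Complex.ofReal_tsum]
  refine tsum_congr fun k => ?_
  rw [a1, a1]
  push_cast
  rfl

theorem Sk_real (x : ℝ) : Sk ℂ (x : ℂ) = ((Sk ℝ x : ℝ) : ℂ) := by
  rw [Sk, Sk, sr, sr, Complex.ofReal_tsum]
  refine tsum_congr fun k => ?_
  rw [a2, a2]
  push_cast
  rfl

theorem I0_diff : Differentiable ℂ I0 := by
  have h : I0 = fun z => Fk ℂ (z ^ 2 / 4) := funext I0_eq
  rw [h]
  intro z
  exact ((Fk_deriv (z ^ 2 / 4)).differentiableAt).comp z (by fun_prop)

theorem HS_diff : Differentiable ℂ HS := by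
  have h : HS = fun z => Sk ℂ (z ^ 2 / 4) := funext HS_eq
  rw [h]
  intro z
  exact ((Sk_deriv (z ^ 2 / 4)).differentiableAt).comp z (by fun_prop)

/-- the combination of the series -/
noncomputable def ks (z : ℂ) : ℂ := HS z - (Complex.log (z / 2) + Real.eulerMascheroniConstant) * I0 z

theorem ks_diff {z : ℂ} (hz : z / 2 ∈ Complex.slitPlane) : DifferentiableAt ℂ ks z := by
  have h1 : DifferentiableAt ℂ (fun z : ℂ => Complex.log (z / 2)) z :=
    DifferentiableAt.comp (g := Complex.log) (f := fun z : ℂ => z / 2) z (Complex.differentiableAt_log hz)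
      (differentiableAt_id.div_const 2)
  exact (HS_diff z).sub ((h1.add_const _).mul (I0_diff z))

theorem half_mem {z : ℂ} (hz : 0 < z.re) : z / 2 ∈ Complex.slitPlane := by
  refine Or.inl ?_
  have h : (z / 2).re = z.re / 2 := by
    have := Complex.div_ofNat_re z 2
    exact this
  rw [h]
  positivity

/-- **the identity** -/
theorem kn_eq {z : ℂ} (hz : 0 < z.re) : kn 0 z = ks z := by
  set U : Set ℂ := {z | 0 < z.re} with hU
  have hUo : IsOpen U := isOpen_lt continuous_const Complex.continuous_re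
  have hUc : IsPreconnected U := (convex_halfSpace_re_gt 0).isPreconnected
  have hd : DifferentiableOn ℂ (fun z => kn 0 z - ks z) U := fun w hw =>
    ((kn_deriv 0 hw).differentiableAt.sub (ks_diff (half_mem hw))).differentiableWithinAt
  have hreal : ∀ x : ℝ, 0 < x → kn 0 (x : ℂ) - ks (x : ℂ) = 0 := by
    intro x hx
    have h1 := kr0_eq hx
    have h2 : (((x ^ 2 / 4 : ℝ)) : ℂ) = (x : ℂ) ^ 2 / 4 := by push_cast; rfl
    have h3 : Complex.log ((x : ℂ) / 2) = ((Real.log x - Real.log 2 : ℝ) : ℂ) := by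
      have h4 : ((x : ℂ) / 2) = ((x / 2 : ℝ) : ℂ) := by push_cast; rfl
      rw [h4, ← Complex.ofReal_log (by positivity), Real.log_div hx.ne' (by norm_num)]
    rw [kn_real, ks, I0_eq, HS_eq, ← h2, Fk_real, Sk_real, h3]
    have h5 : (((kr 0 x + cL x * Fk ℝ (x ^ 2 / 4) - Sk ℝ (x ^ 2 / 4) : ℝ)) : ℂ) = 0 := by rw [h1]; rfl
    rw [cL] at h5
    push_cast at h5 ⊢
    linear_combination h5
  have hfr : ∃ᶠ w in 𝓝[≠] (1 : ℂ), kn 0 w - ks w = 0 := by
    have ht : Tendsto (fun x : ℝ => (x : ℂ)) (𝓝[≠] 1) (𝓝[≠] 1) := by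
      refine tendsto_nhdsWithin_iff.2 ⟨?_, ?_⟩
      · have : Tendsto (fun x : ℝ => (x : ℂ)) (𝓝 1) (𝓝 ((1 : ℝ) : ℂ)) := Complex.continuous_ofReal.tendsto 1
        rw [Complex.ofReal_one] at this
        exact this.mono_left nhdsWithin_le_nhds
      · filter_upwards [self_mem_nhdsWithin] with x hx
        intro h
        apply hx
        have h' : (x : ℂ) = 1 := h
        exact_mod_cast h'
    refine ht.frequently (Eventually.frequently ?_)
    have h1 : ∀ᶠ x : ℝ in 𝓝 1, 0 < x := lt_mem_nhds one_pos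
    exact (h1.filter_mono nhdsWithin_le_nhds).mono fun x hx => hreal x hx
  have h := (hd.analyticOnNhd hUo).eqOn_zero_of_preconnected_of_frequently_eq_zero hUc
    (show (1 : ℂ) ∈ U by show (0 : ℝ) < (1 : ℂ).re; norm_num) hfr hz
  exact sub_eq_zero.1 h

/-- the limit on the closed half plane -/
theorem kn_tendsto {z : ℂ} (hz : 0 ≤ z.re) (h0 : z ≠ 0) :
    Tendsto (fun ε : ℝ => kn 0 (z + ε)) (𝓝[>] 0) (𝓝 (ks z)) := by
  have hsl : z / 2 ∈ Complex.slitPlane := by
    rcases hz.lt_or_eq with h | h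
    · exact half_mem h
    · refine Or.inr ?_
      have him : z.im ≠ 0 := fun h' => h0 (Complex.ext h.symm h')
      have h1 : (z / 2).im = z.im / 2 := by
        have := Complex.div_ofNat_im z 2
        exact this
      rw [h1]
      exact div_ne_zero him (by norm_num)
  have h1 : Tendsto (fun ε : ℝ => z + (ε : ℂ)) (𝓝[>] 0) (𝓝 z) := by
    have : Tendsto (fun ε : ℝ => z + (ε : ℂ)) (𝓝 0) (𝓝 (z + ((0 : ℝ) : ℂ))) :=
      (continuous_const.add Complex.continuous_ofReal).tendsto 0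
    rw [Complex.ofReal_zero, add_zero] at this
    exact this.mono_left nhdsWithin_le_nhds
  refine ((ks_diff hsl).continuousAt.tendsto.comp h1).congr' ?_
  filter_upwards [self_mem_nhdsWithin] with ε hε
  have hε' : (0 : ℝ) < ε := hε
  refine (kn_eq ?_).symm
  rw [Complex.add_re, Complex.ofReal_re]
  linarith

end Pool.Agent.H18.Bes
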