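import Pool.Agent.H18.Bes.StepB

/-!
# The base case: no Möbius relation over the field of rational functions
-/

set_option autoImplicit false
set_option linter.unusedSectionVars false

open Polynomial
open scoped Differential

namespace Pool.Agent.H18.Bes

variable {F : Type*} [Field F] [Differential F] [CharZero F] {E : Subfield F}

/-- `g` is a rational function of `x` of degree at most `n` -/
def Dg (E : Subfield F) (x : F) (n : ℕ) (g : F) : Prop := ∃ N M : F[X], Cf E N ∧ Cf E M ∧ M.eval x ≠ 0 ∧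
  g = N.eval x / M.eval x ∧ N.natDegree ≤ M.natDegree + n

theorem Dg.add {x : F} {n : ℕ} {g g' : F} (h : Dg E x n g) (h' : Dg E x n g') : Dg E x n (g + g') := by
  obtain ⟨N, M, hN, hM, h0, rfl, hd⟩ := h
  obtain ⟨N', M', hN', hM', h0', rfl, hd'⟩ := h'
  have hMne : M ≠ 0 := fun h => h0 (by rw [h, eval_zero])
  have hMne' : M' ≠ 0 := fun h => h0' (by rw [h, eval_zero])
  refine ⟨N * M' + N' * M, M * M', (hN.mul hM').add (hN'.mul hM), hM.mul hM', ?_, ?_, ?_⟩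
  · rw [eval_mul]; exact mul_ne_zero h0 h0'
  · simp only [eval_add, eval_mul]; field_simp
  · rw [natDegree_mul hMne hMne']
    refine (natDegree_add_le _ _).trans (max_le ?_ ?_)
    · exact natDegree_mul_le.trans (by omega)
    · exact natDegree_mul_le.trans (by omega)

theorem Dg.mul {x : F} {n n' : ℕ} {g g' : F} (h : Dg E x n g) (h' : Dg E x n' g') : Dg E x (n + n') (g * g') := by
  obtain ⟨N, M, hN, hM, h0, rfl, hd⟩ := h
  obtain ⟨N', M', hN', hM', h0', rfl, hd'⟩ := h'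
  have hMne : M ≠ 0 := fun h => h0 (by rw [h, eval_zero])
  have hMne' : M' ≠ 0 := fun h => h0' (by rw [h, eval_zero])
  refine ⟨N * N', M * M', hN.mul hN', hM.mul hM', ?_, ?_, ?_⟩
  · rw [eval_mul]; exact mul_ne_zero h0 h0'
  · simp only [eval_mul]; field_simp
  · rw [natDegree_mul hMne hMne']
    exact natDegree_mul_le.trans (by omega)

theorem Dg.const {x : F} {g : F} (hg : g ∈ E) : Dg E x 0 g :=
  ⟨C g, 1, Cf.C hg, Cf.one, by simp, by simp, by simp⟩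

theorem Dg.mono {x : F} {n n' : ℕ} {g : F} (h : Dg E x n g) (hn : n ≤ n') : Dg E x n' g := by
  obtain ⟨N, M, hN, hM, h0, rfl, hd⟩ := h
  exact ⟨N, M, hN, hM, h0, rfl, by omega⟩

theorem Dg.sq (x : F) : Dg E x 2 (x ^ 2) := ⟨X ^ 2, 1, Cf.X.pow 2, Cf.one, by simp, by simp, by simp⟩

theorem Dg.divsq {x g : F} (hx : x ≠ 0) (h : Dg E x 2 g) : Dg E x 0 (g / x ^ 2) := by
  obtain ⟨N, M, hN, hM, h0, rfl, hd⟩ := h
  have hMne : M ≠ 0 := fun h => h0 (by rw [h, eval_zero])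
  refine ⟨N, M * X ^ 2, hN, hM.mul (Cf.X.pow 2), ?_, ?_, ?_⟩
  · rw [eval_mul, eval_pow, eval_X]; exact mul_ne_zero h0 (pow_ne_zero 2 hx)
  · rw [eval_mul, eval_pow, eval_X]; field_simp
  · rw [natDegree_mul hMne (pow_ne_zero 2 X_ne_zero), natDegree_X_pow]; omega

theorem Dg.deriv (hE : St E) {x : F} (hx : x′ = x) {n : ℕ} {g : F} (h : Dg E x n g) : Dg E x n g′ := by
  obtain ⟨N, M, hN, hM, h0, rfl, hd⟩ := h
  have hMne : M ≠ 0 := fun h => h0 (by rw [h, eval_zero])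
  have hv : Cf E (C 1 * X : F[X]) := (Cf.C E.one_mem).mul Cf.X
  have hx' : x′ = (C 1 * X : F[X]).eval x := by simpa using hx
  refine ⟨DP (C 1 * X) N * M - N * DP (C 1 * X) M, M ^ 2, ((hN.dp hE hv).mul hM).sub (hN.mul (hM.dp hE hv)), hM.pow 2,
    ?_, ?_, ?_⟩
  · rw [eval_pow]; exact pow_ne_zero 2 h0
  · rw [rep_deriv hx' h0, eval_pow]
  · rw [natDegree_pow]
    refine (natDegree_sub_le _ _).trans (max_le ?_ ?_)
    · have := natDegree_DP_X 1 N
      exact natDegree_mul_le.trans (by omega)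
    · have := natDegree_DP_X 1 M
      exact natDegree_mul_le.trans (by omega)

theorem Dg.logDeriv (hE : St E) {x : F} (hx : x′ = x) {g : F} (hg : g ∈ Ad E x) (hg0 : g ≠ 0) :
    Dg E x 0 (g′ / g) := by
  obtain ⟨N, M, hN, hM, h0, rfl⟩ := exists_rep hg
  have hN0 : N.eval x ≠ 0 := fun h => hg0 (by rw [h, zero_div])
  have hMne : M ≠ 0 := fun h => h0 (by rw [h, eval_zero])
  have hNne : N ≠ 0 := fun h => hN0 (by rw [h, eval_zero])
  have hv : Cf E (C 1 * X : F[X]) := (Cf.C E.one_mem).mul Cf.X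
  have hx' : x′ = (C 1 * X : F[X]).eval x := by simpa using hx
  refine ⟨DP (C 1 * X) N * M - N * DP (C 1 * X) M, N * M, ((hN.dp hE hv).mul hM).sub (hN.mul (hM.dp hE hv)),
    hN.mul hM, ?_, ?_, ?_⟩
  · rw [eval_mul]; exact mul_ne_zero hN0 h0
  · rw [rep_deriv hx' h0, eval_mul]; field_simp
  · rw [natDegree_mul hNne hMne]
    refine (natDegree_sub_le _ _).trans (max_le ?_ ?_)
    · have := natDegree_DP_X 1 N
      exact natDegree_mul_le.trans (by omega)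
    · have := natDegree_DP_X 1 M
      exact natDegree_mul_le.trans (by omega)

theorem not_dg {x : F} (hT : Tr E x) : ¬ Dg E x 0 (x ^ 2) := by
  rintro ⟨N, M, hN, hM, h0, h, hd⟩
  have hMne : M ≠ 0 := fun h => h0 (by rw [h, eval_zero])
  have h1 : N - X ^ 2 * M = 0 := by
    refine hT _ (hN.sub ((Cf.X.pow 2).mul hM)) ?_
    rw [eq_div_iff h0] at h
    rw [eval_sub, eval_mul, eval_pow, eval_X, ← h, sub_self]
  rw [sub_eq_zero.1 h1, natDegree_mul (pow_ne_zero 2 X_ne_zero) hMne, natDegree_X_pow] at hd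
  omega

/-- **no Möbius relation** -/
theorem pair_not (hc : ∀ a ∈ E, a′ = 0) {x ρ1 ρ2 w1 w2 : F} (hx : x′ = x) (hx0 : x ≠ 0) (hT : Tr E x) (h1 : ρ1 ∈ E)
    (h2 : ρ2 ∈ E) (hne : ρ1 ≠ ρ2) (hw1 : w1′ = 4 * ρ1 * x ^ 2 - w1 ^ 2) (hw2 : w2′ = 4 * ρ2 * x ^ 2 - w2 ^ 2)
    (hN : NoInt w1) (n1 : w1 ∉ Ad E x) (n2 : w2 ∉ Ad E x) : w2 ∉ Ad (Ad E x) w1 := by
  intro hmem
  have hE : St E := fun a ha => by rw [hc a ha]; exact E.zero_mem
  have hx' : x′ = (X : F[X]).eval x := by rw [eval_X]; exact hx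
  have hEx : St (Ad E x) := hE.Ad Cf.X hx'
  have m4 : (4 : F) ∈ E := by exact_mod_cast natCast_mem E 4
  have m2 : (2 : F) ∈ E := by exact_mod_cast natCast_mem E 2
  have hle := le_Ad E x
  have hxm := self_mem_Ad E x
  have hq : ∀ ρ ∈ E, 4 * ρ * x ^ 2 ∈ Ad E x := fun ρ hρ =>
    (Ad E x).mul_mem ((Ad E x).mul_mem (hle m4) (hle hρ)) ((Ad E x).pow_mem hxm 2)
  have hqne : 4 * ρ1 * x ^ 2 ≠ 4 * ρ2 * x ^ 2 := by
    intro h
    apply hne
    have h3 : (4 : F) * x ^ 2 ≠ 0 := mul_ne_zero (by norm_num) (pow_ne_zero 2 hx0)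
    have h4 : (4 : F) * x ^ 2 * (ρ1 - ρ2) = 0 := by linear_combination h
    exact sub_eq_zero.1 ((mul_eq_zero.1 h4).resolve_left h3)
  obtain ⟨b, hb, c, hcE, h, hh, hc0, h0, hbch⟩ := moebius hw1 hN hEx (hq _ h1) n1 hw2 (hq _ h2) hqne hmem n2
  obtain ⟨ob, oh, oc⟩ := moebius_ode (tr_of_notMem hw1 hN hEx (hq _ h1) n1) hEx hw1 (hq _ h1) hw2 (hq _ h2) hb hcE hh hc0
    h0 hbch
  have hqd : ∀ ρ ∈ E, (4 * ρ * x ^ 2)′ = 2 * (4 * ρ * x ^ 2) := by
    intro ρ hρ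
    have h5 : (4 * ρ : F)′ = 0 := hc _ (E.mul_mem m4 hρ)
    rw [Derivation.leibniz, h5, smul_zero, add_zero, Derivation.leibniz_pow, hx, smul_eq_mul, smul_eq_mul, nsmul_eq_mul]
    push_cast
    ring
  set Q := 4 * ρ1 * x ^ 2 + 4 * ρ2 * x ^ 2 with hQ
  obtain ⟨s, hs⟩ : ∃ s, s = b + h := ⟨_, rfl⟩
  obtain ⟨d, hd⟩ : ∃ d, d = b - h := ⟨_, rfl⟩
  have two0 : (2 : F)′ = 0 := hc _ m2
  have es : s = -(c′ / c) / 2 := by rw [oc, hs]; field_simp
  have s1 : s′ = Q - (s ^ 2 + d ^ 2) / 2 - 2 * c := by rw [hs, map_add, ob, oh, hQ, hd]; ring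
  have d1 : d′ = 4 * ρ2 * x ^ 2 - 4 * ρ1 * x ^ 2 - s * d := by rw [hd, map_sub, ob, oh, hs]; ring
  have s2 : s′′ = 2 * Q - s * s′ - d * d′ + 4 * s * c := by
    have h5 : Q′ = 2 * Q := by rw [hQ, map_add, hqd _ h1, hqd _ h2]; ring
    have h6 : (s ^ 2 + d ^ 2)′ = 2 * (s * s′ + d * d′) := by
      rw [map_add, Derivation.leibniz_pow, Derivation.leibniz_pow]
      simp only [smul_eq_mul, nsmul_eq_mul]
      push_cast
      ring
    have h7 : ((s ^ 2 + d ^ 2) / 2)′ = s * s′ + d * d′ := by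
      rw [Derivation.leibniz_div, two0, smul_zero, sub_zero, h6, smul_eq_mul, smul_eq_mul]
      field_simp
    have h8 : (2 * c)′ = -(4 * s * c) := by
      rw [Derivation.leibniz, two0, smul_zero, add_zero, oc, ← hs, smul_eq_mul]
      ring
    calc s′′ = (Q - (s ^ 2 + d ^ 2) / 2 - 2 * c)′ := by rw [← s1]
      _ = _ := by rw [map_sub, map_sub, h5, h7, h8]; ring
  have key : d * (4 * (ρ2 - ρ1) * x ^ 2) = 2 * Q - 3 * s * s′ - s′′ + 2 * s * Q - s ^ 3 := by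
    have h5 : 4 * c = 2 * Q - s ^ 2 - d ^ 2 - 2 * s′ := by rw [s1]; ring
    rw [s2, d1]
    linear_combination s * h5
  -- degrees
  have gs : Dg E x 0 s := by
    have h5 := Dg.logDeriv hE hx hcE hc0
    have h6 : s = (-1 / 2) * (c′ / c) := by rw [es]; ring
    rw [h6]
    exact (Dg.const (E.div_mem (E.neg_mem E.one_mem) m2)).mul h5
  have gs1 := gs.deriv hE hx
  have gs2 := gs1.deriv hE hx
  have gQ : Dg E x 2 Q := by
    have h5 : Q = (4 * (ρ1 + ρ2)) * x ^ 2 := by rw [hQ]; ring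
    rw [h5]
    exact ((Dg.const (E.mul_mem m4 (E.add_mem h1 h2))).mul (Dg.sq x)).mono (by norm_num)
  have gK : Dg E x 2 (2 * Q - 3 * s * s′ - s′′ + 2 * s * Q - s ^ 3) := by
    have h5 : 2 * Q - 3 * s * s′ - s′′ + 2 * s * Q - s ^ 3 =
        2 * Q + (-3) * (s * s′) + (-1) * s′′ + 2 * (s * Q) + (-1) * (s * (s * s)) := by ring
    have k : ∀ n : ℤ, Dg E x 0 (n : F) := fun n => Dg.const (intCast_mem E n)
    have k2 : Dg E x 0 (2 : F) := by simpa using k 2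
    have k3 : Dg E x 0 (-3 : F) := by simpa using k (-3)
    have k1 : Dg E x 0 (-1 : F) := by simpa using k (-1)
    rw [h5]
    exact (((((k2.mul gQ).mono (by norm_num)).add ((k3.mul (gs.mul gs1)).mono (by norm_num))).add
      ((k1.mul gs2).mono (by norm_num))).add ((k2.mul (gs.mul gQ)).mono (by norm_num))).add
      ((k1.mul (gs.mul (gs.mul gs))).mono (by norm_num))
  have hδ : (4 * (ρ2 - ρ1) : F) ≠ 0 := mul_ne_zero (by norm_num) (sub_ne_zero.2 (Ne.symm hne))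
  have hδE : (4 * (ρ2 - ρ1) : F) ∈ E := E.mul_mem m4 (E.sub_mem h2 h1)
  have gd : Dg E x 0 d := by
    have h5 : d = (4 * (ρ2 - ρ1))⁻¹ * ((2 * Q - 3 * s * s′ - s′′ + 2 * s * Q - s ^ 3) / x ^ 2) := by
      rw [← key]
      field_simp
    rw [h5]
    exact (Dg.const (E.inv_mem hδE)).mul (gK.divsq hx0)
  have gD : Dg E x 0 (x ^ 2) := by
    have h5 : x ^ 2 = (4 * (ρ2 - ρ1))⁻¹ * (d′ + s * d) := by
      rw [d1]
      field_simp
      ring
    rw [h5]
    exact (Dg.const (E.inv_mem hδE)).mul ((gd.deriv hE hx).add (gs.mul gd))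
  exact not_dg hT gD

end Pool.Agent.H18.Bes
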