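import Pool.Agent.H18.Bes.Moe

/-!
# Partial derivatives and the descent
-/

set_option autoImplicit false
set_option linter.unusedSectionVars false

open Polynomial
open scoped Differential

namespace Pool.Agent.H18.Bes

variable {F : Type*} [Field F] [Differential F] [CharZero F] {E : Subfield F}

/-- the differential equations of the coefficients of a Möbius relation -/
theorem moebius_ode {w q w2 q2 b c h : F} (hT : Tr E w) (hE : St E) (hw : w′ = q - w ^ 2) (hq : q ∈ E)
    (hw2 : w2′ = q2 - w2 ^ 2) (hq2 : q2 ∈ E) (hb : b ∈ E) (hc : c ∈ E) (hh : h ∈ E) (hc0 : c ≠ 0) (h0 : w - h ≠ 0)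
    (h2 : w2 = b + c / (w - h)) :
    b′ = q2 - b ^ 2 - c ∧ h′ = q - h ^ 2 - c ∧ c′ = -2 * (b + h) * c := by
  have e1 : (w2 - b) * (w - h) = c := by rw [h2]; field_simp; ring
  have e2 := congrArg (fun z => z′) e1
  simp only [Derivation.leibniz, map_sub, smul_eq_mul, hw, hw2] at e2
  have e3 : w2 * (w - h) = b * w + (c - b * h) := by linear_combination e1
  have hb' := hE _ hb
  have hc' := hE _ hc
  have hh' := hE _ hh
  have m2 : (2 : F) ∈ E := by exact_mod_cast natCast_mem E 2
  obtain ⟨a2, a1, a0⟩ := hT.quad (a := q2 - b′ - b ^ 2 - c)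
    (b := -2 * h * (q2 - b′) - 2 * b * (c - b * h) - c′)
    (c := (q2 - b′) * h ^ 2 - (c - b * h) ^ 2 + c * (q - h′) + c′ * h)
    (E.sub_mem (E.sub_mem (E.sub_mem hq2 hb') (E.pow_mem hb 2)) hc)
    (E.sub_mem (E.sub_mem (E.mul_mem (E.mul_mem (E.neg_mem m2) hh) (E.sub_mem hq2 hb'))
      (E.mul_mem (E.mul_mem m2 hb) (E.sub_mem hc (E.mul_mem hb hh)))) hc')
    (E.add_mem (E.add_mem (E.sub_mem (E.mul_mem (E.sub_mem hq2 hb') (E.pow_mem hh 2))
      (E.pow_mem (E.sub_mem hc (E.mul_mem hb hh)) 2)) (E.mul_mem hc (E.sub_mem hq hh'))) (E.mul_mem hc' hh))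
    (by
      generalize b′ = b' at *
      generalize c′ = c' at *
      generalize h′ = h' at *
      linear_combination (w - h) * e2 - (q - w ^ 2 - h') * e1 +
        (w2 * (w - h) + (b * w + (c - b * h))) * e3)
  have hb1 : b′ = q2 - b ^ 2 - c := by linear_combination -a2
  have hc1 : c′ = -2 * (b + h) * c := by linear_combination -a1 - 2 * h * a2
  refine ⟨hb1, ?_, hc1⟩
  have h3 : c * (h′ - (q - h ^ 2 - c)) = 0 := by
    rw [hb1, hc1] at a0
    linear_combination -a0
  linear_combination (mul_eq_zero.1 h3).resolve_left hc0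

/-- the partial derivative of `g ∈ E(x)` with respect to `x` is `d` -/
def PD (E : Subfield F) (x g d : F) : Prop := ∃ N M : F[X], Cf E N ∧ Cf E M ∧ M.eval x ≠ 0 ∧ g = N.eval x / M.eval x ∧
  d = (derivative N * M - N * derivative M).eval x / (M.eval x) ^ 2

theorem PD.exists {x g : F} (hg : g ∈ Ad E x) : ∃ d, PD E x g d := by
  obtain ⟨N, M, hN, hM, h0, h⟩ := exists_rep hg
  exact ⟨_, N, M, hN, hM, h0, h, rfl⟩

theorem PD.mem {x g d : F} (h : PD E x g d) : d ∈ Ad E x := by
  obtain ⟨N, M, hN, hM, h0, -, rfl⟩ := h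
  exact (Ad E x).div_mem (((hN.derivative.mul hM).sub (hN.mul hM.derivative)).eval_mem (le_Ad E x) (self_mem_Ad E x))
    ((Ad E x).pow_mem (hM.eval_mem (le_Ad E x) (self_mem_Ad E x)) 2)

theorem PD.unique {x g d d' : F} (hT : Tr E x) (h : PD E x g d) (h' : PD E x g d') : d = d' := by
  obtain ⟨N, M, hN, hM, h0, hg, rfl⟩ := h
  obtain ⟨N', M', hN', hM', h0', hg', rfl⟩ := h'
  have h1 : N * M' - N' * M = 0 := by
    refine hT _ ((hN.mul hM').sub (hN'.mul hM)) ?_
    rw [hg, div_eq_div_iff h0 h0'] at hg'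
    rw [eval_sub, eval_mul, eval_mul, hg', sub_self]
  have h2 := congrArg (eval x ∘ derivative) h1
  have h3 := congrArg (eval x) h1
  simp only [Function.comp, derivative_sub, derivative_mul, derivative_zero, eval_zero, eval_sub, eval_add, eval_mul] at h2 h3
  rw [div_eq_div_iff (pow_ne_zero 2 h0) (pow_ne_zero 2 h0')]
  simp only [eval_sub, eval_mul]
  generalize eval x N = n at *
  generalize eval x M = m at *
  generalize eval x N' = n' at *
  generalize eval x M' = m' at *
  generalize eval x (derivative N) = a at *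
  generalize eval x (derivative M) = b at *
  generalize eval x (derivative N') = a' at *
  generalize eval x (derivative M') = b' at *
  linear_combination (m * m') * h2 - (b * m' + m * b') * h3

theorem PD.const {x g : F} (hg : g ∈ E) : PD E x g 0 :=
  ⟨C g, 1, Cf.C hg, Cf.one, by simp, by simp, by simp⟩

theorem PD.self {x : F} : PD E x x 1 := ⟨X, 1, Cf.X, Cf.one, by simp, by simp, by simp⟩

theorem PD.add {x g g' d d' : F} (h : PD E x g d) (h' : PD E x g' d') : PD E x (g + g') (d + d') := by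
  obtain ⟨N, M, hN, hM, h0, rfl, rfl⟩ := h
  obtain ⟨N', M', hN', hM', h0', rfl, rfl⟩ := h'
  refine ⟨N * M' + N' * M, M * M', (hN.mul hM').add (hN'.mul hM), hM.mul hM', ?_, ?_, ?_⟩
  · rw [eval_mul]; exact mul_ne_zero h0 h0'
  · simp only [eval_add, eval_mul]; field_simp
  · simp only [derivative_add, derivative_mul, eval_add, eval_mul, eval_sub]
    field_simp
    ring

theorem PD.mul {x g g' d d' : F} (h : PD E x g d) (h' : PD E x g' d') : PD E x (g * g') (d * g' + g * d') := by
  obtain ⟨N, M, hN, hM, h0, rfl, rfl⟩ := h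
  obtain ⟨N', M', hN', hM', h0', rfl, rfl⟩ := h'
  refine ⟨N * N', M * M', hN.mul hN', hM.mul hM', ?_, ?_, ?_⟩
  · rw [eval_mul]; exact mul_ne_zero h0 h0'
  · simp only [eval_mul]; field_simp
  · simp only [derivative_mul, eval_add, eval_mul, eval_sub]
    field_simp
    ring

theorem PD.cmul {x g d a : F} (ha : a ∈ E) (h : PD E x g d) : PD E x (a * g) (a * d) := by
  have := (PD.const (x := x) ha).mul h
  rwa [zero_mul, zero_add] at this

theorem PD.neg {x g d : F} (h : PD E x g d) : PD E x (-g) (-d) := by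
  have := PD.cmul (E.neg_mem E.one_mem) h
  rwa [neg_one_mul, neg_one_mul] at this

theorem PD.sub {x g g' d d' : F} (h : PD E x g d) (h' : PD E x g' d') : PD E x (g - g') (d - d') := by
  rw [sub_eq_add_neg, sub_eq_add_neg]; exact h.add h'.neg

/-- the commutator of the two derivations -/
theorem PD.deriv {x g d : F} {v : F[X]} (hE : St E) (hv : Cf E v) (hx : x′ = v.eval x) (h : PD E x g d) :
    PD E x g′ (d′ + (derivative v).eval x * d) := by
  obtain ⟨N, M, hN, hM, h0, rfl, rfl⟩ := h
  have hDN := hN.dp hE hv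
  have hDM := hM.dp hE hv
  refine ⟨DP v N * M - N * DP v M, M ^ 2, (hDN.mul hM).sub (hN.mul hDM), hM.pow 2, ?_, ?_, ?_⟩
  · rw [eval_pow]; exact pow_ne_zero 2 h0
  · rw [rep_deriv hx h0, eval_pow]
  · have h1 : M.eval x ^ 2 = (M ^ 2).eval x := by rw [eval_pow]
    have h0' : (M ^ 2).eval x ≠ 0 := by rw [eval_pow]; exact pow_ne_zero 2 h0
    rw [h1, rep_deriv hx h0']
    have hcN := congrArg (eval x) (DP_derivative v N)
    have hcM := congrArg (eval x) (DP_derivative v M)
    have hl : DP v (derivative N * M - N * derivative M) = DP v (derivative N) * M +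
        derivative N * DP v M - (DP v N * derivative M + N * DP v (derivative M)) := by
      rw [map_sub, Derivation.leibniz, Derivation.leibniz]
      simp only [smul_eq_mul]
      ring
    have hp : DP v (M ^ 2) = 2 * M * DP v M := by
      rw [Derivation.leibniz_pow]
      simp only [smul_eq_mul, nsmul_eq_mul]
      norm_num
      ring
    rw [hl, hp]
    simp only [derivative_sub, derivative_mul, derivative_pow, eval_add, eval_mul, eval_sub, eval_pow, eval_ofNat,
      Nat.cast_ofNat, C_ofNat] at hcN hcM ⊢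
    rw [hcN, hcM]
    generalize eval x (DP v N) = dn
    generalize eval x (DP v M) = dm
    generalize eval x (DP v (derivative N)) = dn1
    generalize eval x (DP v (derivative M)) = dm1
    generalize eval x N = n at *
    generalize eval x M = m at *
    generalize eval x (derivative N) = a at *
    generalize eval x (derivative M) = b at *
    generalize eval x (derivative v) = l at *
    field_simp
    ring

/-- an element with partial derivative zero is in the subfield -/
theorem PD.zero {x g : F} (hT : Tr E x) (h : PD E x g 0) (hg : g ∈ Ad E x) : g ∈ E := by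
  obtain ⟨N, M, hN, hM, hcop, h0, hNM⟩ := exists_coprime_rep hg
  have h1 := PD.unique hT h ⟨N, M, hN, hM, h0, hNM, rfl⟩
  have hMne : M ≠ 0 := fun h => h0 (by rw [h, eval_zero])
  have h2 : derivative N * M - N * derivative M = 0 := by
    refine hT _ ((hN.derivative.mul hM).sub (hN.mul hM.derivative)) ?_
    rcases div_eq_zero_iff.1 h1.symm with h | h
    · exact h
    · exact absurd ((pow_eq_zero_iff two_ne_zero).1 h) h0
  have h3 : M ∣ derivative M :=
    hcop.symm.dvd_of_dvd_mul_left ⟨derivative N, by linear_combination -h2⟩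
  have h4 : derivative M = 0 := by
    rcases Nat.eq_zero_or_pos M.natDegree with h0 | h0
    · obtain ⟨c, hc⟩ := natDegree_eq_zero.1 h0
      rw [← hc, derivative_C]
    · exact eq_zero_of_dvd_of_natDegree_lt h3 (natDegree_derivative_lt (by omega))
  have h5 : derivative N = 0 := by
    rw [h4, mul_zero, sub_zero] at h2
    exact (mul_eq_zero.1 h2).resolve_right hMne
  rw [hNM, eq_C_of_natDegree_eq_zero (derivative_eq_zero.1 h4), eq_C_of_natDegree_eq_zero (derivative_eq_zero.1 h5),
    eval_C, eval_C]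
  exact E.div_mem (hN _) (hM _)

/-- **the descent**: a Möbius relation over `E(w1)` has coefficients in `E` -/
theorem descent {w1 q1 w q w2 q2 : F} (hE : St E) (hw1 : w1′ = q1 - w1 ^ 2) (hN1 : NoInt w1) (hq1 : q1 ∈ E)
    (hw1E : w1 ∉ E) (hw : w′ = q - w ^ 2) (hN : NoInt w) (hq : q ∈ E) (hwE : w ∉ Ad E w1)
    (hw2 : w2′ = q2 - w2 ^ 2) (hq2 : q2 ∈ E) (hne : q ≠ q2) (h2 : w2 ∈ Ad (Ad E w1) w) (h2E : w2 ∉ Ad E w1) :
    w2 ∈ Ad E w := by
  have hle := le_Ad E w1
  have hE1 : St (Ad E w1) := hE.ric hw1 hq1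
  have hT1 := tr_of_notMem hw1 hN1 hE hq1 hw1E
  have hT := tr_of_notMem hw hN hE1 (hle hq) hwE
  have hw1' : w1′ = (ric q1).eval w1 := by rw [ric_eval, hw1]
  obtain ⟨b, hb, c, hc, h, hh, hc0, h0, hbch⟩ := moebius hw hN hE1 (hle hq) hwE hw2 (hle hq2) hne h2 h2E
  obtain ⟨ob, oh, oc⟩ := moebius_ode hT hE1 hw (hle hq) hw2 (hle hq2) hb hc hh hc0 h0 hbch
  obtain ⟨b1, pb⟩ := PD.exists hb
  obtain ⟨c1, pc⟩ := PD.exists hc
  obtain ⟨h1, ph⟩ := PD.exists hh
  have m2 : (2 : F) ∈ E := by exact_mod_cast natCast_mem E 2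
  have hd : (derivative (ric q1)).eval w1 = -2 * w1 := by rw [derivative_ric]; simp
  have kb : b1′ + -2 * w1 * b1 = -2 * b * b1 - c1 := by
    have e1 := PD.deriv hE (Cf.ric hq1) hw1' pb
    rw [ob, hd, sq] at e1
    have e2 := ((PD.const (x := w1) hq2).sub (pb.mul pb)).sub pc
    have := PD.unique hT1 e1 e2
    linear_combination this
  have kh : h1′ + -2 * w1 * h1 = -2 * h * h1 - c1 := by
    have e1 := PD.deriv hE (Cf.ric hq1) hw1' ph
    rw [oh, hd, sq] at e1
    have e2 := ((PD.const (x := w1) hq).sub (ph.mul ph)).sub pc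
    have := PD.unique hT1 e1 e2
    linear_combination this
  have kc : c1′ + -2 * w1 * c1 = -2 * (b1 + h1) * c - 2 * (b + h) * c1 := by
    have e1 := PD.deriv hE (Cf.ric hq1) hw1' pc
    rw [oc, hd, mul_assoc] at e1
    have e2 := PD.cmul (E.neg_mem m2) ((pb.add ph).mul pc)
    have := PD.unique hT1 e1 e2
    linear_combination this
  -- the polynomial
  set V : F[X] := C b1 * (X - C h) ^ 2 + C c1 * (X - C h) + C (c * h1) with hV
  have hVE : Cf (Ad E w1) V := (((Cf.C pb.mem).mul ((Cf.X.sub (Cf.C hh)).pow 2)).add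
    ((Cf.C pc.mem).mul (Cf.X.sub (Cf.C hh)))).add (Cf.C ((Ad E w1).mul_mem hc ph.mem))
  have hDV : DP (ric q) V = V * (2 * (C (w1 - b - h) - X)) := by
    have x1 : DP (ric q) (X - C h) = C c - (X - C h) * (X + C h) := by
      rw [map_sub, DP_X, DP_C, oh]
      simp only [ric, C_sub, C_pow]
      ring
    have x2 : DP (ric q) V = C b1′ * (X - C h) ^ 2 + C b1 * (2 * (X - C h) * DP (ric q) (X - C h)) +
        (C c1′ * (X - C h) + C c1 * DP (ric q) (X - C h)) + C (c′ * h1 + c * h1′) := by
      rw [hV, map_add, map_add, Derivation.leibniz, Derivation.leibniz, Derivation.leibniz_pow, DP_C, DP_C, DP_C,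
        Derivation.leibniz]
      simp only [smul_eq_mul, nsmul_eq_mul]
      norm_num
      ring
    have y1 : b1′ = 2 * w1 * b1 - 2 * b * b1 - c1 := by linear_combination kb
    have y2 : h1′ = 2 * w1 * h1 - 2 * h * h1 - c1 := by linear_combination kh
    have y3 : c1′ = 2 * w1 * c1 - 2 * (b1 + h1) * c - 2 * (b + h) * c1 := by linear_combination kc
    rw [x2, x1, y1, y2, y3, oc, hV]
    simp only [C_sub, C_add, C_mul, C_neg, C_ofNat]
    ring
  have hV0 : V = 0 := by
    by_contra hV0
    have h3 := darboux_sub hw hN hwE hVE hV0 ⟨_, hDV⟩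
    obtain ⟨v0, hv0⟩ := natDegree_eq_zero.1 h3
    rw [← hv0, DP_C] at hDV
    obtain ⟨-, h6, -⟩ := quadr (a := (0 : F)) (b := 2 * v0) (c := v0′ - v0 * 2 * (w1 - b - h)) (by
      rw [hv0.symm.trans rfl] at hV0
      simp only [C_sub, C_mul, C_0, C_ofNat, zero_mul, zero_add]
      rw [hDV]
      simp only [C_sub]
      ring)
    apply hV0
    rw [← hv0, (mul_eq_zero.1 h6).resolve_left two_ne_zero, C_0]
  have hexp : V = C b1 * X ^ 2 + C (c1 - 2 * b1 * h) * X + C (b1 * h ^ 2 - c1 * h + c * h1) := by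
    rw [hV]
    simp only [C_sub, C_add, C_mul, C_pow, C_ofNat]
    ring
  obtain ⟨i2, i1, i0⟩ := quadr (hexp.symm.trans hV0)
  rw [i2] at i1 i0
  have i1' : c1 = 0 := by linear_combination i1
  rw [i1'] at i0
  have i0' : h1 = 0 := by
    have h3 : c * h1 = 0 := by linear_combination i0
    exact (mul_eq_zero.1 h3).resolve_left hc0
  rw [i2] at pb
  rw [i1'] at pc
  rw [i0'] at ph
  have jb := pb.zero hT1 hb
  have jc := pc.zero hT1 hc
  have jh := ph.zero hT1 hh
  rw [hbch]
  have hl := le_Ad E w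
  exact (Ad E w).add_mem (hl jb) ((Ad E w).div_mem (hl jc) ((Ad E w).sub_mem (self_mem_Ad E w) (hl jh)))

end Pool.Agent.H18.Bes
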