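import Pool.Agent.H18.Bes.Alg

/-!
# The arithmetic conditions for the Bessel functions
-/

set_option autoImplicit false
set_option linter.unusedSectionVars false

open PowerSeries

namespace Pool.Agent.H18.Bes

open Pool.Agent.N902.EW

section

variable {K : Type*} [Field K] [CharZero K] {φ : K →+* ℂ}

theorem ck_th (m : ℕ) (f : K⟦X⟧) : ck m (th f) = m * ck m f := by
  rw [ck, coeff_th, ck]; ring

theorem EFK_th {f : K⟦X⟧} (hf : EFK φ f) : EFK φ (th f) := by
  obtain ⟨C, hC, h1, d1⟩ := hf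
  refine ⟨2 * C, by linarith, fun m => ?_, fun m => ?_⟩
  · rw [ck_th, map_mul, map_natCast, norm_mul, Complex.norm_natCast, mul_pow]
    refine mul_le_mul ?_ (h1 m) (norm_nonneg _) (by positivity)
    exact_mod_cast (Nat.lt_two_pow_self (n := m)).le.trans (Nat.pow_le_pow_right (by norm_num) (Nat.le_succ m))
  · obtain ⟨e, he, heC, hei⟩ := d1 m
    refine ⟨e, he, heC.trans (pow_le_pow_left₀ (by linarith) (by linarith) _), fun j hj => ?_⟩
    rw [ck_th]
    have : (e : K) * ((j : K) * ck j f) = (j : K) * ((e : K) * ck j f) := by ring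
    rw [this]
    exact (isIntegral_natCast _).mul (hei j hj)

theorem ck_fs_even (ρ : K) (k : ℕ) : ck (2 * k) (fs ρ) = (Nat.centralBinom k : K) * ρ ^ k := by
  rw [ck, coeff_fs_even]
  have h1 : ((2 * k).factorial : K) = (Nat.centralBinom k : K) * (k.factorial : K) ^ 2 := by
    have := Nat.choose_mul_factorial_mul_factorial (show k ≤ 2 * k by omega)
    rw [show 2 * k - k = k by omega] at this
    rw [← this, Nat.centralBinom]
    push_cast
    ring
  have h2 : (k.factorial : K) ≠ 0 := by exact_mod_cast k.factorial_ne_zero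
  rw [h1]
  field_simp

theorem ck_fs_odd (ρ : K) (k : ℕ) : ck (2 * k + 1) (fs ρ) = 0 := by
  rw [ck, coeff_fs_odd, mul_zero]

theorem ck_Ss_even (ρ : K) (k : ℕ) : ck (2 * k) (Ss ρ) = hn K k * ((Nat.centralBinom k : K) * ρ ^ k) := by
  rw [← ck_fs_even, ck, ck, coeff_fs_even, coeff_Ss_even]
  ring

theorem ck_Ss_odd (ρ : K) (k : ℕ) : ck (2 * k + 1) (Ss ρ) = 0 := by
  rw [ck, coeff_Ss_odd, mul_zero]

theorem centralBinom_le (k : ℕ) : (Nat.centralBinom k : ℝ) ≤ 2 ^ (2 * k) := by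
  have h : Nat.centralBinom k ≤ 2 ^ (2 * k) := Nat.choose_le_two_pow (2 * k) k
  exact_mod_cast h

variable (φ) in
theorem norm_hn (k : ℕ) : ‖φ (hn K k)‖ ≤ k := by
  rw [hn, map_sum]
  refine (norm_sum_le _ _).trans ?_
  have h1 : ∀ j ∈ Finset.range k, ‖φ (1 / ((j : K) + 1))‖ ≤ 1 := by
    intro j _
    rw [map_div₀, map_one, map_add, map_natCast, map_one, norm_div, norm_one]
    have h2 : ((j : ℂ) + 1) = ((j + 1 : ℕ) : ℂ) := by push_cast; rfl
    rw [h2, Complex.norm_natCast]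
    have h3 : (1 : ℝ) ≤ ((j + 1 : ℕ) : ℝ) := by exact_mod_cast Nat.succ_le_succ (Nat.zero_le j)
    rw [div_le_one (by linarith)]
    exact h3
  refine (Finset.sum_le_sum h1).trans ?_
  simp

theorem integral_hn {k m : ℕ} (hk : k ≤ m) : IsIntegral ℤ ((Nat.lcmUpto m : K) * hn K k) := by
  rw [hn, Finset.mul_sum]
  refine IsIntegral.sum _ fun j hj => ?_
  have hj' := Finset.mem_range.1 hj
  obtain ⟨c, hc⟩ : j + 1 ∣ Nat.lcmUpto m := Finset.dvd_lcm (f := id) (Finset.mem_Icc.2 ⟨by omega, by omega⟩)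
  have h3 : ((j : K) + 1) ≠ 0 := by exact_mod_cast Nat.succ_ne_zero j
  have : (Nat.lcmUpto m : K) * (1 / ((j : K) + 1)) = (c : K) := by
    rw [hc]
    push_cast
    field_simp
  rw [this]
  exact isIntegral_natCast _

theorem EFK_fs [Algebra.IsAlgebraic ℚ K] (ρ : K) : EFK φ (fs ρ) := by
  obtain ⟨d, hd, hi⟩ := exists_nat_integral ρ
  set C : ℝ := max (max 1 ‖φ ρ‖) d with hC
  have hC1 : 1 ≤ C := (le_max_left _ _).trans (le_max_left _ _)
  have hCa : ‖φ ρ‖ ≤ C := (le_max_right _ _).trans (le_max_left _ _)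
  have hCd : (d : ℝ) ≤ C := le_max_right _ _
  refine ⟨2 * C, by linarith, fun m => ?_, fun m => ⟨d ^ m, by positivity, ?_, fun j hj => ?_⟩⟩
  · rcases Nat.even_or_odd' m with ⟨k, rfl | rfl⟩
    · rw [ck_fs_even, map_mul, map_pow, map_natCast, norm_mul, norm_pow, Complex.norm_natCast, mul_pow]
      refine mul_le_mul ((centralBinom_le k).trans (pow_le_pow_right₀ (by norm_num) (Nat.le_succ _))) ?_ (by positivity)
        (by positivity)
      exact (pow_le_pow_left₀ (norm_nonneg _) hCa k).trans (pow_le_pow_right₀ hC1 (by omega))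
    · rw [ck_fs_odd, map_zero, norm_zero]; positivity
  · push_cast
    exact (pow_le_pow_left₀ (by positivity) (hCd.trans (by linarith)) m).trans
      (pow_le_pow_right₀ (by linarith) (Nat.le_succ m))
  · rcases Nat.even_or_odd' j with ⟨k, rfl | rfl⟩
    · rw [ck_fs_even]
      have : ((d ^ m : ℕ) : K) * ((Nat.centralBinom k : K) * ρ ^ k) =
          ((Nat.centralBinom k * d ^ (m - k) : ℕ) : K) * ((d : K) * ρ) ^ k := by
        push_cast
        rw [mul_pow]
        have h5 : (d : K) ^ m = (d : K) ^ (m - k) * (d : K) ^ k := by rw [← pow_add]; congr 1; omega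
        rw [h5]
        ring
      rw [this]
      exact (isIntegral_natCast _).mul (hi.pow k)
    · rw [ck_fs_odd, mul_zero]; exact isIntegral_zero

theorem EFK_Ss [Algebra.IsAlgebraic ℚ K] (ρ : K) : EFK φ (Ss ρ) := by
  obtain ⟨C, hC, h1, d1⟩ := EFK_fs (φ := φ) ρ
  refine ⟨2 ^ 8 * C, by linarith, fun m => ?_, fun m => ?_⟩
  · rcases Nat.even_or_odd' m with ⟨k, rfl | rfl⟩
    · rw [ck_Ss_even, ← ck_fs_even, map_mul, norm_mul, mul_pow]
      refine mul_le_mul ((norm_hn φ k).trans ?_) (h1 _) (norm_nonneg _) (by positivity)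
      have h2 : (k : ℝ) ≤ 2 ^ k := by exact_mod_cast (Nat.lt_two_pow_self (n := k)).le
      have h3 : (2 : ℝ) ^ k ≤ (2 ^ 8) ^ k := pow_le_pow_left₀ (by norm_num) (by norm_num) k
      exact h2.trans (h3.trans (pow_le_pow_right₀ (by norm_num) (by omega)))
    · rw [ck_Ss_odd, map_zero, norm_zero]; positivity
  · obtain ⟨e, he, heC, hei⟩ := d1 m
    refine ⟨Nat.lcmUpto m * e, Nat.mul_pos (Nat.lcmUpto_pos m) he, ?_, fun j hj => ?_⟩
    · push_cast
      rw [mul_pow]
      refine mul_le_mul ((Pool.Agent.R352.E.lcm_bound m).trans ?_) heC (by positivity) (by positivity)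
      exact pow_le_pow_right₀ (by norm_num) (Nat.le_succ m)
    · rcases Nat.even_or_odd' j with ⟨k, rfl | rfl⟩
      · rw [ck_Ss_even, ← ck_fs_even]
        have : ((Nat.lcmUpto m * e : ℕ) : K) * (hn K k * ck (2 * k) (fs ρ)) =
            ((Nat.lcmUpto m : K) * hn K k) * ((e : K) * ck (2 * k) (fs ρ)) := by push_cast; ring
        rw [this]
        exact (integral_hn (by omega)).mul (hei _ hj)
      · rw [ck_Ss_odd, mul_zero]; exact isIntegral_zero

theorem EFK_Gs [Algebra.IsAlgebraic ℚ K] {ρ : K} {f : K⟦X⟧} (hf : f ∈ Gs ρ) : EFK φ f := by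
  rcases hf with rfl | rfl | rfl | rfl
  · exact EFK_fs ρ
  · exact EFK_th (EFK_fs ρ)
  · exact EFK_Ss ρ
  · exact EFK_th (EFK_Ss ρ)

theorem EFK_BA [Algebra.IsAlgebraic ℚ K] {f : K⟦X⟧} (hf : f ∈ BA K) : EFK φ f := by
  refine BA_ind (p := fun f => EFK φ f) (fun f hf => EFK.of_mem hf) (fun ρ f hf => EFK_Gs hf) ?_ ?_ hf
  · intro f g _ _ h h'; exact h.add h'
  · intro f g _ _ h h'; exact h.mul h'

variable (φ) in
/-- the evaluation at `1` as a ring homomorphism on the algebra -/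
noncomputable def evB [Algebra.IsAlgebraic ℚ K] : BA K →+* ℂ where
  toFun f := evk φ f.1
  map_one' := evk_one
  map_zero' := evk_zero
  map_mul' f g := evk_mul (EFK_BA f.2) (EFK_BA g.2)
  map_add' f g := evk_add (EFK_BA f.2) (EFK_BA g.2)

end

/-! ### Change of the field -/

section

variable {K L : Type*} [Field K] [CharZero K] [Field L] [CharZero L] (φ : K →+* L)

theorem map_hn (k : ℕ) : φ (hn K k) = hn L k := by
  rw [hn, hn, map_sum]
  refine Finset.sum_congr rfl fun j _ => ?_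
  rw [map_div₀, map_one, map_add, map_natCast, map_one]

theorem map_fs (ρ : K) : PowerSeries.map φ (fs ρ) = fs (φ ρ) := by
  ext n
  rw [coeff_map, fs, fs, coeff_mk, coeff_mk]
  split_ifs
  · rw [map_div₀, map_pow, map_pow, map_natCast]
  · rw [map_zero]

theorem map_Ss (ρ : K) : PowerSeries.map φ (Ss ρ) = Ss (φ ρ) := by
  ext n
  rw [coeff_map, Ss, Ss, coeff_mk, coeff_mk]
  split_ifs
  · rw [map_mul, map_div₀, map_pow, map_pow, map_natCast, map_hn]
  · rw [map_zero]

theorem map_Gs {ρ : K} {f : K⟦X⟧} (hf : f ∈ Gs ρ) : PowerSeries.map φ f ∈ Gs (φ ρ) := by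
  rcases hf with rfl | rfl | rfl | rfl
  · exact Or.inl (map_fs φ ρ)
  · have h : PowerSeries.map φ (Js ρ) = Js (φ ρ) := by rw [Js, map_th, map_fs, Js]
    exact Or.inr (Or.inl h)
  · exact Or.inr (Or.inr (Or.inl (map_Ss φ ρ)))
  · have h : PowerSeries.map φ (Rs ρ) = Rs (φ ρ) := by rw [Rs, map_th, map_Ss, Rs]
    exact Or.inr (Or.inr (Or.inr h))

theorem map_BA {f : K⟦X⟧} (hf : f ∈ BA K) : PowerSeries.map φ f ∈ BA L := by
  refine BA_ind (p := fun f => PowerSeries.map φ f ∈ BA L) (fun f hf => SA_le_BA (map_SA φ hf))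
    (fun ρ f hf => Gs_le_BA ⟨φ ρ.1, by rw [map_ne_zero]; exact ρ.2⟩ (map_Gs φ hf)) ?_ ?_ hf
  · intro f g _ _ h h'; rw [map_add]; exact (BA L).add_mem h h'
  · intro f g _ _ h h'; rw [map_mul]; exact (BA L).mul_mem h h'

end

end Pool.Agent.H18.Bes
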