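import Pool.Agent.H18.Bes.Ana2

/-!
# The counting theorem with the Bessel numbers, for names
-/

set_option autoImplicit false
set_option linter.unusedSectionVars false

open Filter Topology Set MeasureTheory

namespace Pool.Agent.H18.Bes

open Pool.Agent.N902.EW Pool.Agent.R352.E

/-- `K_0(z)` for `0 ≤ re z`, `z ≠ 0` -/
noncomputable def K0 (z : ℂ) : ℂ := limUnder (𝓝[>] (0 : ℝ)) fun ε : ℝ =>
  ∫ t in Ioi (0 : ℝ), Complex.exp (-(z + ε) * Real.cosh t)

theorem K0_eq {z : ℂ} (hz : 0 ≤ z.re) (h0 : z ≠ 0) : K0 z = ks z := by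
  have h1 : (fun ε : ℝ => ∫ t in Ioi (0 : ℝ), Complex.exp (-(z + ε) * Real.cosh t)) = fun ε : ℝ => kn 0 (z + ε) := by
    funext ε
    rw [kn]
    refine integral_congr_ae (Eventually.of_forall fun t => ?_)
    show _ = kf 0 (z + ε) t
    rw [kf, pow_zero, one_mul]
  rw [K0, h1]
  exact (kn_tendsto hz h0).limUnder_eq

theorem ka_eq {z : ℂ} (hz : 0 ≤ z.re) (h0 : z ≠ 0) (ha : IsAlgebraic ℚ z) :
    ka z = K0 z / I0 z + (Complex.log (z / 2) + Real.eulerMascheroniConstant) := by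
  rw [K0_eq hz h0, ks, ka]
  have := I0_ne ha
  field_simp
  ring

variable {τ : Type} [Fintype τ]

/-- the counting theorem for a finite type of given numbers -/
theorem count_B' (L : ℕ) (P : Set ℝ) (hP : ∀ x ∈ P, 0 < x ∧ IsAlgebraic ℚ x) (X : Set ℂ)
    (hX : ∀ x ∈ X, IsAlgebraic ℚ x ∧ ∀ y ∈ X, x + y ≠ 0) {Z : Set ℂ} (hZ : Pts Z) (kb : ℂ → ℂ) (y : τ → ℂ)
    (hL : ∀ k, 2 ≤ k → k ≤ L → riemannZeta k ∈ clf BB (range y))
    (hG : ∀ x ∈ P, ((Real.eulerMascheroniConstant + Real.log x : ℝ) : ℂ) ∈ clf BB (range y))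
    (hK : ∀ z ∈ Z, ka z - kb z ∈ clf BB (range y)) :
    {n : τ ⊕ ({z // z ∈ Z} ⊕ Ix L P X) | Sum.elim (fun j => IsAlgebraic BB (y j))
      (fun i => IsAlgebraic BB (Sum.elim (fun z : {z // z ∈ Z} => kb z) nu i)) n}.encard ≤ (Fintype.card τ : ℕ∞) := by
  let e := Fintype.equivFin τ
  have hr : range (y ∘ e.symm) = range y := e.symm.surjective.range_comp y
  have h := count_B L P hP X hX hZ kb (y ∘ e.symm) (by rwa [hr]) (by rwa [hr]) (by rwa [hr])
  refine le_trans ?_ h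
  refine le_trans (encard_le_encard ?_) (encard_image_le (Sum.map e.symm id) _)
  rintro (i | i) hi
  · refine ⟨Sum.inl (e i), ?_, by simp⟩
    show IsAlgebraic BB (y (e.symm (e i)))
    rw [Equiv.symm_apply_apply]
    exact hi
  · exact ⟨Sum.inr i, hi, rfl⟩

theorem trdeg_B' (L : ℕ) (P : Set ℝ) (hP : ∀ x ∈ P, 0 < x ∧ IsAlgebraic ℚ x) (X : Set ℂ)
    (hX : ∀ x ∈ X, IsAlgebraic ℚ x ∧ ∀ y ∈ X, x + y ≠ 0) {Z : Set ℂ} (hZ : Pts Z) (kb : ℂ → ℂ) (y : τ → ℂ)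
    (hL : ∀ k, 2 ≤ k → k ≤ L → riemannZeta k ∈ clf BB (range y))
    (hG : ∀ x ∈ P, ((Real.eulerMascheroniConstant + Real.log x : ℝ) : ℂ) ∈ clf BB (range y))
    (hK : ∀ z ∈ Z, ka z - kb z ∈ clf BB (range y)) (A : Finset ({z // z ∈ Z} ⊕ Ix L P X)) :
    (A.card : Cardinal) ≤ Algebra.trdeg BB (IntermediateField.adjoin BB
      (range y ∪ Sum.elim (fun z : {z // z ∈ Z} => kb z) nu '' (A : Set ({z // z ∈ Z} ⊕ Ix L P X)))) := by
  let e := Fintype.equivFin τ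
  have hr : range (y ∘ e.symm) = range y := e.symm.surjective.range_comp y
  have h := trdeg_B L P hP X hX hZ kb (y ∘ e.symm) (by rwa [hr]) (by rwa [hr]) (by rwa [hr]) A
  rwa [hr] at h

theorem mem_T_of_zeta {T : Set ℂ} {c : ℕ} (h3 : riemannZeta 3 ∈ clf BB T) (h4 : riemannZeta 3 / (Real.pi : ℂ) ^ 3 ∈ clf BB T)
    (h5 : ∀ i : Fin c, riemannZeta ((2 * i + 5 : ℕ) : ℂ) ∈ clf BB T) (k : ℕ) (hk : 2 ≤ k) (hk' : k ≤ 2 * c + 4) :
    riemannZeta k ∈ clf BB T := by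
  have hz : riemannZeta 3 ≠ 0 := by
    refine riemannZeta_ne_zero_of_one_lt_re ?_
    norm_num
  have hpi0 : (Real.pi : ℂ) ≠ 0 := by exact_mod_cast Real.pi_ne_zero
  have hpi : (Real.pi : ℂ) ∈ clf BB T := by
    refine clf_pow (F := BB) (n := 3) (by norm_num) ?_
    have h5 : (Real.pi : ℂ) ^ 3 = riemannZeta 3 / (riemannZeta 3 / (Real.pi : ℂ) ^ 3) := by
      field_simp
    rw [h5]
    exact (clf BB _).div_mem h3 h4
  rcases Nat.even_or_odd' k with ⟨j, rfl | rfl⟩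
  · have h6 := riemannZeta_two_mul_nat (k := j) (by omega)
    push_cast at h6 ⊢
    rw [h6]
    refine (clf BB _).div_mem ((clf BB _).mul_mem ((clf BB _).mul_mem ((clf BB _).mul_mem ?_ ?_) ?_) ?_) ?_
    · exact (clf BB _).pow_mem ((clf BB _).neg_mem (clf BB _).one_mem) _
    · exact (clf BB _).pow_mem (ofNat_mem _ _) _
    · exact (clf BB _).pow_mem hpi _
    · exact E0_le_clf (SubfieldClass.ratCast_mem BB _)
    · exact natCast_mem (clf BB _) _
  · rcases Nat.lt_or_ge j 2 with hj | hj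
    · have : j = 1 := by omega
      subst this
      norm_num
      exact h3
    · have h7 := h5 (⟨j - 2, by omega⟩ : Fin c)
      have h8 : 2 * (j - 2) + 5 = 2 * j + 1 := by omega
      simp only [h8] at h7
      exact h7

end Pool.Agent.H18.Bes
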