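import Pool.Agent.H18.Bes.LS
import Pool.Agent.H18.L.N902.EW.Fn

/-!
# The Bessel functions as power series
-/

set_option autoImplicit false
set_option linter.unusedSectionVars false

open scoped Differential

namespace Pool.Agent.H18.Bes

open Pool.Agent.N902.EW

section series

open PowerSeries

variable {K : Type*} [Field K] [CharZero K]

/-- `∑ ρ^k X^(2k) / k!^2` -/
noncomputable def fs (ρ : K) : K⟦X⟧ := PowerSeries.mk fun n => if Even n then ρ ^ (n / 2) / ((n / 2).factorial : K) ^ 2 else 0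

/-- harmonic numbers -/
noncomputable def hn (K : Type*) [Field K] (k : ℕ) : K := ∑ j ∈ Finset.range k, 1 / ((j : K) + 1)

/-- `∑ H_k ρ^k X^(2k) / k!^2` -/
noncomputable def Ss (ρ : K) : K⟦X⟧ :=
  PowerSeries.mk fun n => if Even n then hn K (n / 2) * (ρ ^ (n / 2) / ((n / 2).factorial : K) ^ 2) else 0

/-- `X d/dX` of `fs` -/
noncomputable def Js (ρ : K) : K⟦X⟧ := th (fs ρ)

/-- `X d/dX` of `Ss` -/
noncomputable def Rs (ρ : K) : K⟦X⟧ := th (Ss ρ)

theorem coeff_fs_odd (ρ : K) (k : ℕ) : coeff (2 * k + 1) (fs ρ) = 0 := by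
  rw [fs, coeff_mk, if_neg (by simp [parity_simps])]

theorem coeff_fs_even (ρ : K) (k : ℕ) : coeff (2 * k) (fs ρ) = ρ ^ k / (k.factorial : K) ^ 2 := by
  rw [fs, coeff_mk, if_pos (even_two_mul k), Nat.mul_div_cancel_left k (by norm_num)]

theorem coeff_Ss_odd (ρ : K) (k : ℕ) : coeff (2 * k + 1) (Ss ρ) = 0 := by
  rw [Ss, coeff_mk, if_neg (by simp [parity_simps])]

theorem coeff_Ss_even (ρ : K) (k : ℕ) : coeff (2 * k) (Ss ρ) = hn K k * (ρ ^ k / (k.factorial : K) ^ 2) := by
  rw [Ss, coeff_mk, if_pos (even_two_mul k), Nat.mul_div_cancel_left k (by norm_num)]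

theorem coeff_sq_mul (a : K) (g : K⟦X⟧) (n : ℕ) : coeff (n + 2) (a • (X ^ 2 * g)) = a * coeff n g := by
  rw [coeff_smul, smul_eq_mul, coeff_X_pow_mul]

theorem coeff_sq_mul_zero (a : K) (g : K⟦X⟧) : coeff 0 (a • (X ^ 2 * g)) = 0 := by
  rw [coeff_smul, coeff_X_pow_mul']; simp

theorem coeff_sq_mul_one (a : K) (g : K⟦X⟧) : coeff 1 (a • (X ^ 2 * g)) = 0 := by
  rw [coeff_smul, coeff_X_pow_mul']; simp

theorem th_Js (ρ : K) : th (Js ρ) = (4 * ρ) • (X ^ 2 * fs ρ) := by
  ext n
  rw [coeff_th, Js, coeff_th]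
  rcases n with _ | _ | n
  · rw [coeff_sq_mul_zero]; simp
  · rw [show 0 + 1 = 1 from rfl, coeff_sq_mul_one, show 1 = 2 * 0 + 1 from rfl, coeff_fs_odd]; simp
  · rw [show n + 1 + 1 = n + 2 from rfl, coeff_sq_mul]
    rcases Nat.even_or_odd' n with ⟨k, rfl | rfl⟩
    · rw [show 2 * k + 2 = 2 * (k + 1) by ring, coeff_fs_even, coeff_fs_even, Nat.factorial_succ]
      have h1 : (k.factorial : K) ≠ 0 := by exact_mod_cast k.factorial_ne_zero
      have h2 : ((k : K) + 1) ≠ 0 := by exact_mod_cast Nat.succ_ne_zero k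
      push_cast
      field_simp
      ring
    · rw [show 2 * k + 1 + 2 = 2 * (k + 1) + 1 by ring, coeff_fs_odd, coeff_fs_odd]; simp

theorem th_Rs (ρ : K) : th (Rs ρ) = (4 * ρ) • (X ^ 2 * Ss ρ) + (2 : K) • Js ρ := by
  ext n
  have e : coeff n ((2 : K) • Js ρ) = 2 * (n * coeff n (fs ρ)) := by rw [coeff_smul, Js, coeff_th, smul_eq_mul]
  rw [coeff_th, Rs, coeff_th, map_add, e]
  rcases n with _ | _ | n
  · rw [coeff_sq_mul_zero]; simp
  · have h1 : coeff 1 (fs ρ) = 0 := coeff_fs_odd ρ 0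
    have h2 : coeff 1 (Ss ρ) = 0 := coeff_Ss_odd ρ 0
    rw [show 0 + 1 = 1 from rfl, coeff_sq_mul_one, h1, h2]; simp
  · rw [show n + 1 + 1 = n + 2 from rfl, coeff_sq_mul]
    rcases Nat.even_or_odd' n with ⟨k, rfl | rfl⟩
    · rw [show 2 * k + 2 = 2 * (k + 1) by ring, coeff_fs_even, coeff_Ss_even, coeff_Ss_even, Nat.factorial_succ]
      have h0 : hn K (k + 1) = hn K k + 1 / ((k : K) + 1) := by rw [hn, hn, Finset.sum_range_succ]
      rw [h0]
      have h1 : (k.factorial : K) ≠ 0 := by exact_mod_cast k.factorial_ne_zero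
      have h2 : ((k : K) + 1) ≠ 0 := by exact_mod_cast Nat.succ_ne_zero k
      push_cast
      field_simp
      ring
    · rw [show 2 * k + 1 + 2 = 2 * (k + 1) + 1 by ring, coeff_Ss_odd, coeff_Ss_odd, coeff_fs_odd]; simp

theorem coeff_zero_fs (ρ : K) : coeff 0 (fs ρ) = 1 := by
  have := coeff_fs_even ρ 0
  simpa using this

theorem coeff_zero_th (g : K⟦X⟧) : coeff 0 (th g) = 0 := by rw [coeff_th]; simp

end series

variable {K : Type*} [Field K] [CharZero K]

/-- the variable -/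
noncomputable def xx : LF K := ps PowerSeries.X

/-- the constants -/
noncomputable def cc : K →+* LF K := (ps (K := K)).comp PowerSeries.C

/-- the field of constants -/
noncomputable def Ec (K : Type*) [Field K] [CharZero K] : Subfield (LF K) := (cc (K := K)).fieldRange

theorem cc_mem (c : K) : cc c ∈ Ec K := ⟨c, rfl⟩

theorem ps_smul (c : K) (g : PowerSeries K) : ps (c • g) = cc c * ps g := by
  rw [PowerSeries.smul_eq_C_mul, map_mul]; rfl

theorem ps_th (g : PowerSeries K) : (ps g)′ = ps (th g) := ps_deriv fun n => coeff_th g n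

theorem deriv_cc (c : K) : (cc c)′ = 0 := deriv_C c

theorem xx_ne : (xx : LF K) ≠ 0 := by
  intro h
  exact PowerSeries.X_ne_zero (ps_injective (h.trans (map_zero _).symm))

theorem deriv_xx : (xx : LF K)′ = xx := by
  rw [xx, ps_deriv]
  intro n
  rw [PowerSeries.coeff_X]
  split_ifs with h
  · rw [h]; simp
  · simp

theorem st_Ec : St (Ec K) := by
  rintro _ ⟨c, rfl⟩
  rw [deriv_cc]; exact (Ec K).zero_mem

theorem const_mem {a : LF K} (h : a′ = 0) : a ∈ Ec K := by
  obtain ⟨c, rfl⟩ := const_iff h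
  exact cc_mem c

theorem cf_Ec {p : Polynomial (LF K)} : Cf (Ec K) p ↔ ∃ r : Polynomial K, r.map cc = p := by
  constructor
  · intro h
    have : p ∈ Polynomial.lifts (cc (K := K)) := by
      rw [Polynomial.lifts_iff_coeff_lifts]
      intro n
      exact h n
    obtain ⟨r, hr⟩ := (Polynomial.mem_lifts _).1 this
    exact ⟨r, hr⟩
  · rintro ⟨r, rfl⟩ n
    rw [Polynomial.coeff_map]
    exact cc_mem _

theorem eval_xx (r : Polynomial K) : (r.map cc).eval (xx : LF K) = ps (r : PowerSeries K) := by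
  induction r using Polynomial.induction_on' with
  | add p q hp hq => rw [Polynomial.map_add, Polynomial.eval_add, hp, hq, Polynomial.coe_add, map_add]
  | monomial n a =>
    rw [← Polynomial.C_mul_X_pow_eq_monomial, Polynomial.coe_mul, Polynomial.coe_C, Polynomial.coe_pow,
      Polynomial.coe_X, Polynomial.map_mul, Polynomial.map_C, Polynomial.map_pow, Polynomial.map_X,
      Polynomial.eval_mul, Polynomial.eval_C, Polynomial.eval_pow, Polynomial.eval_X, map_mul, map_pow]
    rfl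

theorem tr_xx : Tr (Ec K) (xx : LF K) := by
  intro p hp h
  obtain ⟨r, rfl⟩ := cf_Ec.1 hp
  rw [eval_xx] at h
  have h1 : (r : PowerSeries K) = 0 := ps_injective (h.trans (map_zero _).symm)
  have h2 : r = 0 := Polynomial.coe_eq_zero_iff.1 h1
  rw [h2, Polynomial.map_zero]

end Pool.Agent.H18.Bes
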