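import Mathlib

/-!
# Riccati equations over differential fields: Darboux polynomials
-/

set_option autoImplicit false
set_option linter.unusedSectionVars false

open Polynomial
open scoped Differential

namespace Pool.Agent.H18.Bes

variable {F : Type*} [Field F] [Differential F] [CharZero F]

/-- the derivation of the polynomials with `X′ = v` which extends the derivation of the field -/
noncomputable abbrev DP (v : F[X]) : Derivation ℤ F[X] F[X] := Differential.implicitDeriv v

theorem DP_C (v : F[X]) (a : F) : DP v (C a) = C a′ := Differential.implicitDeriv_C v a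

theorem DP_X (v : F[X]) : DP v X = v := Differential.implicitDeriv_X v

theorem DP_eq (v p : F[X]) : DP v p = Differential.mapCoeffs p + v * derivative p := by
  simp [DP, Differential.implicitDeriv]

theorem DP_eval {v : F[X]} {x : F} (hx : x′ = v.eval x) (p : F[X]) : (p.eval x)′ = (DP v p).eval x := by
  have h := Differential.deriv_aeval_eq_implicitDeriv (A := F) (R := F) x v
    (by rw [hx, Polynomial.coe_aeval_eq_eval]) p
  rwa [Polynomial.coe_aeval_eq_eval] at h

/-- the commutator with the formal derivative -/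
theorem DP_derivative (v p : F[X]) : derivative (DP v p) = DP v (derivative p) + derivative v * derivative p := by
  have h : derivative (Differential.mapCoeffs p) = Differential.mapCoeffs (derivative p) := by
    ext n
    rw [coeff_derivative, Differential.coeff_mapCoeffs, Differential.coeff_mapCoeffs, coeff_derivative]
    rw [Derivation.leibniz]
    have h1 : ((n : F) + 1)′ = 0 := by
      have := (Differential.deriv (R := F)).map_natCast (n + 1)
      push_cast at this
      exact this
    rw [h1, smul_zero, zero_add, smul_eq_mul, mul_comm]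
  rw [DP_eq, DP_eq, derivative_add, derivative_mul, h]
  ring

/-- the degree of `DP v p` -/
theorem natDegree_DP_le {v p : F[X]} {m : ℕ} (hv : v.natDegree ≤ m + 1) : (DP v p).natDegree ≤ p.natDegree + m := by
  rw [DP_eq]
  refine (natDegree_add_le _ _).trans (max_le ?_ ?_)
  · refine natDegree_le_iff_coeff_eq_zero.2 fun k hk => ?_
    rw [Differential.coeff_mapCoeffs, coeff_eq_zero_of_natDegree_lt (by omega), map_zero]
  · rcases Nat.eq_zero_or_pos p.natDegree with h0 | h0
    · obtain ⟨c, hc⟩ := natDegree_eq_zero.1 h0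
      rw [← hc, derivative_C, mul_zero]
      simp
    · refine (natDegree_mul_le).trans ?_
      have := natDegree_derivative_lt (p := p) (by omega)
      omega

/-- `f ^ (-2)` is not a derivative, where `f′ = w f` -/
def NoInt (w : F) : Prop := ∃ f : F, f ≠ 0 ∧ f′ = w * f ∧ ∀ g : F, g′ ≠ (f ^ 2)⁻¹

/-- the right hand side of the Riccati equation `x′ = q - x ^ 2` -/
noncomputable abbrev ric (q : F) : F[X] := C q - X ^ 2

theorem ric_eval (q x : F) : (ric q).eval x = q - x ^ 2 := by simp [ric]

theorem derivative_ric (q : F) : derivative (ric q) = -(2 * X) := by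
  rw [ric, derivative_sub, derivative_C, derivative_X_pow, zero_sub]
  norm_num [C_ofNat]

theorem natDegree_ric (q : F) : (ric q).natDegree ≤ 2 := by
  refine (natDegree_sub_le _ _).trans ?_
  simp

/-- the key computation -/
theorem no_darboux {w q : F} (hw : w′ = q - w ^ 2) (hN : NoInt w) {p l : F[X]} (hp : p.Monic) (h : DP (ric q) p = l * p)
    (h0 : p.eval w ≠ 0) : p = 1 := by
  by_contra hne
  have hn : 1 ≤ p.natDegree := by
    by_contra hn
    exact hne (hp.natDegree_eq_zero.1 (by omega))
  obtain ⟨f, hf, hf', hfg⟩ := hN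
  have hw' : w′ = (ric q).eval w := by rw [ric_eval, hw]
  -- the linear factor
  have hdeg : (l * p).natDegree ≤ p.natDegree + 1 := by
    rw [← h]; exact natDegree_DP_le (m := 1) (natDegree_ric q)
  have hl : l.natDegree ≤ 1 := by
    rcases eq_or_ne l 0 with rfl | hl0
    · simp
    · rw [mul_comm, hp.natDegree_mul' hl0] at hdeg
      omega
  have hlc : l.coeff 1 = -(p.natDegree : F) := by
    have h1 : (l * p).coeff (p.natDegree + 1) = l.coeff 1 := by
      rw [add_comm, coeff_mul_add_eq_of_natDegree_le hl le_rfl, hp.coeff_natDegree, mul_one]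
    rw [← h1, ← h, DP_eq, coeff_add, Differential.coeff_mapCoeffs,
      coeff_eq_zero_of_natDegree_lt (Nat.lt_succ_self _), map_zero, zero_add]
    have h2 : (ric q * derivative p).coeff (p.natDegree + 1) = (ric q).coeff 2 * (derivative p).coeff (p.natDegree - 1) := by
      have : p.natDegree + 1 = 2 + (p.natDegree - 1) := by omega
      rw [this, coeff_mul_add_eq_of_natDegree_le (natDegree_ric q) (natDegree_derivative_le p)]
    rw [h2, coeff_derivative]
    have h3 : p.natDegree - 1 + 1 = p.natDegree := by omega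
    rw [h3, hp.coeff_natDegree]
    have h4 : ((p.natDegree - 1 : ℕ) : F) + 1 = p.natDegree := by
      rw [← Nat.cast_succ, Nat.succ_eq_add_one, h3]
    rw [h4]
    simp [ric, coeff_X_pow]
  have hl' : derivative l = -(C (p.natDegree : F)) := by
    rw [eq_X_add_C_of_natDegree_le_one hl, hlc]
    simp
  -- the logarithmic derivatives
  have e1 : (p.eval w)′ = l.eval w * p.eval w := by rw [DP_eval hw', h, eval_mul]
  have e2 : ((derivative p).eval w)′ = (l.eval w + 2 * w) * (derivative p).eval w - p.natDegree * p.eval w := by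
    have h1 := DP_derivative (ric q) p
    rw [h, derivative_mul, hl', derivative_ric] at h1
    rw [DP_eval hw']
    have h2 : DP (ric q) (derivative p) = (l + 2 * X) * derivative p - C (p.natDegree : F) * p := by
      linear_combination -h1
    rw [h2]
    simp
  set e : F := (derivative p).eval w / p.eval w with he
  have e3 : e′ = 2 * w * e - p.natDegree := by
    rw [he, Derivation.leibniz_div, e1, e2]
    simp only [smul_eq_mul]
    field_simp
    ring
  have hn0 : (p.natDegree : F) ≠ 0 := by exact_mod_cast (by omega : p.natDegree ≠ 0)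
  apply hfg (-(e / f ^ 2) / p.natDegree)
  rw [Derivation.leibniz_div, Derivation.map_neg, Derivation.leibniz_div, Derivation.leibniz_pow, hf', e3,
    Derivation.map_natCast]
  simp only [smul_eq_mul, nsmul_eq_mul]
  field_simp
  push_cast
  ring

/-- **Darboux polynomials of the Riccati equation over the big field** -/
theorem darboux {w q : F} (hw : w′ = q - w ^ 2) (hN : NoInt w) {p : F[X]} (hp : p.Monic) (h : p ∣ DP (ric q) p) :
    p = (X - C w) ^ p.natDegree := by
  obtain ⟨l, hl⟩ := h
  obtain ⟨p1, hp1, hnd⟩ := exists_eq_pow_rootMultiplicity_mul_and_not_dvd p hp.ne_zero w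
  set k := p.rootMultiplicity w with hk
  have hm1 : p1.Monic := by
    have h1 : ((X - C w) ^ k : F[X]).Monic := (monic_X_sub_C w).pow k
    exact h1.of_mul_monic_left (hp1 ▸ hp)
  have hD : DP (ric q) ((X - C w) ^ k) = -((k : F[X]) * (X + C w)) * (X - C w) ^ k := by
    rw [Derivation.leibniz_pow, map_sub, DP_X, DP_C, hw]
    rcases Nat.eq_zero_or_pos k with h0 | h0
    · rw [h0]; simp
    · have h1 : (X - C w : F[X]) ^ k = (X - C w) ^ (k - 1) * (X - C w) := by
        rw [← pow_succ]; congr 1; omega
      rw [h1]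
      simp only [smul_eq_mul, nsmul_eq_mul, ric, C_sub, C_pow]
      ring
  have hD1 : DP (ric q) p1 = (l + (k : F[X]) * (X + C w)) * p1 := by
    have h1 : DP (ric q) p = p * l := hl
    rw [hp1, Derivation.leibniz, hD, smul_eq_mul, smul_eq_mul] at h1
    have h2 : ((X - C w) ^ k : F[X]) * DP (ric q) p1 = (X - C w) ^ k * ((l + (k : F[X]) * (X + C w)) * p1) := by
      linear_combination h1
    exact mul_left_cancel₀ ((monic_X_sub_C w).pow k).ne_zero h2
  have h0 : p1.eval w ≠ 0 := fun h0 => hnd (dvd_iff_isRoot.2 h0)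
  have h3 := no_darboux hw hN hm1 hD1 h0
  rw [h3, mul_one] at hp1
  conv_rhs => rw [hp1]
  rw [natDegree_pow, natDegree_X_sub_C, mul_one]
  exact hp1

/-- uniqueness of the solution of the Riccati equation -/
theorem ric_unique {w q u : F} (hw : w′ = q - w ^ 2) (hN : NoInt w) (hu : u′ = q - u ^ 2) : u = w := by
  have h1 : (X - C u : F[X]) ∣ DP (ric q) (X - C u) := by
    refine ⟨-(X + C u), ?_⟩
    rw [map_sub, DP_X, DP_C, hu]
    simp only [ric, C_sub, C_pow]
    ring
  have h2 := darboux hw hN (monic_X_sub_C u) h1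
  rw [natDegree_X_sub_C, pow_one] at h2
  have := congrArg (eval w) h2
  simp only [eval_sub, eval_X, eval_C, sub_self] at this
  exact (sub_eq_zero.1 this).symm

/-! ### Polynomials with coefficients in a subfield -/

/-- the subfield is stable under the derivation -/
def St (E : Subfield F) : Prop := ∀ a ∈ E, a′ ∈ E

/-- the coefficients are in the subfield -/
def Cf (E : Subfield F) (p : F[X]) : Prop := ∀ n, p.coeff n ∈ E

theorem cf_iff {E : Subfield F} {p : F[X]} : Cf E p ↔ ∃ r : E[X], r.map (algebraMap E F) = p := by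
  constructor
  · intro h
    have : p ∈ Polynomial.lifts (algebraMap E F) := by
      rw [lifts_iff_coeff_lifts]
      intro n
      exact ⟨⟨p.coeff n, h n⟩, rfl⟩
    obtain ⟨r, hr⟩ := (mem_lifts _).1 this
    exact ⟨r, hr⟩
  · rintro ⟨r, rfl⟩ n
    rw [coeff_map]
    exact (r.coeff n).2

variable {E : Subfield F}

theorem Cf.add {p r : F[X]} (hp : Cf E p) (hr : Cf E r) : Cf E (p + r) := fun n => by
  rw [coeff_add]; exact E.add_mem (hp n) (hr n)

theorem Cf.sub {p r : F[X]} (hp : Cf E p) (hr : Cf E r) : Cf E (p - r) := fun n => by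
  rw [coeff_sub]; exact E.sub_mem (hp n) (hr n)

theorem Cf.neg {p : F[X]} (hp : Cf E p) : Cf E (-p) := fun n => by
  rw [coeff_neg]; exact E.neg_mem (hp n)

theorem Cf.mul {p r : F[X]} (hp : Cf E p) (hr : Cf E r) : Cf E (p * r) := fun n => by
  rw [coeff_mul]; exact E.sum_mem fun i _ => E.mul_mem (hp _) (hr _)

theorem Cf.zero : Cf E (0 : F[X]) := fun n => by rw [coeff_zero]; exact E.zero_mem

theorem Cf.C {a : F} (ha : a ∈ E) : Cf E (C a) := fun n => by
  rw [coeff_C]; split_ifs
  · exact ha
  · exact E.zero_mem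

theorem Cf.one : Cf E (1 : F[X]) := Cf.C E.one_mem

theorem Cf.X : Cf E (X : F[X]) := fun n => by
  rw [coeff_X]; split_ifs
  · exact E.one_mem
  · exact E.zero_mem

theorem Cf.pow {p : F[X]} (hp : Cf E p) (k : ℕ) : Cf E (p ^ k) := by
  induction k with
  | zero => rw [pow_zero]; exact Cf.one
  | succ k ih => rw [pow_succ]; exact ih.mul hp

theorem Cf.natCast (k : ℕ) : Cf E (k : F[X]) := by
  rw [← C_eq_natCast]; exact Cf.C (natCast_mem E k)

theorem Cf.derivative {p : F[X]} (hp : Cf E p) : Cf E (derivative p) := fun n => by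
  rw [coeff_derivative]
  exact E.mul_mem (hp _) (by exact_mod_cast natCast_mem E (n + 1))

theorem Cf.dp {v p : F[X]} (hp : Cf E p) (hE : St E) (hv : Cf E v) : Cf E (DP v p) := by
  rw [DP_eq]
  refine Cf.add (fun n => ?_) (hv.mul hp.derivative)
  rw [Differential.coeff_mapCoeffs]
  exact hE _ (hp n)

theorem Cf.ric {q : F} (hq : q ∈ E) : Cf E (ric q) := (Cf.C hq).sub (Cf.X.pow 2)

/-- `x` is transcendental over the subfield -/
def Tr (E : Subfield F) (x : F) : Prop := ∀ p : F[X], Cf E p → p.eval x = 0 → p = 0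

theorem not_tr {x : F} (h : ¬ Tr E x) : ∃ p : F[X], Cf E p ∧ p.Monic ∧ p.eval x = 0 ∧
    ∀ r : F[X], Cf E r → r.eval x = 0 → p ∣ r := by
  have halg : IsAlgebraic E x := by
    unfold Tr at h
    push Not at h
    obtain ⟨p, hp, h0, hne⟩ := h
    obtain ⟨r, rfl⟩ := cf_iff.1 hp
    refine ⟨r, fun h => hne (by rw [h, Polynomial.map_zero]), ?_⟩
    rw [← h0, eval_map_algebraMap]
  refine ⟨(minpoly E x).map (algebraMap E F), cf_iff.2 ⟨_, rfl⟩, (minpoly.monic halg.isIntegral).map _, ?_, ?_⟩
  · rw [eval_map_algebraMap, minpoly.aeval]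
  · intro r hr h0
    obtain ⟨r, rfl⟩ := cf_iff.1 hr
    rw [eval_map_algebraMap] at h0
    exact Polynomial.map_dvd _ (minpoly.dvd E x h0)

/-- a Darboux polynomial with coefficients in the subfield -/
theorem darboux_sub {w q : F} (hw : w′ = q - w ^ 2) (hN : NoInt w) (hwE : w ∉ E) {p : F[X]} (hp : Cf E p)
    (hp0 : p ≠ 0) (h : p ∣ DP (ric q) p) : p.natDegree = 0 := by
  by_contra hn
  set a := p.leadingCoeff with ha
  have ha0 : a ≠ 0 := leadingCoeff_ne_zero.2 hp0
  have haE : a ∈ E := hp _
  have hm : (C a⁻¹ * p).Monic := by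
    rw [Monic, leadingCoeff_mul, leadingCoeff_C, inv_mul_cancel₀ ha0]
  have hdv : C a⁻¹ * p ∣ DP (ric q) (C a⁻¹ * p) := by
    obtain ⟨l, hl⟩ := h
    refine ⟨l + C (a * a⁻¹′), ?_⟩
    rw [Derivation.leibniz, DP_C, hl, smul_eq_mul, smul_eq_mul, C_mul]
    have : (C a * C a⁻¹ : F[X]) = 1 := by rw [← C_mul, mul_inv_cancel₀ ha0, C_1]
    linear_combination (-(p * C a⁻¹′)) * this
  have h1 := darboux hw hN hm hdv
  have hd : (C a⁻¹ * p).natDegree = p.natDegree := natDegree_C_mul (inv_ne_zero ha0)
  rw [hd] at h1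
  have h2 : ((X - C w : F[X]) ^ p.natDegree).coeff (p.natDegree - 1) = -(p.natDegree * w) := by
    have h3 : (X - C w : F[X]) = X + C (-w) := by rw [C_neg, sub_eq_add_neg]
    rw [h3, coeff_X_add_C_pow]
    have h4 : p.natDegree - (p.natDegree - 1) = 1 := by omega
    rw [h4, pow_one]
    have h5 : p.natDegree.choose (p.natDegree - 1) = p.natDegree := by
      rw [← Nat.choose_symm (Nat.sub_le _ _), h4, Nat.choose_one_right]
    rw [h5]
    ring
  rw [← h1, coeff_C_mul] at h2
  have h3 : (p.natDegree : F) * w ∈ E := by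
    rw [← neg_neg ((p.natDegree : F) * w), ← h2]
    exact E.neg_mem (E.mul_mem (E.inv_mem haE) (hp _))
  apply hwE
  have h4 : (p.natDegree : F) ≠ 0 := by exact_mod_cast hn
  have h5 : w = (p.natDegree : F)⁻¹ * ((p.natDegree : F) * w) := by field_simp
  rw [h5]
  exact E.mul_mem (E.inv_mem (natCast_mem E _)) h3

/-- a solution of the Riccati equation which is not in the subfield is transcendental over it -/
theorem tr_of_notMem {w q : F} (hw : w′ = q - w ^ 2) (hN : NoInt w) (hE : St E) (hq : q ∈ E) (hwE : w ∉ E) : Tr E w := by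
  by_contra h
  obtain ⟨p, hp, hm, h0, hdv⟩ := not_tr h
  have hw' : w′ = (ric q).eval w := by rw [ric_eval, hw]
  have h1 : (DP (ric q) p).eval w = 0 := by rw [← DP_eval hw', h0, map_zero]
  have h2 := darboux_sub hw hN hwE hp hm.ne_zero (hdv _ (hp.dp hE (Cf.ric hq)) h1)
  rw [hm.natDegree_eq_zero.1 h2, eval_one] at h0
  exact one_ne_zero h0

end Pool.Agent.H18.Bes
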