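import Pool.Agent.H18.Bes.Deg

/-!
# The derivation `X d/dX` of the field of Laurent series
-/

set_option autoImplicit false
set_option linter.unusedSectionVars false

open scoped Differential

namespace Pool.Agent.H18.Bes

variable {K : Type*} [Field K]

/-- the derivation on coefficients -/
noncomputable def tc (a : LaurentSeries K) : LaurentSeries K where
  coeff n := (n : K) * a.coeff n
  isPWO_support' := a.isPWO_support.mono fun n hn h => hn (by simp only [h, mul_zero])

theorem coeff_tc (a : LaurentSeries K) (n : ℤ) : (tc a).coeff n = (n : K) * a.coeff n := rfl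

theorem support_tc (a : LaurentSeries K) : (tc a).support ⊆ a.support := fun n hn h => hn (by
  rw [coeff_tc, h, mul_zero])

theorem tc_add (a b : LaurentSeries K) : tc (a + b) = tc a + tc b := by
  ext n
  rw [HahnSeries.coeff_add, coeff_tc, coeff_tc, coeff_tc, HahnSeries.coeff_add, mul_add]

theorem tc_mul (a b : LaurentSeries K) : tc (a * b) = a * tc b + b * tc a := by
  ext n
  rw [mul_comm b (tc a), HahnSeries.coeff_add, coeff_tc, HahnSeries.coeff_mul,
    HahnSeries.coeff_mul_right' b.isPWO_support (support_tc b),
    HahnSeries.coeff_mul_left' a.isPWO_support (support_tc a), ← Finset.sum_add_distrib, Finset.mul_sum]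
  refine Finset.sum_congr rfl fun p hp => ?_
  have h : p.1 + p.2 = n := (Finset.mem_antidiagonal.1 hp).2.2
  rw [coeff_tc, coeff_tc, ← h]
  push_cast
  ring

/-- the field of Laurent series -/
def LF (K : Type*) [Field K] : Type _ := LaurentSeries K

noncomputable instance instFieldLF : Field (LF K) := inferInstanceAs (Field (LaurentSeries K))

/-- the coefficients -/
def cf (a : LF K) (n : ℤ) : K := HahnSeries.coeff (show LaurentSeries K from a) n

theorem cf_ext {a b : LF K} (h : ∀ n, cf a n = cf b n) : a = b := HahnSeries.ext (funext h)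

theorem cf_zero (n : ℤ) : cf (0 : LF K) n = 0 := HahnSeries.coeff_zero

/-- `X d/dX` on Laurent series -/
noncomputable instance instDiff : Differential (LF K) where
  deriv := Derivation.mk' ((AddMonoidHom.mk' (M := LF K) (G := LF K) tc tc_add).toIntLinearMap) fun a b => by
    exact tc_mul (K := K) a b

theorem cf_deriv (a : LF K) (n : ℤ) : cf (a′) n = (n : K) * cf a n := rfl

/-- the embedding of the power series -/
noncomputable def ps : PowerSeries K →+* LF K := HahnSeries.ofPowerSeries ℤ K

theorem ps_injective : Function.Injective (ps (K := K)) := HahnSeries.ofPowerSeries_injective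

theorem cf_ps (f : PowerSeries K) (n : ℕ) : cf (ps f) (n : ℤ) = PowerSeries.coeff n f :=
  LaurentSeries.coeff_coe_powerSeries f n

theorem cf_ps_neg (f : PowerSeries K) {n : ℤ} (hn : n < 0) : cf (ps f) n = 0 := by
  show HahnSeries.coeff (HahnSeries.ofPowerSeries ℤ K f) n = 0
  rw [HahnSeries.ofPowerSeries_apply, HahnSeries.embDomain_of_notMem_range]
  rintro ⟨k, hk⟩
  have h1 : ((k : ℕ) : ℤ) = n := hk
  omega

/-- compatibility with the derivation of the power series -/
theorem ps_deriv {f g : PowerSeries K} (h : ∀ n, PowerSeries.coeff n g = n * PowerSeries.coeff n f) : (ps f)′ = ps g := by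
  refine cf_ext fun n => ?_
  rw [cf_deriv]
  rcases lt_or_ge n 0 with hn | hn
  · rw [cf_ps_neg f hn, cf_ps_neg g hn, mul_zero]
  · obtain ⟨m, rfl⟩ := Int.eq_ofNat_of_zero_le hn
    rw [cf_ps, cf_ps, h]
    simp

theorem cf_zero_deriv (a : LF K) : cf (a′) 0 = 0 := by rw [cf_deriv]; simp

instance instCharZeroLF [CharZero K] : CharZero (LF K) :=
  charZero_of_injective_ringHom (f := (ps (K := K)).comp (PowerSeries.C))
    (ps_injective.comp PowerSeries.C_injective)

/-- the constants -/
theorem const_iff [CharZero K] {a : LF K} (h : a′ = 0) : ∃ c : K, a = ps (PowerSeries.C c) := by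
  refine ⟨cf a 0, ?_⟩
  refine cf_ext fun n => ?_
  have h1 := congrArg (fun z : LF K => cf z n) h
  simp only [cf_deriv, cf_zero] at h1
  rcases eq_or_ne n 0 with rfl | hn
  · have := cf_ps (PowerSeries.C (cf a 0)) 0
    rw [Nat.cast_zero] at this
    rw [this]
    simp
  · have h2 : cf a n = 0 := (mul_eq_zero.1 h1).resolve_left (by exact_mod_cast hn)
    rw [h2]
    rcases lt_or_ge n 0 with hn' | hn'
    · rw [cf_ps_neg _ hn']
    · obtain ⟨m, rfl⟩ := Int.eq_ofNat_of_zero_le hn'
      have hm : m ≠ 0 := by rintro rfl; exact hn rfl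
      rw [cf_ps, PowerSeries.coeff_C, if_neg hm]

theorem deriv_C (c : K) : (ps (PowerSeries.C c))′ = 0 := by
  rw [ps_deriv (g := 0), map_zero]
  intro n
  rw [PowerSeries.coeff_C]
  split_ifs with h
  · rw [h]; simp
  · simp

end Pool.Agent.H18.Bes
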