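import Pool.Agent.H18.Bes.Rat

/-!
# Solutions of one Riccati equation which are rational functions of a solution of another one
-/

set_option autoImplicit false
set_option linter.unusedSectionVars false

open Polynomial
open scoped Differential

namespace Pool.Agent.H18.Bes

variable {F : Type*} [Field F] [Differential F] [CharZero F] {E : Subfield F}

theorem natDegree_le_one_of {p : F[X]} (h : derivative (derivative p) = 0) : p.natDegree ≤ 1 := by
  have h1 := derivative_eq_zero.1 h
  by_contra hn
  have h2 : (derivative p).coeff (p.natDegree - 1) ≠ 0 := by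
    rw [coeff_derivative]
    have h3 : p.natDegree - 1 + 1 = p.natDegree := by omega
    rw [h3]
    have h4 : ((p.natDegree - 1 : ℕ) : F) + 1 = p.natDegree := by
      rw [← Nat.cast_succ, Nat.succ_eq_add_one, h3]
    rw [h4]
    have h5 : (p.natDegree : F) ≠ 0 := by exact_mod_cast (by omega : p.natDegree ≠ 0)
    have h6 : p.leadingCoeff ≠ 0 := leadingCoeff_ne_zero.2 (by rintro rfl; simp at hn)
    exact mul_ne_zero h6 h5
  exact h2 (coeff_eq_zero_of_natDegree_lt (by omega))

theorem dd_zero {M : F[X]} (h : M ∣ derivative (derivative M)) : derivative (derivative M) = 0 := by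
  rcases Nat.eq_zero_or_pos M.natDegree with h0 | h0
  · obtain ⟨c, hc⟩ := natDegree_eq_zero.1 h0
    rw [← hc, derivative_C, derivative_zero]
  · refine eq_zero_of_dvd_of_natDegree_lt h ?_
    have h1 : (derivative M).natDegree < M.natDegree := natDegree_derivative_lt (by omega)
    have h2 : (derivative (derivative M)).natDegree ≤ (derivative M).natDegree - 1 := natDegree_derivative_le _
    omega

theorem quadr {a b c : F} (h1 : C a * X ^ 2 + C b * X + C c = 0) : a = 0 ∧ b = 0 ∧ c = 0 := by
  refine ⟨?_, ?_, ?_⟩
  · have := congrArg (coeff · 2) h1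
    simpa [coeff_X, coeff_C] using this
  · have := congrArg (coeff · 1) h1
    simpa [coeff_X, coeff_C, coeff_X_pow] using this
  · have := congrArg (coeff · 0) h1
    simpa [coeff_X, coeff_C, coeff_X_pow] using this

/-- a degree two polynomial relation of a transcendental element is trivial -/
theorem Tr.quad {x : F} (hT : Tr E x) {a b c : F} (ha : a ∈ E) (hb : b ∈ E) (hc : c ∈ E)
    (h : a * x ^ 2 + b * x + c = 0) : a = 0 ∧ b = 0 ∧ c = 0 :=
  quadr (hT _ ((((Cf.C ha).mul (Cf.X.pow 2)).add ((Cf.C hb).mul Cf.X)).add (Cf.C hc)) (by simpa using h))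

/-- **the Möbius lemma** -/
theorem moebius {w q w2 q2 : F} (hw : w′ = q - w ^ 2) (hN : NoInt w) (hE : St E) (hq : q ∈ E) (hwE : w ∉ E)
    (hw2 : w2′ = q2 - w2 ^ 2) (hq2 : q2 ∈ E) (hne : q ≠ q2) (h2 : w2 ∈ Ad E w) (h2E : w2 ∉ E) :
    ∃ b ∈ E, ∃ c ∈ E, ∃ h ∈ E, c ≠ 0 ∧ w - h ≠ 0 ∧ w2 = b + c / (w - h) := by
  have hT := tr_of_notMem hw hN hE hq hwE
  have hw' : w′ = (ric q).eval w := by rw [ric_eval, hw]
  obtain ⟨N, M, hNE, hME, hcop, hM0, hNM⟩ := exists_coprime_rep h2
  have hMne : M ≠ 0 := fun h => hM0 (by rw [h, eval_zero])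
  -- the differential equation as an identity of polynomials
  have hpoly : DP (ric q) N * M - N * DP (ric q) M = C q2 * M ^ 2 - N ^ 2 := by
    have h1 : (DP (ric q) N * M - N * DP (ric q) M - (C q2 * M ^ 2 - N ^ 2)).eval w = 0 := by
      have h3 := rep_deriv (N := N) hw' hM0
      rw [← hNM, hw2, hNM] at h3
      rw [eval_sub, eval_sub (p := C q2 * M ^ 2), eval_mul (p := C q2), eval_pow, eval_pow, eval_C]
      field_simp at h3
      linear_combination -h3
    have h3 := hT _ ((((hNE.dp hE (Cf.ric hq)).mul hME).sub (hNE.mul (hME.dp hE (Cf.ric hq)))).sub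
      (((Cf.C hq2).mul (hME.pow 2)).sub (hNE.pow 2))) h1
    exact sub_eq_zero.1 h3
  have hcomN := DP_derivative (ric q) N
  have hcomM := DP_derivative (ric q) M
  have hleib : DP (ric q) (derivative N * M - N * derivative M) = DP (ric q) (derivative N) * M +
      derivative N * DP (ric q) M - (DP (ric q) N * derivative M + N * DP (ric q) (derivative M)) := by
    rw [map_sub, Derivation.leibniz, Derivation.leibniz]
    simp only [smul_eq_mul]
    ring
  have hder := congrArg derivative hpoly
  rw [derivative_sub, derivative_mul, derivative_mul, derivative_sub, derivative_mul, derivative_C,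
    derivative_pow, derivative_pow] at hder
  have hPE : Cf E (derivative N * M - N * derivative M) := (hNE.derivative.mul hME).sub (hNE.mul hME.derivative)
  rw [derivative_ric] at hcomN hcomM
  have hDPm : DP (ric q) M = DP (ric q) M := rfl
  -- `M` divides `D M - N`
  obtain ⟨ν, hν⟩ : M ∣ DP (ric q) M - N := by
    generalize DP (ric q) N = a at hpoly
    generalize DP (ric q) M = b at hpoly ⊢
    exact hcop.symm.dvd_of_dvd_mul_left ⟨a - C q2 * M, by linear_combination -hpoly⟩
  have hPdiv : (derivative N * M - N * derivative M) ∣ DP (ric q) (derivative N * M - N * derivative M) := by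
    rw [hleib]
    generalize DP (ric q) (derivative N) = a1 at *
    generalize DP (ric q) (derivative M) = b1 at *
    generalize derivative (DP (ric q) N) = a2 at *
    generalize derivative (DP (ric q) M) = b2 at *
    generalize DP (ric q) N = a at *
    generalize DP (ric q) M = b at *
    generalize derivative N = n1 at *
    generalize derivative M = m1 at *
    refine ⟨2 * (ν + X), ?_⟩
    apply mul_left_cancel₀ hMne
    subst hcomN hcomM
    have hb : b = N + M * ν := by linear_combination hν
    subst hb
    simp only [Nat.cast_ofNat, C_ofNat, zero_mul, zero_add] at hder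
    linear_combination M * hder - 2 * m1 * hpoly
  by_cases hP0 : derivative N * M - N * derivative M = 0
  · -- the quotient is constant
    exfalso
    have h3 : M ∣ derivative M := by
      refine hcop.symm.dvd_of_dvd_mul_left ⟨derivative N, by linear_combination -hP0⟩
    have h4 : derivative M = 0 := by
      rcases Nat.eq_zero_or_pos M.natDegree with h0 | h0
      · obtain ⟨c, hc⟩ := natDegree_eq_zero.1 h0
        rw [← hc, derivative_C]
      · exact eq_zero_of_dvd_of_natDegree_lt h3 (natDegree_derivative_lt (by omega))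
    have h5 : derivative N = 0 := by
      rw [h4, mul_zero, sub_zero] at hP0
      exact (mul_eq_zero.1 hP0).resolve_right hMne
    apply h2E
    rw [hNM, eq_C_of_natDegree_eq_zero (derivative_eq_zero.1 h4),
      eq_C_of_natDegree_eq_zero (derivative_eq_zero.1 h5), eval_C, eval_C]
    exact E.div_mem (hNE _) (hME _)
  have hPd := darboux_sub hw hN hwE hPE hP0 hPdiv
  have hP' : derivative (derivative N) * M = N * derivative (derivative M) := by
    have h3 : derivative (derivative N * M - N * derivative M) = 0 := by
      obtain ⟨c, hc⟩ := natDegree_eq_zero.1 hPd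
      rw [← hc, derivative_C]
    rw [derivative_sub, derivative_mul, derivative_mul] at h3
    linear_combination h3
  have hM1 : M.natDegree ≤ 1 := natDegree_le_one_of (dd_zero
    (hcop.symm.dvd_of_dvd_mul_left ⟨derivative (derivative N), by linear_combination -hP'⟩))
  have hN1 : N.natDegree ≤ 1 := natDegree_le_one_of (dd_zero
    (hcop.dvd_of_dvd_mul_right ⟨derivative (derivative M), by linear_combination hP'⟩))
  have hNe : N.eval w = N.coeff 1 * w + N.coeff 0 := by
    conv_lhs => rw [eq_X_add_C_of_natDegree_le_one hN1]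
    simp
  have hMe : M.eval w = M.coeff 1 * w + M.coeff 0 := by
    conv_lhs => rw [eq_X_add_C_of_natDegree_le_one hM1]
    simp
  rw [hMe] at hM0
  rw [hNe, hMe] at hNM
  have n0 := hNE 0
  have n1 := hNE 1
  have m0 := hME 0
  have m1 := hME 1
  generalize N.coeff 0 = N0 at *
  generalize N.coeff 1 = N1 at *
  generalize M.coeff 0 = M0 at *
  generalize M.coeff 1 = M1 at *
  clear hpoly hcomN hcomM hleib hder hPE hDPm hν hPdiv hP0 hPd hP' hM1 hN1 hNe hMe hNE hME hcop hMne
  by_cases hγ : M1 = 0
  · -- the affine case
    exfalso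
    rw [hγ, zero_mul, zero_add] at hM0 hNM
    have ha : N1 / M0 ∈ E := E.div_mem n1 m0
    have hb : N0 / M0 ∈ E := E.div_mem n0 m0
    have hab : w2 = N1 / M0 * w + N0 / M0 := by rw [hNM]; field_simp
    generalize N1 / M0 = a at ha hab
    generalize N0 / M0 = b at hb hab
    have h3 : w2′ = a * (q - w ^ 2) + a′ * w + b′ := by
      rw [hab, map_add, Derivation.leibniz, hw, smul_eq_mul, smul_eq_mul]
      ring
    rw [hw2, hab] at h3
    obtain ⟨e2, e1, e0⟩ := hT.quad (a := a - a ^ 2) (b := -(a′ + 2 * a * b)) (c := q2 - b ^ 2 - a * q - b′)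
      (E.sub_mem ha (E.pow_mem ha 2))
      (E.neg_mem (E.add_mem (hE _ ha) (E.mul_mem (E.mul_mem (by exact_mod_cast natCast_mem E 2) ha) hb)))
      (E.sub_mem (E.sub_mem (E.sub_mem hq2 (E.pow_mem hb 2)) (E.mul_mem ha hq)) (hE _ hb))
      (by linear_combination h3)
    have ha0 : a ≠ 0 := by
      rintro rfl
      apply h2E
      rw [hab, zero_mul, zero_add]
      exact hb
    have ha1 : a = 1 := by
      have : a * (1 - a) = 0 := by linear_combination e2
      rcases mul_eq_zero.1 this with h | h
      · exact absurd h ha0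
      · linear_combination -h
    subst ha1
    have hb0 : b = 0 := by
      rw [Derivation.map_one_eq_zero] at e1
      have : (2 : F) ≠ 0 := two_ne_zero
      have h5 : (2 : F) * b = 0 := by linear_combination -e1
      exact (mul_eq_zero.1 h5).resolve_left this
    subst hb0
    rw [map_zero] at e0
    exact hne (by linear_combination -e0)
  · -- the general case
    refine ⟨N1 / M1, E.div_mem n1 m1, (N0 * M1 - N1 * M0) / M1 ^ 2,
      E.div_mem (E.sub_mem (E.mul_mem n0 m1) (E.mul_mem n1 m0)) (E.pow_mem m1 2), -(M0 / M1),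
      E.neg_mem (E.div_mem m0 m1), ?_, ?_, ?_⟩
    · intro h0
      apply h2E
      have h3 : N0 * M1 - N1 * M0 = 0 := by
        rcases div_eq_zero_iff.1 h0 with h | h
        · exact h
        · exact absurd (pow_eq_zero_iff (two_ne_zero)|>.1 h) hγ
      have h4 : w2 = N1 / M1 := by
        rw [hNM, div_eq_div_iff hM0 hγ]
        linear_combination h3
      rw [h4]
      exact E.div_mem n1 m1
    · intro h0
      apply hM0
      have : M1 * (w - -(M0 / M1)) = M1 * w + M0 := by field_simp; ring
      rw [← this, h0, mul_zero]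
    · have h5 : w - -(M0 / M1) = (M1 * w + M0) / M1 := by field_simp; ring
      rw [hNM, h5]
      obtain ⟨D, hD⟩ : ∃ D, D = M1 * w + M0 := ⟨_, rfl⟩
      have hw3 : w = (D - M0) / M1 := by rw [hD]; field_simp; ring
      rw [← hD] at hM0 ⊢
      rw [hw3]
      field_simp
      ring

end Pool.Agent.H18.Bes
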