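import Pool.Agent.H18.Bes.Good
import Pool.Agent.H18.L.N902.EW.Qb

/-!
# The algebra over the field of algebraic numbers: the value at `1` of a nonzero element is not zero
-/

set_option autoImplicit false
set_option linter.unusedSectionVars false

open PowerSeries

namespace Pool.Agent.H18.Bes

open Pool.Agent.N902.EW

/-- the embedding of a subfield -/
noncomputable abbrev psi (M : FiniteGaloisIntermediateField ℚ Qb) : M.toIntermediateField →+* Qb :=
  algebraMap M.toIntermediateField Qb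

theorem desc_gen {K L : Type*} [Field K] [CharZero K] [Field L] [CharZero L] (ψ : K →+* L) (s : Finset (L × List L))
    (c : L × List L → L) (hs : ∀ x ∈ s, Adm x.2) (hc : ∀ x ∈ s, c x ∈ Set.range ψ) (h1 : ∀ x ∈ s, x.1 ∈ Set.range ψ)
    (h2 : ∀ x ∈ s, ∀ a ∈ x.2, a ∈ Set.range ψ) : ∃ g ∈ SA K, PowerSeries.map ψ g = ∑ x ∈ s, c x • bf x := by
  classical
  have hx : ∀ x ∈ s, ∃ (d : K) (y : K × List K), ψ d = c x ∧ mx ψ y = x := by
    intro x hx
    obtain ⟨d, hd⟩ := hc x hx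
    obtain ⟨l, hl⟩ := h1 x hx
    obtain ⟨w, hw⟩ := exists_list ψ x.2 (h2 x hx)
    exact ⟨d, (l, w), hd, Prod.ext hl hw⟩
  choose! d y hd hy using hx
  have hadm : ∀ x ∈ s, Adm (y x).2 := fun x hx => by
    apply adm_of_map ψ
    have := congrArg Prod.snd (hy x hx)
    simp only [mx] at this
    rw [this]
    exact hs x hx
  refine ⟨∑ x ∈ s, d x • bf (y x), Submodule.sum_mem _ fun x hx => Submodule.smul_mem _ _ (bf_mem (hadm x hx)), ?_⟩
  rw [map_sum]
  exact Finset.sum_congr rfl fun x hx => by rw [map_smul', map_bf, hd x hx, hy x hx]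

theorem desc_SA {f : (Qb : Type)⟦X⟧} (hf : f ∈ SA Qb) : ∃ S : Finset Qb, ∀ M : FiniteGaloisIntermediateField ℚ Qb,
    (∀ a ∈ S, a ∈ M.toIntermediateField) → ∃ g ∈ BA M.toIntermediateField, PowerSeries.map (psi M) g = f := by
  classical
  obtain ⟨s, c, hs, hPs⟩ := exists_sum hf
  refine ⟨s.image c ∪ s.image Prod.fst ∪ s.biUnion fun x => x.2.toFinset, fun M hM' => ?_⟩
  set S : Finset Qb := s.image c ∪ s.image Prod.fst ∪ s.biUnion fun x => x.2.toFinset with hS
  have hM : ∀ a ∈ S, a ∈ Set.range (psi M) := fun a ha => ⟨⟨a, hM' a ha⟩, rfl⟩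
  obtain ⟨g, hg, e⟩ := desc_gen (psi M) s c hs
    (fun x hx => hM (c x) (by
      simp only [S, Finset.mem_union, Finset.mem_image]; exact Or.inl (Or.inl ⟨x, hx, rfl⟩)))
    (fun x hx => hM x.1 (by
      simp only [S, Finset.mem_union, Finset.mem_image]; exact Or.inl (Or.inr ⟨x, hx, rfl⟩)))
    (fun x hx a ha => hM a (by
      simp only [S, Finset.mem_union, Finset.mem_biUnion, List.mem_toFinset]; exact Or.inr ⟨x, hx, ha⟩))
  exact ⟨g, SA_le_BA hg, by rw [e, hPs]⟩

theorem desc_BA {f : (Qb : Type)⟦X⟧} (hf : f ∈ BA Qb) : ∃ S : Finset Qb, ∀ M : FiniteGaloisIntermediateField ℚ Qb,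
    (∀ a ∈ S, a ∈ M.toIntermediateField) → ∃ g ∈ BA M.toIntermediateField, PowerSeries.map (psi M) g = f := by
  classical
  refine BA_ind (p := fun f => ∃ S : Finset Qb, ∀ M : FiniteGaloisIntermediateField ℚ Qb,
    (∀ a ∈ S, a ∈ M.toIntermediateField) → ∃ g ∈ BA M.toIntermediateField, PowerSeries.map (psi M) g = f)
    (fun f hf => desc_SA hf) ?_ ?_ ?_ hf
  · intro ρ f hf
    refine ⟨{ρ.1}, fun M hM => ?_⟩
    let r : Kx M.toIntermediateField := ⟨⟨ρ.1, hM ρ.1 (Finset.mem_singleton_self _)⟩, fun h => ρ.2 (congrArg Subtype.val h)⟩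
    have hr : psi M r.1 = ρ.1 := rfl
    rcases hf with rfl | rfl | rfl | rfl
    · exact ⟨fs r.1, Gs_le_BA r (Or.inl rfl), by rw [map_fs, hr]⟩
    · exact ⟨Js r.1, Gs_le_BA r (Or.inr (Or.inl rfl)), by rw [Js, map_th, map_fs, hr, Js]⟩
    · exact ⟨Ss r.1, Gs_le_BA r (Or.inr (Or.inr (Or.inl rfl))), by rw [map_Ss, hr]⟩
    · exact ⟨Rs r.1, Gs_le_BA r (Or.inr (Or.inr (Or.inr rfl))), by rw [Rs, map_th, map_Ss, hr, Rs]⟩
  · rintro f g _ _ ⟨S, h⟩ ⟨T, h'⟩
    refine ⟨S ∪ T, fun M hM => ?_⟩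
    obtain ⟨a, ha, e⟩ := h M fun x hx => hM x (Finset.mem_union_left _ hx)
    obtain ⟨b, hb, e'⟩ := h' M fun x hx => hM x (Finset.mem_union_right _ hx)
    exact ⟨a + b, (BA _).add_mem ha hb, by rw [map_add, e, e']⟩
  · rintro f g _ _ ⟨S, h⟩ ⟨T, h'⟩
    refine ⟨S ∪ T, fun M hM => ?_⟩
    obtain ⟨a, ha, e⟩ := h M fun x hx => hM x (Finset.mem_union_left _ hx)
    obtain ⟨b, hb, e'⟩ := h' M fun x hx => hM x (Finset.mem_union_right _ hx)
    exact ⟨a * b, (BA _).mul_mem ha hb, by rw [map_mul, e, e']⟩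

/-- **the value at `1` of a nonzero element of the algebra over the algebraic numbers is not zero** -/
theorem evk_inj_Qb' (φ : Qb →+* ℂ) {P : (Qb : Type)⟦X⟧} (hP : P ∈ BA Qb) (h0 : evk φ P = 0) : P = 0 := by
  classical
  obtain ⟨S, hS⟩ := desc_BA hP
  let M : FiniteGaloisIntermediateField ℚ Qb := FiniteGaloisIntermediateField.adjoin ℚ (S : Set Qb)
  obtain ⟨g, hg, rfl⟩ := hS M fun a ha => FiniteGaloisIntermediateField.subset_adjoin ℚ (S : Set Qb) ha
  have hnf : NumberField M.toIntermediateField := { to_charZero := inferInstance, to_finiteDimensional := inferInstance }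
  have hgal : IsGalois ℚ M.toIntermediateField := M.isGalois
  rw [evk_map] at h0
  rw [evk_inj' (φ.comp (psi M)) hg h0, map_zero]

/-- the evaluation is injective -/
theorem evB_injective (φ : Qb →+* ℂ) : Function.Injective (evB φ : BA Qb →+* ℂ) := by
  rw [injective_iff_map_eq_zero]
  intro f hf
  exact Subtype.ext (evk_inj_Qb' φ f.2 hf)

end Pool.Agent.H18.Bes
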