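import Pool.Agent.H18.Bes.Gen

/-!
# Rational functions of one element over a differential subfield
-/

set_option autoImplicit false
set_option linter.unusedSectionVars false

open Polynomial
open scoped Differential

namespace Pool.Agent.H18.Bes

variable {F : Type*} [Field F] [Differential F] [CharZero F] {E : Subfield F}

/-- the subfield `E(x)` -/
def Ad (E : Subfield F) (x : F) : Subfield F := Subfield.closure (E ∪ {x})

theorem le_Ad (E : Subfield F) (x : F) : E ≤ Ad E x := fun _ ha => Subfield.subset_closure (Or.inl ha)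

theorem self_mem_Ad (E : Subfield F) (x : F) : x ∈ Ad E x := Subfield.subset_closure (Or.inr rfl)

theorem Ad_le {E K : Subfield F} {x : F} (h : E ≤ K) (hx : x ∈ K) : Ad E x ≤ K := by
  refine Subfield.closure_le.2 ?_
  rintro a (ha | ha)
  · exact h ha
  · rw [Set.mem_singleton_iff.1 ha]; exact hx

theorem Ad_mono {E K : Subfield F} (x : F) (h : E ≤ K) : Ad E x ≤ Ad K x :=
  Ad_le (h.trans (le_Ad K x)) (self_mem_Ad K x)

theorem Ad_comm (E : Subfield F) (x y : F) : Ad (Ad E x) y = Ad (Ad E y) x := by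
  apply le_antisymm
  · exact Ad_le (Ad_le ((le_Ad E y).trans (le_Ad _ x)) (self_mem_Ad _ x)) (le_Ad _ x (self_mem_Ad E y))
  · exact Ad_le (Ad_le ((le_Ad E x).trans (le_Ad _ y)) (self_mem_Ad _ y)) (le_Ad _ y (self_mem_Ad E x))

theorem Cf.eval_mem {p : F[X]} (hp : Cf E p) {x : F} {K : Subfield F} (hEK : E ≤ K) (hx : x ∈ K) : p.eval x ∈ K := by
  rw [eval_eq_sum_range]
  exact K.sum_mem fun i _ => K.mul_mem (hEK (hp i)) (K.pow_mem hx i)

/-- representation of the elements -/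
theorem exists_rep {x g : F} (hg : g ∈ Ad E x) : ∃ N M : F[X], Cf E N ∧ Cf E M ∧ M.eval x ≠ 0 ∧
    g = N.eval x / M.eval x := by
  unfold Ad at hg
  induction hg using Subfield.closure_induction with
  | mem a ha =>
    rcases ha with ha | ha
    · exact ⟨C a, 1, Cf.C ha, Cf.one, by simp, by simp⟩
    · rw [Set.mem_singleton_iff.1 ha]
      exact ⟨X, 1, Cf.X, Cf.one, by simp, by simp⟩
  | one => exact ⟨1, 1, Cf.one, Cf.one, by simp, by simp⟩
  | add a b _ _ ha hb =>
    obtain ⟨N, M, hN, hM, hM0, rfl⟩ := ha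
    obtain ⟨N', M', hN', hM', hM0', rfl⟩ := hb
    refine ⟨N * M' + N' * M, M * M', (hN.mul hM').add (hN'.mul hM), hM.mul hM', ?_, ?_⟩
    · rw [eval_mul]; exact mul_ne_zero hM0 hM0'
    · simp only [eval_add, eval_mul]; field_simp
  | neg a _ ha =>
    obtain ⟨N, M, hN, hM, hM0, rfl⟩ := ha
    exact ⟨-N, M, hN.neg, hM, hM0, by rw [eval_neg, neg_div]⟩
  | inv a _ ha =>
    obtain ⟨N, M, hN, hM, hM0, rfl⟩ := ha
    rcases eq_or_ne (N.eval x) 0 with h0 | h0
    · exact ⟨0, 1, Cf.zero, Cf.one, by simp, by rw [h0]; simp⟩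
    · exact ⟨M, N, hM, hN, h0, by rw [inv_div]⟩
  | mul a b _ _ ha hb =>
    obtain ⟨N, M, hN, hM, hM0, rfl⟩ := ha
    obtain ⟨N', M', hN', hM', hM0', rfl⟩ := hb
    refine ⟨N * N', M * M', hN.mul hN', hM.mul hM', ?_, ?_⟩
    · rw [eval_mul]; exact mul_ne_zero hM0 hM0'
    · simp only [eval_mul]; field_simp

/-- reduced representation of the elements -/
theorem exists_coprime_rep {x g : F} (hg : g ∈ Ad E x) : ∃ N M : F[X], Cf E N ∧ Cf E M ∧ IsCoprime N M ∧ M.eval x ≠ 0 ∧
    g = N.eval x / M.eval x := by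
  classical
  obtain ⟨N, M, hN, hM, hM0, rfl⟩ := exists_rep hg
  obtain ⟨n, rfl⟩ := cf_iff.1 hN
  obtain ⟨m, rfl⟩ := cf_iff.1 hM
  have hm : m ≠ 0 := by rintro rfl; simp at hM0
  obtain ⟨d, hd⟩ := EuclideanDomain.gcd_dvd_left n m
  obtain ⟨e, he⟩ := EuclideanDomain.gcd_dvd_right n m
  set c := EuclideanDomain.gcd n m with hc
  have hc0 : c ≠ 0 := fun h => hm (by rw [he, h, zero_mul])
  have hcop : IsCoprime d e := by
    obtain ⟨A, B, h1⟩ : ∃ A B, c = n * A + m * B := ⟨_, _, EuclideanDomain.gcd_eq_gcd_ab n m⟩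
    refine ⟨A, B, ?_⟩
    apply mul_left_cancel₀ hc0
    rw [mul_one]
    linear_combination (-A) * hd - B * he - h1
  refine ⟨d.map (algebraMap E F), e.map (algebraMap E F), cf_iff.2 ⟨_, rfl⟩, cf_iff.2 ⟨_, rfl⟩,
    hcop.map (Polynomial.mapRingHom (algebraMap E F)), ?_, ?_⟩
  · intro h0
    apply hM0
    rw [he, Polynomial.map_mul, eval_mul, h0, mul_zero]
  · have h0 : ((c.map (algebraMap E F)).eval x) ≠ 0 := by
      intro h0
      apply hM0
      rw [he, Polynomial.map_mul, eval_mul, h0, zero_mul]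
    conv_lhs => rw [hd, he]
    rw [Polynomial.map_mul, Polynomial.map_mul, eval_mul, eval_mul, mul_div_mul_left _ _ h0]

/-- the closure is stable -/
theorem St.Ad (hE : St E) {x : F} {v : F[X]} (hv : Cf E v) (hx : x′ = v.eval x) : St (Ad E x) := by
  intro g hg
  obtain ⟨N, M, hN, hM, hM0, rfl⟩ := exists_rep hg
  rw [Derivation.leibniz_div, DP_eval hx, DP_eval hx, smul_eq_mul, smul_eq_mul]
  have h1 : ∀ {p : F[X]}, Cf E p → p.eval x ∈ Bes.Ad E x := fun hp => hp.eval_mem (le_Ad E x) (self_mem_Ad E x)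
  have h2 := h1 hM
  have h3 := h1 hN
  have h4 := h1 (hN.dp hE hv)
  have h5 := h1 (hM.dp hE hv)
  exact (Bes.Ad E x).mul_mem ((Bes.Ad E x).pow_mem ((Bes.Ad E x).inv_mem h2) 2)
    ((Bes.Ad E x).sub_mem ((Bes.Ad E x).mul_mem h2 h4) ((Bes.Ad E x).mul_mem h3 h5))

theorem St.ric (hE : St E) {w q : F} (hw : w′ = q - w ^ 2) (hq : q ∈ E) : St (Bes.Ad E w) :=
  hE.Ad (v := Bes.ric q) (Cf.ric hq) (by rw [ric_eval, hw])

/-- the derivative of a quotient, as polynomials -/
theorem rep_deriv {x : F} {v N M : F[X]} (hx : x′ = v.eval x) (hM : M.eval x ≠ 0) :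
    (N.eval x / M.eval x)′ = (DP v N * M - N * DP v M).eval x / (M.eval x) ^ 2 := by
  rw [Derivation.leibniz_div, DP_eval hx, DP_eval hx, smul_eq_mul, smul_eq_mul, eval_sub, eval_mul, eval_mul, smul_eq_mul]
  field_simp

/-- **semi-invariants** -/
theorem semi {w q : F} (hw : w′ = q - w ^ 2) (hN : NoInt w) (hE : St E) (hq : q ∈ E) (hwE : w ∉ E) {g : F}
    (hg : g ∈ Ad E w) (hg0 : g ≠ 0) {l : F[X]} (hl : Cf E l) (h : g′ = l.eval w * g) : g ∈ E := by
  have hT := tr_of_notMem hw hN hE hq hwE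
  have hw' : w′ = (ric q).eval w := by rw [ric_eval, hw]
  obtain ⟨N, M, hNE, hME, hcop, hM0, rfl⟩ := exists_coprime_rep hg
  have hN0 : N.eval w ≠ 0 := fun h0 => hg0 (by rw [h0, zero_div])
  rw [rep_deriv hw' hM0] at h
  have hpoly : DP (ric q) N * M - N * DP (ric q) M = l * N * M := by
    have h1 : (DP (ric q) N * M - N * DP (ric q) M - l * N * M).eval w = 0 := by
      rw [eval_sub, eval_mul, eval_mul]
      field_simp at h
      linear_combination h
    have h2 := hT _ ((((hNE.dp hE (Cf.ric hq)).mul hME).sub (hNE.mul (hME.dp hE (Cf.ric hq)))).sub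
      ((hl.mul hNE).mul hME)) h1
    exact sub_eq_zero.1 h2
  have hNd : N ∣ DP (ric q) N := by
    generalize DP (ric q) N = a at hpoly ⊢
    generalize DP (ric q) M = b at hpoly
    exact hcop.dvd_of_dvd_mul_right ⟨b + l * M, by linear_combination hpoly⟩
  have hMd : M ∣ DP (ric q) M := by
    generalize DP (ric q) N = a at hpoly
    generalize DP (ric q) M = b at hpoly ⊢
    exact hcop.symm.dvd_of_dvd_mul_left ⟨a - l * N, by linear_combination -hpoly⟩
  have hNn := darboux_sub hw hN hwE hNE (fun h0 => hN0 (by rw [h0, eval_zero])) hNd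
  have hMn := darboux_sub hw hN hwE hME (fun h0 => hM0 (by rw [h0, eval_zero])) hMd
  rw [eq_C_of_natDegree_eq_zero hNn, eq_C_of_natDegree_eq_zero hMn, eval_C, eval_C]
  exact E.div_mem (hNE _) (hME _)

end Pool.Agent.H18.Bes
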