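import Mathlib

/-!
# Entire series: the derivative
-/

set_option autoImplicit false
set_option linter.unusedSectionVars false

open Filter Topology Set

namespace Pool.Agent.H18.Bes

section

variable {𝕜 : Type*} [RCLike 𝕜]

/-- entire coefficients -/
def Ent (a : ℕ → 𝕜) : Prop := ∀ r : ℝ, 0 ≤ r → Summable fun n => ‖a n‖ * r ^ n

/-- the sum of the series -/
noncomputable def sr (a : ℕ → 𝕜) (z : 𝕜) : 𝕜 := ∑' n, a n * z ^ n

/-- the coefficients of the derivative -/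
def dc (a : ℕ → 𝕜) (n : ℕ) : 𝕜 := ((n : 𝕜) + 1) * a (n + 1)

theorem Ent.summable {a : ℕ → 𝕜} (h : Ent a) (z : 𝕜) : Summable fun n => a n * z ^ n := by
  refine Summable.of_norm ?_
  refine (h ‖z‖ (norm_nonneg _)).congr fun n => ?_
  rw [norm_mul, norm_pow]

theorem Ent.nmul {a : ℕ → 𝕜} (h : Ent a) : Ent (fun n => (n : 𝕜) * a n) := by
  intro r hr
  refine Summable.of_nonneg_of_le (fun n => by positivity) (fun n => ?_) (h (2 * r) (by positivity))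
  rw [norm_mul, RCLike.norm_natCast, mul_pow]
  have h1 : (n : ℝ) ≤ 2 ^ n := by exact_mod_cast (Nat.lt_two_pow_self (n := n)).le
  calc (n : ℝ) * ‖a n‖ * r ^ n ≤ 2 ^ n * ‖a n‖ * r ^ n := by gcongr
    _ = _ := by ring

theorem Ent.dc {a : ℕ → 𝕜} (h : Ent a) : Ent (Bes.dc a) := by
  intro r hr
  have h1 := (summable_nat_add_iff 1).2 (h.nmul (r + 1) (by positivity))
  refine Summable.of_nonneg_of_le (fun n => by positivity) (fun n => ?_) h1
  have h2 : Bes.dc a n = ((n + 1 : ℕ) : 𝕜) * a (n + 1) := by rw [Bes.dc]; push_cast; rfl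
  rw [h2]
  refine mul_le_mul_of_nonneg_left ?_ (norm_nonneg _)
  rw [pow_succ]
  have h3 : r ^ n ≤ (r + 1) ^ n := pow_le_pow_left₀ hr (by linarith) n
  have h4 : (0 : ℝ) ≤ (r + 1) ^ n := by positivity
  nlinarith

theorem sr_hasDerivAt {a : ℕ → 𝕜} (h : Ent a) (z : 𝕜) : HasDerivAt (sr a) (sr (Bes.dc a) z) z := by
  set R : ℝ := ‖z‖ + 1 with hR
  have hR1 : 0 ≤ R := by positivity
  have hu : Summable fun n : ℕ => ‖(n : 𝕜) * a n‖ * (R + 1) ^ n := h.nmul (R + 1) (by positivity)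
  have key := hasDerivAt_tsum_of_isPreconnected (𝕜 := 𝕜) (g := fun (n : ℕ) (z : 𝕜) => a n * z ^ n)
    (g' := fun (n : ℕ) (z : 𝕜) => a n * (n * z ^ (n - 1))) hu Metric.isOpen_ball
    (Metric.isPreconnected_ball (x := (0 : 𝕜)) (r := R))
    (fun n y _ => (hasDerivAt_pow n y).const_mul (a n)) (fun n y hy => by
      rw [Metric.mem_ball, dist_zero_right] at hy
      rw [norm_mul, norm_mul, norm_mul, norm_pow]
      have h1 : ‖y‖ ^ (n - 1) ≤ (R + 1) ^ n := by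
        calc ‖y‖ ^ (n - 1) ≤ (R + 1) ^ (n - 1) := pow_le_pow_left₀ (norm_nonneg _) (by linarith) _
          _ ≤ (R + 1) ^ n := pow_le_pow_right₀ (by linarith) (Nat.sub_le n 1)
      calc ‖a n‖ * (‖(n : 𝕜)‖ * ‖y‖ ^ (n - 1)) = (‖(n : 𝕜)‖ * ‖a n‖) * ‖y‖ ^ (n - 1) := by ring
        _ ≤ _ := mul_le_mul_of_nonneg_left h1 (by positivity))
    (y₀ := 0) (Metric.mem_ball_self (by positivity)) (h.summable 0) (y := z)
    (by rw [Metric.mem_ball, dist_zero_right]; linarith)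
  have h2 : ∑' n : ℕ, a n * ((n : 𝕜) * z ^ (n - 1)) = sr (Bes.dc a) z := by
    have hs : Summable fun n : ℕ => a n * ((n : 𝕜) * z ^ (n - 1)) := by
      rw [← summable_nat_add_iff 1]
      refine (h.dc.summable z).congr fun n => ?_
      rw [Bes.dc, Nat.add_sub_cancel]
      push_cast
      ring
    rw [hs.tsum_eq_zero_add, Nat.cast_zero, zero_mul, mul_zero, zero_add, sr]
    refine tsum_congr fun n => ?_
    rw [Bes.dc, Nat.add_sub_cancel]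
    push_cast
    ring
  rw [h2] at key
  exact key

theorem mul_sr_dc {a : ℕ → 𝕜} (h : Ent a) (z : 𝕜) : z * sr (Bes.dc a) z = sr (fun n => (n : 𝕜) * a n) z := by
  rw [sr, sr, (h.nmul.summable z).tsum_eq_zero_add, Nat.cast_zero, zero_mul, zero_mul, zero_add, ← tsum_mul_left]
  refine tsum_congr fun n => ?_
  rw [Bes.dc, pow_succ]
  push_cast
  ring

theorem sr_add {a b : ℕ → 𝕜} (ha : Ent a) (hb : Ent b) (z : 𝕜) : sr (fun n => a n + b n) z = sr a z + sr b z := by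
  rw [sr, sr, sr, ← (ha.summable z).tsum_add (hb.summable z)]
  exact tsum_congr fun n => by ring

theorem sr_zero (a : ℕ → 𝕜) : sr a 0 = a 0 := by
  rw [sr, tsum_eq_single 0]
  · simp
  · intro n hn; rw [zero_pow hn, mul_zero]

/-! ### The two series -/

variable (𝕜) in
/-- `1 / k!^2` -/
noncomputable def a1 (k : ℕ) : 𝕜 := 1 / (k.factorial : 𝕜) ^ 2

variable (𝕜) in
/-- `H_k / k!^2` -/
noncomputable def a2 (k : ℕ) : 𝕜 := ((harmonic k : ℚ) : 𝕜) / (k.factorial : 𝕜) ^ 2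

theorem ent_of_le {a : ℕ → 𝕜} (h : ∀ n, ‖a n‖ ≤ 1 / (n.factorial : ℝ)) : Ent a := by
  intro r hr
  refine Summable.of_nonneg_of_le (fun n => by positivity) (fun n => ?_) (Real.summable_pow_div_factorial r)
  calc ‖a n‖ * r ^ n ≤ 1 / (n.factorial : ℝ) * r ^ n := mul_le_mul_of_nonneg_right (h n) (by positivity)
    _ = _ := by ring

theorem ent_a1 : Ent (a1 𝕜) := by
  refine ent_of_le fun n => ?_
  rw [a1, norm_div, norm_one, norm_pow, RCLike.norm_natCast]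
  have h1 : (1 : ℝ) ≤ n.factorial := by exact_mod_cast n.factorial_pos
  refine div_le_div_of_nonneg_left (by norm_num) (by linarith) ?_
  nlinarith

theorem harmonic_le (n : ℕ) : ((harmonic n : ℚ) : ℝ) ≤ n := by
  rw [harmonic]
  push_cast
  refine (Finset.sum_le_sum (g := fun _ => (1 : ℝ)) fun i _ => ?_).trans (by simp)
  refine inv_le_one_of_one_le₀ ?_
  have : (0 : ℝ) ≤ i := Nat.cast_nonneg i
  linarith

theorem harmonic_nonneg (n : ℕ) : (0 : ℝ) ≤ ((harmonic n : ℚ) : ℝ) := by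
  rw [harmonic]
  push_cast
  exact Finset.sum_nonneg fun i _ => by positivity

theorem ent_a2 : Ent (a2 𝕜) := by
  refine ent_of_le fun n => ?_
  rw [a2, norm_div, norm_pow, RCLike.norm_natCast]
  have h0 : ‖((harmonic n : ℚ) : 𝕜)‖ = ((harmonic n : ℚ) : ℝ) := by
    have : ((harmonic n : ℚ) : 𝕜) = (((harmonic n : ℚ) : ℝ) : 𝕜) := by push_cast; rfl
    rw [this, RCLike.norm_ofReal, abs_of_nonneg (harmonic_nonneg n)]
  rw [h0]
  have h1 : (1 : ℝ) ≤ n.factorial := by exact_mod_cast n.factorial_pos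
  have h2 : ((harmonic n : ℚ) : ℝ) ≤ n.factorial := (harmonic_le n).trans (by exact_mod_cast n.self_le_factorial)
  rw [div_le_div_iff₀ (by positivity) (by positivity)]
  nlinarith

theorem fac_ne (k : ℕ) : (k.factorial : 𝕜) ≠ 0 := by exact_mod_cast k.factorial_ne_zero

theorem succ_ne (k : ℕ) : ((k : 𝕜) + 1) ≠ 0 := by exact_mod_cast Nat.succ_ne_zero k

/-- `J' = F` -/
theorem dc_a1 : Bes.dc (fun n => (n : 𝕜) * a1 𝕜 n) = a1 𝕜 := by
  funext k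
  rw [Bes.dc, a1, a1, Nat.factorial_succ]
  have := fac_ne (𝕜 := 𝕜) k
  have := succ_ne (𝕜 := 𝕜) k
  push_cast
  field_simp

/-- `R' = S + F'` -/
theorem dc_a2 : Bes.dc (fun n => (n : 𝕜) * a2 𝕜 n) = fun n => a2 𝕜 n + Bes.dc (a1 𝕜) n := by
  funext k
  rw [Bes.dc, Bes.dc, a1, a2, a2, Nat.factorial_succ, harmonic_succ]
  have := fac_ne (𝕜 := 𝕜) k
  have := succ_ne (𝕜 := 𝕜) k
  push_cast
  field_simp

variable (𝕜)

noncomputable def Fk (z : 𝕜) : 𝕜 := sr (a1 𝕜) z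
noncomputable def Jk (z : 𝕜) : 𝕜 := sr (fun n => (n : 𝕜) * a1 𝕜 n) z
noncomputable def Sk (z : 𝕜) : 𝕜 := sr (a2 𝕜) z
noncomputable def Rk (z : 𝕜) : 𝕜 := sr (fun n => (n : 𝕜) * a2 𝕜 n) z
noncomputable def F1 (z : 𝕜) : 𝕜 := sr (Bes.dc (a1 𝕜)) z
noncomputable def S1 (z : 𝕜) : 𝕜 := sr (Bes.dc (a2 𝕜)) z

variable {𝕜}

theorem Fk_deriv (z : 𝕜) : HasDerivAt (Fk 𝕜) (F1 𝕜 z) z := sr_hasDerivAt ent_a1 z
theorem Sk_deriv (z : 𝕜) : HasDerivAt (Sk 𝕜) (S1 𝕜 z) z := sr_hasDerivAt ent_a2 z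
theorem Jk_deriv (z : 𝕜) : HasDerivAt (Jk 𝕜) (Fk 𝕜 z) z := by
  have := sr_hasDerivAt (𝕜 := 𝕜) ent_a1.nmul z
  rwa [dc_a1] at this
theorem Rk_deriv (z : 𝕜) : HasDerivAt (Rk 𝕜) (Sk 𝕜 z + F1 𝕜 z) z := by
  have := sr_hasDerivAt (𝕜 := 𝕜) ent_a2.nmul z
  rwa [dc_a2, sr_add ent_a2 ent_a1.dc] at this
theorem mul_F1 (z : 𝕜) : z * F1 𝕜 z = Jk 𝕜 z := mul_sr_dc ent_a1 z
theorem mul_S1 (z : 𝕜) : z * S1 𝕜 z = Rk 𝕜 z := mul_sr_dc ent_a2 z
theorem Fk_zero : Fk 𝕜 0 = 1 := by rw [Fk, sr_zero, a1]; simp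
theorem Jk_zero : Jk 𝕜 0 = 0 := by rw [Jk, sr_zero]; simp
theorem Sk_zero : Sk 𝕜 0 = 0 := by rw [Sk, sr_zero, a2]; simp
theorem Rk_zero : Rk 𝕜 0 = 0 := by rw [Rk, sr_zero]; simp

end

end Pool.Agent.H18.Bes
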