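import Pool.Agent.H18.Bes.Desc

/-!
# Independence of the solutions of several Riccati equations
-/

set_option autoImplicit false
set_option linter.unusedSectionVars false

open Polynomial
open scoped Differential

namespace Pool.Agent.H18.Bes

variable {F : Type*} [Field F] [Differential F] [CharZero F] {E : Subfield F}

/-- the subfield generated over `E` by a set -/
def AdS (E : Subfield F) (T : Set F) : Subfield F := Subfield.closure (E ∪ T)

theorem le_AdS (E : Subfield F) (T : Set F) : E ≤ AdS E T := fun _ ha => Subfield.subset_closure (Or.inl ha)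

theorem subset_AdS (E : Subfield F) (T : Set F) : T ⊆ AdS E T := fun _ ha => Subfield.subset_closure (Or.inr ha)

theorem AdS_le {E K : Subfield F} {T : Set F} (h : E ≤ K) (hT : T ⊆ K) : AdS E T ≤ K :=
  Subfield.closure_le.2 (Set.union_subset h hT)

theorem AdS_mono {E K : Subfield F} {T T' : Set F} (h : E ≤ K) (hT : T ⊆ T') : AdS E T ≤ AdS K T' :=
  AdS_le (h.trans (le_AdS K T')) (hT.trans (subset_AdS K T'))

theorem AdS_empty (E : Subfield F) : AdS E ∅ = E :=
  le_antisymm (AdS_le le_rfl (Set.empty_subset _)) (le_AdS E ∅)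

theorem AdS_insert (E : Subfield F) (x : F) (T : Set F) : AdS E (insert x T) = Ad (AdS E T) x := by
  apply le_antisymm
  · refine AdS_le ((le_AdS E T).trans (le_Ad _ x)) ?_
    rintro a (ha | ha)
    · rw [ha]; exact self_mem_Ad _ x
    · exact le_Ad _ x (subset_AdS E T ha)
  · exact Ad_le (AdS_mono le_rfl (Set.subset_insert x T)) (subset_AdS _ _ (Set.mem_insert x T))

theorem AdS_union (E : Subfield F) (T T' : Set F) : AdS E (T ∪ T') = AdS (AdS E T) T' := by
  apply le_antisymm
  · refine AdS_le ((le_AdS E T).trans (le_AdS _ T')) ?_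
    rintro a (ha | ha)
    · exact le_AdS _ T' (subset_AdS E T ha)
    · exact subset_AdS _ T' ha
  · exact AdS_le (AdS_mono le_rfl Set.subset_union_left) (Set.subset_union_right.trans (subset_AdS _ _))

/-- finite character -/
theorem AdS_finite {E : Subfield F} {ι : Type*} (y : ι → F) {S : Set ι} {g : F} (hg : g ∈ AdS E (y '' S)) :
    ∃ T : Finset ι, (T : Set ι) ⊆ S ∧ g ∈ AdS E (y '' (T : Set ι)) := by
  classical
  unfold AdS at hg
  induction hg using Subfield.closure_induction with
  | mem a ha =>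
    rcases ha with ha | ⟨i, hi, rfl⟩
    · exact ⟨∅, by simp, le_AdS _ _ ha⟩
    · exact ⟨{i}, by simpa using hi, subset_AdS _ _ ⟨i, by simp, rfl⟩⟩
  | one => exact ⟨∅, by simp, (AdS E _).one_mem⟩
  | add a b _ _ ha hb =>
    obtain ⟨T, hT, h1⟩ := ha
    obtain ⟨T', hT', h1'⟩ := hb
    refine ⟨T ∪ T', by rw [Finset.coe_union]; exact Set.union_subset hT hT', (AdS E _).add_mem
      (AdS_mono le_rfl (Set.image_mono ?_) h1) (AdS_mono le_rfl (Set.image_mono ?_) h1')⟩
    · exact_mod_cast Finset.subset_union_left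
    · exact_mod_cast Finset.subset_union_right
  | neg a _ ha =>
    obtain ⟨T, hT, h1⟩ := ha
    exact ⟨T, hT, (AdS E _).neg_mem h1⟩
  | inv a _ ha =>
    obtain ⟨T, hT, h1⟩ := ha
    exact ⟨T, hT, (AdS E _).inv_mem h1⟩
  | mul a b _ _ ha hb =>
    obtain ⟨T, hT, h1⟩ := ha
    obtain ⟨T', hT', h1'⟩ := hb
    refine ⟨T ∪ T', by rw [Finset.coe_union]; exact Set.union_subset hT hT', (AdS E _).mul_mem
      (AdS_mono le_rfl (Set.image_mono ?_) h1) (AdS_mono le_rfl (Set.image_mono ?_) h1')⟩
    · exact_mod_cast Finset.subset_union_left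
    · exact_mod_cast Finset.subset_union_right

/-- stability is preserved by adjoining elements with derivatives in the field -/
theorem St.AdS (hE : St E) {T : Set F} (h : ∀ x ∈ T, x′ ∈ Bes.AdS E T) : St (Bes.AdS E T) := by
  intro g hg
  unfold Bes.AdS at hg
  induction hg using Subfield.closure_induction with
  | mem a ha =>
    rcases ha with ha | ha
    · exact le_AdS _ _ (hE _ ha)
    · exact h _ ha
  | one => rw [Derivation.map_one_eq_zero]; exact (Bes.AdS E T).zero_mem
  | add a b _ _ ha hb => rw [map_add]; exact (Bes.AdS E T).add_mem ha hb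
  | neg a _ ha => rw [map_neg]; exact (Bes.AdS E T).neg_mem ha
  | inv a h1 ha =>
    rw [Derivation.leibniz_inv, smul_eq_mul]
    exact (Bes.AdS E T).mul_mem ((Bes.AdS E T).neg_mem ((Bes.AdS E T).pow_mem ((Bes.AdS E T).inv_mem h1) 2)) ha
  | mul a b h1 h2 ha hb =>
    rw [Derivation.leibniz, smul_eq_mul, smul_eq_mul]
    exact (Bes.AdS E T).add_mem ((Bes.AdS E T).mul_mem h1 hb) ((Bes.AdS E T).mul_mem h2 ha)

/-- a system of Riccati equations -/
structure RS (E : Subfield F) {ι : Type*} (w q : ι → F) : Prop where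
  st : St E
  w' : ∀ i, (w i)′ = q i - w i ^ 2
  no : ∀ i, NoInt (w i)
  mem : ∀ i, q i ∈ E
  inj : ∀ i j, i ≠ j → q i ≠ q j
  b1 : ∀ i, w i ∉ E
  b2 : ∀ i j, i ≠ j → w i ∉ Ad E (w j)

variable {ι : Type*} {w q : ι → F}

theorem RS.stS (h : RS E w q) (S : Set ι) : St (AdS E (w '' S)) := by
  refine h.st.AdS ?_
  rintro _ ⟨i, hi, rfl⟩
  rw [h.w']
  exact (AdS E (w '' S)).sub_mem (le_AdS _ _ (h.mem i))
    ((AdS E (w '' S)).pow_mem (subset_AdS E (w '' S) (Set.mem_image_of_mem w hi)) 2)

/-- **independence** -/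
theorem RS.notMem (h : RS E w q) : ∀ (n : ℕ) (S : Finset ι), S.card = n → ∀ r ∉ S, w r ∉ AdS E (w '' (S : Set ι)) := by
  classical
  intro n
  induction n using Nat.strong_induction_on with
  | _ n ih =>
    intro S hS r hr hmem
    rcases S.eq_empty_or_nonempty with rfl | ⟨i, hi⟩
    · rw [Finset.coe_empty, Set.image_empty, AdS_empty] at hmem
      exact h.b1 r hmem
    · have hcard : (S.erase i).card < n := by rw [Finset.card_erase_of_mem hi]; have := Finset.card_pos.2 ⟨i, hi⟩; omega
      have hri : r ≠ i := fun e => hr (e ▸ hi)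
      have e1 : AdS E (w '' (S : Set ι)) = Ad (AdS E (w '' ((S.erase i : Finset ι) : Set ι))) (w i) := by
        rw [← AdS_insert, ← Set.image_insert_eq]
        congr 2
        rw [← Finset.coe_insert, Finset.insert_erase hi]
      rw [e1] at hmem
      have key : ∀ U : Finset ι, U ⊆ S.erase i → w r ∈ Ad (AdS E (w '' (U : Set ι))) (w i) → w r ∈ Ad E (w i) := by
        intro U
        induction U using Finset.induction_on with
        | empty =>
          intro _ h1
          rwa [Finset.coe_empty, Set.image_empty, AdS_empty] at h1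
        | insert j U hj ihU =>
          intro hU h1
          have hUS : U ⊆ S.erase i := (Finset.subset_insert j U).trans hU
          have hc1 : U.card < n := lt_of_le_of_lt (Finset.card_le_card hUS) hcard
          have hc2 : (insert j U).card < n := lt_of_le_of_lt (Finset.card_le_card hU) hcard
          refine ihU hUS ?_
          have e2 : AdS E (w '' ((insert j U : Finset ι) : Set ι)) = Ad (AdS E (w '' (U : Set ι))) (w j) := by
            rw [Finset.coe_insert, Set.image_insert_eq, AdS_insert]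
          have hi' : i ∉ insert j U := fun h2 => (Finset.notMem_erase i S) (hU h2)
          have hr' : r ∉ insert j U := fun h2 => hr (Finset.mem_of_mem_erase (hU h2))
          have n1 := ih _ hc1 U rfl j hj
          have n2 := ih _ hc2 (insert j U) rfl i hi'
          have n3 := ih _ hc2 (insert j U) rfl r hr'
          rw [e2] at n2 n3 h1
          exact descent (h.stS U) (h.w' j) (h.no j) (le_AdS _ _ (h.mem j)) n1 (h.w' i) (h.no i) (le_AdS _ _ (h.mem i)) n2
            (h.w' r) (le_AdS _ _ (h.mem r)) (h.inj i r (Ne.symm hri)) h1 n3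
      exact h.b2 r i hri (key _ subset_rfl hmem)

theorem RS.notMem' (h : RS E w q) (S : Set ι) (r : ι) (hr : r ∉ S) : w r ∉ AdS E (w '' S) := by
  intro h1
  obtain ⟨T, hT, h2⟩ := AdS_finite w h1
  exact h.notMem _ T rfl r (fun h3 => hr (hT h3)) h2

theorem RS.tr (h : RS E w q) (S : Set ι) (r : ι) (hr : r ∉ S) : Tr (AdS E (w '' S)) (w r) :=
  tr_of_notMem (h.w' r) (h.no r) (h.stS S) (le_AdS _ _ (h.mem r)) (h.notMem' S r hr)

/-! ### Extensions by exponentials and primitives -/

theorem algebraic_of_mem {x g : F} (hx : ¬ Tr E x) (hg : g ∈ Ad E x) : ¬ Tr E g := by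
  obtain ⟨p, hp, hm, h0, -⟩ := not_tr hx
  obtain ⟨r, rfl⟩ := cf_iff.1 hp
  have h1 : IsAlgebraic E x := ⟨r, fun h => by rw [h, Polynomial.map_zero] at hm; exact hm.ne_zero rfl, by
    rw [← h0, eval_map_algebraMap]⟩
  have h2 : Ad E x ≤ (IntermediateField.adjoin E {x}).toSubfield := by
    refine Ad_le ?_ ?_
    · intro a ha
      exact (IntermediateField.adjoin E {x}).algebraMap_mem ⟨a, ha⟩
    · exact IntermediateField.mem_adjoin_simple_self E x
  have h3 : IsAlgebraic E g := by
    have := IntermediateField.isAlgebraic_adjoin_simple h1.isIntegral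
    have h4 := this.isAlgebraic (⟨g, h2 hg⟩ : IntermediateField.adjoin E {x})
    exact h4.algHom (IntermediateField.val _)
  intro hT
  obtain ⟨s, hs, hs0⟩ := h3
  have h4 := hT (s.map (algebraMap E F)) (cf_iff.2 ⟨_, rfl⟩) (by rw [eval_map_algebraMap, hs0])
  exact hs ((Polynomial.map_eq_zero_iff (algebraMap E F).injective).1 h4)

end Pool.Agent.H18.Bes
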