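import Pool.Agent.H18.Bes.Tower

/-!
# Independence of the exponentials of the integrals and of the primitives
-/

set_option autoImplicit false
set_option linter.unusedSectionVars false

open Polynomial
open scoped Differential

namespace Pool.Agent.H18.Bes

variable {F : Type*} [Field F] [Differential F] [CharZero F] {E : Subfield F}

theorem coeff_DP_X (a : F) (p : F[X]) (n : ℕ) : (DP (C a * X) p).coeff n = (p.coeff n)′ + a * n * p.coeff n := by
  rw [DP_eq, coeff_add, Differential.coeff_mapCoeffs]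
  congr 1
  rcases n with _ | n
  · simp [mul_assoc]
  · rw [mul_assoc (C a), coeff_C_mul, coeff_X_mul, coeff_derivative]
    push_cast
    ring

theorem natDegree_DP_X (a : F) (p : F[X]) : (DP (C a * X) p).natDegree ≤ p.natDegree := by
  refine natDegree_le_iff_coeff_eq_zero.2 fun k hk => ?_
  rw [coeff_DP_X, coeff_eq_zero_of_natDegree_lt hk, map_zero, mul_zero, add_zero]

/-- the quotient is constant -/
theorem exists_const_of_dvd {p r : F[X]} (hp : p ≠ 0) (h : p ∣ r) (hd : r.natDegree ≤ p.natDegree) :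
    ∃ c : F, r = C c * p := by
  obtain ⟨t, rfl⟩ := h
  rcases eq_or_ne t 0 with rfl | ht
  · exact ⟨0, by simp⟩
  · rw [natDegree_mul hp ht] at hd
    obtain ⟨c, hc⟩ := natDegree_eq_zero.1 (by omega : t.natDegree = 0)
    exact ⟨c, by rw [← hc, mul_comm]⟩

/-- semi-invariants in an extension by an exponential -/
theorem exp_semi (hE : St E) {u μ g l : F} (hT : Tr E u) (hμ : μ ∈ E) (hu : u′ = μ * u) (hg : g ∈ Ad E u) (hg0 : g ≠ 0)
    (hl : l ∈ E) (h : g′ = l * g) : ∃ k : ℤ, ∃ z ∈ E, z ≠ 0 ∧ z′ = (l - k * μ) * z := by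
  have hv : Cf E (C μ * X : F[X]) := (Cf.C hμ).mul Cf.X
  have hu' : u′ = (C μ * X : F[X]).eval u := by simpa using hu
  obtain ⟨N, M, hNE, hME, hcop, hM0, rfl⟩ := exists_coprime_rep hg
  have hN0 : N.eval u ≠ 0 := fun h0 => hg0 (by rw [h0, zero_div])
  have hNne : N ≠ 0 := fun h0 => hN0 (by rw [h0, eval_zero])
  have hMne : M ≠ 0 := fun h0 => hM0 (by rw [h0, eval_zero])
  rw [rep_deriv hu' hM0] at h
  have hpoly : DP (C μ * X) N * M - N * DP (C μ * X) M = C l * N * M := by
    have h1 : (DP (C μ * X) N * M - N * DP (C μ * X) M - C l * N * M).eval u = 0 := by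
      rw [eval_sub, eval_mul, eval_mul (p := C l), eval_C]
      field_simp at h
      linear_combination h
    have h2 := hT _ ((((hNE.dp hE hv).mul hME).sub (hNE.mul (hME.dp hE hv))).sub
      (((Cf.C hl).mul hNE).mul hME)) h1
    exact sub_eq_zero.1 h2
  have hdN : (DP (C μ * X) N).natDegree ≤ N.natDegree := natDegree_DP_X μ N
  have hdM : (DP (C μ * X) M).natDegree ≤ M.natDegree := natDegree_DP_X μ M
  have hcN := coeff_DP_X μ N N.natDegree
  have hcM := coeff_DP_X μ M M.natDegree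
  have hNd : N ∣ DP (C μ * X) N := by
    generalize DP (C μ * X) N = a at hpoly ⊢
    generalize DP (C μ * X) M = b at hpoly
    exact hcop.dvd_of_dvd_mul_right ⟨b + C l * M, by linear_combination hpoly⟩
  have hMd : M ∣ DP (C μ * X) M := by
    generalize DP (C μ * X) N = a at hpoly
    generalize DP (C μ * X) M = b at hpoly ⊢
    exact hcop.symm.dvd_of_dvd_mul_left ⟨a - C l * N, by linear_combination -hpoly⟩
  obtain ⟨c, hc⟩ := exists_const_of_dvd hNne hNd hdN
  obtain ⟨d, hd⟩ := exists_const_of_dvd hMne hMd hdM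
  rw [hc, coeff_C_mul] at hcN
  rw [hd, coeff_C_mul] at hcM
  rw [hc, hd] at hpoly
  have hcd : c - d = l := by
    have h1 : (C (c - d - l) : F[X]) * (N * M) = 0 := by
      simp only [C_sub]
      linear_combination hpoly
    have h2 := (mul_eq_zero.1 h1).resolve_right (mul_ne_zero hNne hMne)
    rw [C_eq_zero] at h2
    linear_combination h2
  have ha0 : N.coeff N.natDegree ≠ 0 := leadingCoeff_ne_zero.2 hNne
  have hb0 : M.coeff M.natDegree ≠ 0 := leadingCoeff_ne_zero.2 hMne
  refine ⟨(N.natDegree : ℤ) - M.natDegree, N.coeff N.natDegree / M.coeff M.natDegree, E.div_mem (hNE _) (hME _),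
    div_ne_zero ha0 hb0, ?_⟩
  have e1 : (N.coeff N.natDegree)′ = (c - μ * N.natDegree) * N.coeff N.natDegree := by linear_combination -hcN
  have e2 : (M.coeff M.natDegree)′ = (d - μ * M.natDegree) * M.coeff M.natDegree := by linear_combination -hcM
  rw [Derivation.leibniz_div, e1, e2, ← hcd]
  simp only [smul_eq_mul]
  push_cast
  field_simp
  ring

/-- an exponential which is algebraic gives a semi-invariant -/
theorem exp_alg (hE : St E) {u μ : F} (hT : ¬ Tr E u) (hu0 : u ≠ 0) (hμ : μ ∈ E) (hu : u′ = μ * u) :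
    ∃ n : ℕ, 1 ≤ n ∧ ∃ z ∈ E, z ≠ 0 ∧ z′ = (n * μ) * z := by
  have hv : Cf E (C μ * X : F[X]) := (Cf.C hμ).mul Cf.X
  have hu' : u′ = (C μ * X : F[X]).eval u := by simpa using hu
  obtain ⟨p, hp, hm, h0, hdv⟩ := not_tr hT
  have h1 : (DP (C μ * X) p).eval u = 0 := by rw [← DP_eval hu', h0, map_zero]
  obtain ⟨c, hc⟩ := exists_const_of_dvd hm.ne_zero (hdv _ (hp.dp hE hv) h1) (natDegree_DP_X μ p)
  have e1 := coeff_DP_X μ p p.natDegree
  rw [hc, coeff_C_mul, hm.coeff_natDegree, Derivation.map_one_eq_zero, zero_add, mul_one, mul_one] at e1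
  have e2 := coeff_DP_X μ p 0
  rw [hc, coeff_C_mul, Nat.cast_zero, mul_zero, zero_mul, add_zero] at e2
  have hn : 1 ≤ p.natDegree := by
    by_contra hn
    rw [hm.natDegree_eq_zero.1 (by omega), eval_one] at h0
    exact one_ne_zero h0
  refine ⟨p.natDegree, hn, p.coeff 0, hp 0, ?_, ?_⟩
  · intro hp0
    obtain ⟨r, hr⟩ := X_dvd_iff.2 hp0
    have hrE : Cf E r := fun k => by
      have := hp (k + 1)
      rwa [hr, coeff_X_mul] at this
    have hr0 : r.eval u = 0 := by
      rw [hr, eval_mul, eval_X] at h0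
      exact (mul_eq_zero.1 h0).resolve_left hu0
    have hrne : r ≠ 0 := fun h => hm.ne_zero (by rw [hr, h, mul_zero])
    have h3 := natDegree_le_of_dvd (hdv r hrE hr0) hrne
    have h4 : p.natDegree = r.natDegree + 1 := by rw [hr, natDegree_X_mul hrne]
    omega
  · rw [← e2, e1]; ring

/-- a primitive which is algebraic is in the field up to a constant -/
theorem prim_alg (hE : St E) {u a : F} (hT : ¬ Tr E u) (ha : a ∈ E) (hu : u′ = a) : ∃ z ∈ E, z′ = a := by
  have hv : Cf E (C a : F[X]) := Cf.C ha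
  have hu' : u′ = (C a : F[X]).eval u := by simpa using hu
  obtain ⟨p, hp, hm, h0, hdv⟩ := not_tr hT
  have h1 : (DP (C a) p).eval u = 0 := by rw [← DP_eval hu', h0, map_zero]
  have hn : 1 ≤ p.natDegree := by
    by_contra hn
    rw [hm.natDegree_eq_zero.1 (by omega), eval_one] at h0
    exact one_ne_zero h0
  have hz : DP (C a) p = 0 := by
    refine eq_zero_of_dvd_of_natDegree_lt (hdv _ (hp.dp hE hv) h1) ?_
    refine lt_of_le_of_ne (natDegree_DP_C a le_rfl) fun he => ?_
    have h3 : (DP (C a) p).leadingCoeff = 0 := by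
      rw [leadingCoeff, he, coeff_DP_C a le_rfl, hm.coeff_natDegree, Derivation.map_one_eq_zero]
    rw [leadingCoeff_eq_zero] at h3
    rw [h3, natDegree_zero] at he
    omega
  have h2 := congrArg (coeff · (p.natDegree - 1)) hz
  simp only [coeff_zero] at h2
  rw [DP_eq, coeff_add, Differential.coeff_mapCoeffs, coeff_C_mul, coeff_derivative] at h2
  have h3 : p.natDegree - 1 + 1 = p.natDegree := by omega
  have h4 : ((p.natDegree - 1 : ℕ) : F) + 1 = p.natDegree := by
    rw [← Nat.cast_succ, Nat.succ_eq_add_one, h3]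
  rw [h3, hm.coeff_natDegree, one_mul, h4] at h2
  have h5 : (p.natDegree : F) ≠ 0 := by exact_mod_cast (by omega : p.natDegree ≠ 0)
  refine ⟨-(p.coeff (p.natDegree - 1) / p.natDegree), E.neg_mem (E.div_mem (hp _) (natCast_mem E _)), ?_⟩
  rw [map_neg, Derivation.leibniz_div, Derivation.map_natCast, smul_zero, sub_zero, smul_eq_mul, smul_eq_mul]
  have h6 : (p.coeff (p.natDegree - 1))′ = -(a * p.natDegree) := by linear_combination h2
  rw [h6]
  field_simp

/-- elements with derivative in the field in an extension by a primitive -/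
theorem prim_semi (hE : St E) (hc : ∀ x : F, x′ = 0 → x ∈ E) {u a g : F} (hT : Tr E u) (ha : a ∈ E) (hu : u′ = a)
    (hg : g ∈ Ad E u) (h : g′ ∈ E) : ∃ c : F, c′ = 0 ∧ g - c * u ∈ E := by
  have hu' : u′ = (C a : F[X]).eval u := by simpa using hu
  obtain ⟨d, pd⟩ := PD.exists hg
  have h1 := PD.deriv hE (Cf.C ha) hu' pd
  have h2 := PD.unique hT h1 (PD.const h)
  rw [derivative_C, eval_zero, zero_mul, add_zero] at h2
  have hd := hc d h2
  refine ⟨d, h2, ?_⟩
  have h3 := pd.sub (PD.cmul hd PD.self)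
  rw [mul_one, sub_self] at h3
  exact h3.zero hT ((Ad E u).sub_mem hg ((Ad E u).mul_mem (le_Ad _ _ hd) (self_mem_Ad _ _)))

/-- the full system -/
structure BS (E : Subfield F) {ι : Type*} (w q f κ : ι → F) : Prop extends RS E w q where
  f0 : ∀ i, f i ≠ 0
  f' : ∀ i, (f i)′ = w i * f i
  fn : ∀ i g, g′ ≠ (f i ^ 2)⁻¹
  κ' : ∀ i, (κ i)′ = (1 - (f i ^ 2)⁻¹) / 2
  cst : ∀ x : F, x′ = 0 → x ∈ E

variable {ι : Type*} {w q f κ : ι → F}

/-- the field of the solutions of the Riccati equations -/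
def EW (E : Subfield F) (w : ι → F) : Subfield F := AdS E (Set.range w)

theorem RS.stEW (h : RS E w q) : St (EW E w) := by
  have := h.stS Set.univ
  rwa [Set.image_univ] at this

theorem BS.stF (h : BS E w q f κ) (S : Set ι) : St (AdS (EW E w) (f '' S)) := by
  refine h.toRS.stEW.AdS ?_
  rintro _ ⟨i, hi, rfl⟩
  rw [h.f']
  exact (AdS (EW E w) (f '' S)).mul_mem (le_AdS _ _ (subset_AdS _ _ (Set.mem_range_self i)))
    (subset_AdS _ _ (Set.mem_image_of_mem f hi))

section fin

variable [Fintype ι]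

theorem BS.base (h : BS E w q f κ) {g : F} (hg : g ∈ EW E w) (hg0 : g ≠ 0) (m : ι → ℤ)
    (hm : g′ = (∑ i, (m i : F) * w i) * g) (i : ι) : m i = 0 := by
  classical
  by_contra hi
  set E' := AdS E (w '' {i}ᶜ) with hE'
  have hst : St E' := h.toRS.stS _
  have hwi : w i ∉ E' := h.toRS.notMem' {i}ᶜ i (by simp)
  have hEW : EW E w = Ad E' (w i) := by
    rw [EW, hE', ← AdS_insert, ← Set.image_insert_eq]
    congr 1
    rw [← Set.image_univ]
    congr 1
    ext k
    simp [em]
  rw [hEW] at hg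
  have hint : ∀ n : ℤ, (n : F) ∈ E' := fun n => intCast_mem E' n
  have hS : ∑ k ∈ Finset.univ.erase i, (m k : F) * w k ∈ E' := by
    refine E'.sum_mem fun k hk => E'.mul_mem (hint _) (subset_AdS _ _ ⟨k, ?_, rfl⟩)
    simpa using (Finset.mem_erase.1 hk).1
  have hsum : ∑ k, (m k : F) * w k = m i * w i + ∑ k ∈ Finset.univ.erase i, (m k : F) * w k :=
    (Finset.add_sum_erase _ _ (Finset.mem_univ i)).symm
  have hgE := semi (h.w' i) (h.no i) hst (le_AdS _ _ (h.mem i)) hwi hg hg0
    (l := C (m i : F) * X + C (∑ k ∈ Finset.univ.erase i, (m k : F) * w k))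
    (((Cf.C (hint _)).mul Cf.X).add (Cf.C hS)) (by rw [hm, hsum, eval_add, eval_mul, eval_C, eval_X, eval_C])
  have h1 : (m i : F) * w i ∈ E' := by
    have h2 : (m i : F) * w i = g′ / g - ∑ k ∈ Finset.univ.erase i, (m k : F) * w k := by
      rw [hm, mul_div_assoc, div_self hg0, mul_one, hsum]
      ring
    rw [h2]
    exact E'.sub_mem (E'.div_mem (hst _ hgE) hgE) hS
  apply hwi
  have h3 : (m i : F) ≠ 0 := by exact_mod_cast hi
  have h4 : w i = (m i : F)⁻¹ * ((m i : F) * w i) := by field_simp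
  rw [h4]
  exact E'.mul_mem (E'.inv_mem (hint _)) h1

theorem BS.PT (h : BS E w q f κ) (S : Finset ι) :
    (∀ g ∈ AdS (EW E w) (f '' (S : Set ι)), g ≠ 0 → ∀ m : ι → ℤ, g′ = (∑ i, (m i : F) * w i) * g → ∀ i ∉ S, m i = 0) ∧
    ∀ j ∉ S, Tr (AdS (EW E w) (f '' (S : Set ι))) (f j) := by
  classical
  have hwm : ∀ (T : Set ι) (i : ι), w i ∈ AdS (EW E w) (f '' T) := fun T i =>
    le_AdS _ _ (subset_AdS _ _ (Set.mem_range_self i))
  have tr_of : ∀ S : Finset ι, (∀ g ∈ AdS (EW E w) (f '' (S : Set ι)), g ≠ 0 → ∀ m : ι → ℤ,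
      g′ = (∑ i, (m i : F) * w i) * g → ∀ i ∉ S, m i = 0) → ∀ j ∉ S, Tr (AdS (EW E w) (f '' (S : Set ι))) (f j) := by
    intro S hS j hj
    by_contra hT
    obtain ⟨n, hn, z, hz, hz0, hz'⟩ := exp_alg (h.stF S) hT (h.f0 j) (hwm _ j) (h.f' j)
    have h1 := hS z hz hz0 (Pi.single j (n : ℤ)) (by
      rw [hz', Finset.sum_eq_single j]
      · simp
      · intro k _ hk; simp [hk]
      · intro hk; exact absurd (Finset.mem_univ j) hk) j hj
    rw [Pi.single_eq_same] at h1
    omega
  have main : ∀ S : Finset ι, (∀ g ∈ AdS (EW E w) (f '' (S : Set ι)), g ≠ 0 → ∀ m : ι → ℤ,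
      g′ = (∑ i, (m i : F) * w i) * g → ∀ i ∉ S, m i = 0) := by
    intro S
    induction S using Finset.induction_on with
    | empty =>
      intro g hg hg0 m hm i _
      rw [Finset.coe_empty, Set.image_empty, AdS_empty] at hg
      exact h.base hg hg0 m hm i
    | insert j S hj ih =>
      intro g hg hg0 m hm i hi
      have hT := tr_of S ih j hj
      rw [Finset.coe_insert, Set.image_insert_eq, AdS_insert] at hg
      have hsum : ∑ i, (m i : F) * w i ∈ AdS (EW E w) (f '' (S : Set ι)) :=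
        Subfield.sum_mem _ fun k _ => Subfield.mul_mem _ (intCast_mem _ _) (hwm _ k)
      obtain ⟨k, z, hz, hz0, hz'⟩ := exp_semi (h.stF S) hT (hwm _ j) (h.f' j) hg hg0 hsum hm
      have h1 := ih z hz hz0 (m - Pi.single j k) (by
        rw [hz']
        congr 1
        simp only [Pi.sub_apply, Int.cast_sub, sub_mul, Finset.sum_sub_distrib]
        congr 1
        rw [Finset.sum_eq_single j]
        · simp
        · intro l _ hl; simp [hl]
        · intro hk; exact absurd (Finset.mem_univ j) hk) i (fun h2 => hi (Finset.mem_insert_of_mem h2))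
      have hij : i ≠ j := fun e => hi (e ▸ Finset.mem_insert_self _ _)
      rw [Pi.sub_apply, Pi.single_eq_of_ne hij, sub_zero] at h1
      exact h1
  exact ⟨main S, tr_of S (main S)⟩

/-- the field of the `w i` and the `f i` -/
def GF (E : Subfield F) (w f : ι → F) : Subfield F := AdS (EW E w) (Set.range f)

theorem BS.stG (h : BS E w q f κ) : St (GF E w f) := by
  have := h.stF Set.univ
  rwa [Set.image_univ] at this

theorem BS.κmem (_h : BS E w q f κ) (i : ι) : (1 - (f i ^ 2)⁻¹) / 2 ∈ GF E w f := by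
  have h1 : f i ∈ GF E w f := subset_AdS _ _ (Set.mem_range_self i)
  have h2 : (2 : F) ∈ GF E w f := by exact_mod_cast natCast_mem (GF E w f) 2
  exact Subfield.div_mem _ (Subfield.sub_mem _ (Subfield.one_mem _) (Subfield.inv_mem _ (Subfield.pow_mem _ h1 2))) h2

theorem BS.stK (h : BS E w q f κ) (S : Set ι) : St (AdS (GF E w f) (κ '' S)) := by
  refine h.stG.AdS ?_
  rintro _ ⟨i, hi, rfl⟩
  rw [h.κ']
  exact le_AdS _ _ (h.κmem i)

theorem BS.cG (h : BS E w q f κ) : ∀ x : F, x′ = 0 → x ∈ GF E w f := fun x hx =>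
  le_AdS _ _ (le_AdS _ _ (h.cst x hx))

theorem BS.baseC (h : BS E w q f κ) {g : F} (hg : g ∈ GF E w f) (c : ι → F) (hc : ∀ i, (c i)′ = 0)
    (hgc : g′ = ∑ i, c i * ((1 - (f i ^ 2)⁻¹) / 2)) (i : ι) : c i = 0 := by
  classical
  by_contra hi
  set E' := AdS (EW E w) (f '' ((Finset.univ.erase i : Finset ι) : Set ι)) with hE'
  have hst : St E' := h.stF _
  have hT : Tr E' (f i) := (h.PT (Finset.univ.erase i)).2 i (Finset.notMem_erase i _)
  have hG : GF E w f = Ad E' (f i) := by
    rw [GF, hE', ← AdS_insert, ← Set.image_insert_eq, ← Set.image_univ]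
    congr 2
    rw [← Finset.coe_insert, Finset.insert_erase (Finset.mem_univ i), Finset.coe_univ]
  rw [hG] at hg
  have hwi : w i ∈ E' := le_AdS _ _ (subset_AdS _ _ (Set.mem_range_self i))
  have hv : Cf E' (C (w i) * X : F[X]) := (Cf.C hwi).mul Cf.X
  have hf' : (f i)′ = (C (w i) * X : F[X]).eval (f i) := by simpa using h.f' i
  have hcE : ∀ k, c k ∈ E' := fun k => le_AdS _ _ (le_AdS _ _ (h.cst _ (hc k)))
  have m2 : (2 : F) ∈ E' := by exact_mod_cast natCast_mem E' 2
  obtain ⟨d, pd⟩ := PD.exists hg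
  have p1 := PD.deriv hst hv hf' pd
  have hdv : (derivative (C (w i) * X : F[X])).eval (f i) = w i := by simp
  rw [hgc, hdv] at p1
  have p2 : PD E' (f i) ((f i ^ 2)⁻¹) (-(2 * (f i ^ 3)⁻¹)) := by
    refine ⟨1, X ^ 2, Cf.one, Cf.X.pow 2, ?_, ?_, ?_⟩
    · rw [eval_pow, eval_X]; exact pow_ne_zero 2 (h.f0 i)
    · rw [eval_one, eval_pow, eval_X, one_div]
    · have := h.f0 i
      simp only [derivative_one, derivative_X_pow, zero_mul, zero_sub, one_mul, eval_neg, eval_pow, eval_X, eval_mul,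
        eval_C, Nat.cast_ofNat, Nat.add_one_sub_one, pow_one]
      field_simp
  have hS : ∑ k ∈ Finset.univ.erase i, c k * ((1 - (f k ^ 2)⁻¹) / 2) + c i / 2 ∈ E' := by
    refine E'.add_mem (E'.sum_mem fun k hk => E'.mul_mem (hcE k) ?_) (E'.div_mem (hcE i) m2)
    have h1 : f k ∈ E' := subset_AdS _ _ ⟨k, hk, rfl⟩
    exact E'.div_mem (E'.sub_mem E'.one_mem (E'.inv_mem (E'.pow_mem h1 2))) m2
  have p3 := (PD.const (x := f i) hS).sub (PD.cmul (E'.div_mem (hcE i) m2) p2)
  have hsum : ∑ k, c k * ((1 - (f k ^ 2)⁻¹) / 2) =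
      ∑ k ∈ Finset.univ.erase i, c k * ((1 - (f k ^ 2)⁻¹) / 2) + c i / 2 - c i / 2 * (f i ^ 2)⁻¹ := by
    rw [← Finset.add_sum_erase _ _ (Finset.mem_univ i)]
    ring
  rw [← hsum] at p3
  have h4 := PD.unique hT p1 p3
  apply h.fn i (f i * d / c i)
  rw [Derivation.leibniz_div, hc i, smul_zero, sub_zero, Derivation.leibniz, h.f']
  simp only [smul_eq_mul]
  have h5 : d′ = c i * (f i ^ 3)⁻¹ - w i * d := by linear_combination h4
  rw [h5]
  have := h.f0 i
  field_simp
  ring

theorem BS.QT (h : BS E w q f κ) (S : Finset ι) :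
    (∀ g ∈ AdS (GF E w f) (κ '' (S : Set ι)), ∀ c : ι → F, (∀ i, (c i)′ = 0) →
      g′ = ∑ i, c i * ((1 - (f i ^ 2)⁻¹) / 2) → ∀ i ∉ S, c i = 0) ∧
    ∀ j ∉ S, Tr (AdS (GF E w f) (κ '' (S : Set ι))) (κ j) := by
  classical
  have tr_of : ∀ S : Finset ι, (∀ g ∈ AdS (GF E w f) (κ '' (S : Set ι)), ∀ c : ι → F, (∀ i, (c i)′ = 0) →
      g′ = ∑ i, c i * ((1 - (f i ^ 2)⁻¹) / 2) → ∀ i ∉ S, c i = 0) →
      ∀ j ∉ S, Tr (AdS (GF E w f) (κ '' (S : Set ι))) (κ j) := by
    intro S hS j hj
    by_contra hT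
    obtain ⟨z, hz, hz'⟩ := prim_alg (h.stK S) hT (le_AdS _ _ (h.κmem j)) (h.κ' j)
    have h1 := hS z hz (Pi.single j 1) (fun i => by
      rcases eq_or_ne i j with rfl | hij
      · rw [Pi.single_eq_same, Derivation.map_one_eq_zero]
      · rw [Pi.single_eq_of_ne hij, map_zero]) (by
      rw [hz', Finset.sum_eq_single j]
      · simp
      · intro k _ hk; simp [hk]
      · intro hk; exact absurd (Finset.mem_univ j) hk) j hj
    rw [Pi.single_eq_same] at h1
    exact one_ne_zero h1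
  have main : ∀ S : Finset ι, (∀ g ∈ AdS (GF E w f) (κ '' (S : Set ι)), ∀ c : ι → F, (∀ i, (c i)′ = 0) →
      g′ = ∑ i, c i * ((1 - (f i ^ 2)⁻¹) / 2) → ∀ i ∉ S, c i = 0) := by
    intro S
    induction S using Finset.induction_on with
    | empty =>
      intro g hg c hc hgc i _
      rw [Finset.coe_empty, Set.image_empty, AdS_empty] at hg
      exact h.baseC hg c hc hgc i
    | insert j S hj ih =>
      intro g hg c hc hgc i hi
      have hT := tr_of S ih j hj
      rw [Finset.coe_insert, Set.image_insert_eq, AdS_insert] at hg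
      have hsum : ∑ i, c i * ((1 - (f i ^ 2)⁻¹) / 2) ∈ AdS (GF E w f) (κ '' (S : Set ι)) :=
        Subfield.sum_mem _ fun k _ => Subfield.mul_mem _ (le_AdS _ _ (h.cG _ (hc k))) (le_AdS _ _ (h.κmem k))
      obtain ⟨d, hd, hgd⟩ := prim_semi (h.stK S) (fun x hx => le_AdS _ _ (h.cG x hx)) hT (le_AdS _ _ (h.κmem j)) (h.κ' j)
        hg (hgc ▸ hsum)
      have h1 := ih _ hgd (c - Pi.single j d) (fun i => by
        rcases eq_or_ne i j with rfl | hij
        · rw [Pi.sub_apply, Pi.single_eq_same, map_sub, hc, hd, sub_zero]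
        · rw [Pi.sub_apply, Pi.single_eq_of_ne hij, sub_zero, hc]) (by
        rw [map_sub, hgc, Derivation.leibniz, hd, h.κ', smul_zero, add_zero, smul_eq_mul]
        simp only [Pi.sub_apply, sub_mul, Finset.sum_sub_distrib]
        congr 1
        rw [Finset.sum_eq_single j]
        · simp
        · intro l _ hl; simp [hl]
        · intro hk; exact absurd (Finset.mem_univ j) hk) i (fun h2 => hi (Finset.mem_insert_of_mem h2))
      have hij : i ≠ j := fun e => hi (e ▸ Finset.mem_insert_self _ _)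
      rw [Pi.sub_apply, Pi.single_eq_of_ne hij, sub_zero] at h1
      exact h1
  exact ⟨main S, tr_of S (main S)⟩

end fin

end Pool.Agent.H18.Bes
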