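import Pool.Agent.H18.Bes.StepA

/-!
# Adjoining exponentials and primitives does not add solutions of a Riccati equation
-/

set_option autoImplicit false
set_option linter.unusedSectionVars false

open Polynomial
open scoped Differential

namespace Pool.Agent.H18.Bes

variable {F : Type*} [Field F] [Differential F] [CharZero F] {E : Subfield F}

/-- the Riccati equation for a quotient as an identity of polynomials -/
theorem ric_poly {x w q : F} {v N M : F[X]} (hE : St E) (hv : Cf E v) (hx : x′ = v.eval x) (hT : Tr E x) (hq : q ∈ E)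
    (hw : w′ = q - w ^ 2) (hN : Cf E N) (hM : Cf E M) (hM0 : M.eval x ≠ 0) (hNM : w = N.eval x / M.eval x) :
    DP v N * M - N * DP v M = C q * M ^ 2 - N ^ 2 := by
  have h1 : (DP v N * M - N * DP v M - (C q * M ^ 2 - N ^ 2)).eval x = 0 := by
    have h3 := rep_deriv (N := N) hx hM0
    rw [← hNM, hw, hNM] at h3
    rw [eval_sub, eval_sub (p := C q * M ^ 2), eval_mul (p := C q), eval_pow, eval_pow, eval_C]
    field_simp at h3
    linear_combination -h3
  have h3 := hT _ ((((hN.dp hE hv).mul hM).sub (hN.mul (hM.dp hE hv))).sub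
    (((Cf.C hq).mul (hM.pow 2)).sub (hN.pow 2))) h1
  exact sub_eq_zero.1 h3

theorem quot_ric {n m n' m' q : F} (hm : m ≠ 0) (hn : n′ = n') (hm' : m′ = m')
    (h : n' * m - n * m' = q * m ^ 2 - n ^ 2) : (n / m)′ = q - (n / m) ^ 2 := by
  rw [Derivation.leibniz_div, hn, hm', smul_eq_mul, smul_eq_mul, smul_eq_mul]
  field_simp
  linear_combination h

theorem alg_case {w q u : F} (hE : St E) (hw : w′ = q - w ^ 2) (hN : NoInt w) (hq : q ∈ E) (hT : ¬ Tr E u)
    (h : w ∈ Ad E u) : w ∈ E := by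
  by_contra hwE
  exact algebraic_of_mem hT h (tr_of_notMem hw hN hE hq hwE)

theorem tower_exp {w q u l : F} (hE : St E) (hw : w′ = q - w ^ 2) (hN : NoInt w) (hq : q ∈ E) (hl : l ∈ E)
    (hu : u′ = l * u) (h : w ∈ Ad E u) : w ∈ E := by
  by_cases hT : Tr E u
  swap
  · exact alg_case hE hw hN hq hT h
  obtain ⟨N, M, hNE, hME, hcop, hM0, hNM⟩ := exists_coprime_rep h
  have hv : Cf E (C l * X : F[X]) := (Cf.C hl).mul Cf.X
  have hu' : u′ = (C l * X : F[X]).eval u := by simpa using hu
  have hp := ric_poly hE hv hu' hT hq hw hNE hME hM0 hNM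
  have h0 : (0 : F)′ = (C l * X : F[X]).eval 0 := by simp
  have hp0 := congrArg (eval 0) hp
  simp only [eval_sub, eval_mul, eval_pow, eval_C] at hp0
  have hm0 : M.eval 0 ≠ 0 := by
    intro hm
    rw [hm] at hp0
    have hd : (DP (C l * X) M).eval 0 = 0 := by rw [← DP_eval h0, hm, map_zero]
    rw [hd] at hp0
    have hn : N.eval 0 = 0 := by
      have : N.eval 0 ^ 2 = 0 := by linear_combination hp0
      exact (pow_eq_zero_iff two_ne_zero).1 this
    obtain ⟨a, b, hab⟩ := hcop
    have := congrArg (eval 0) hab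
    simp [hn, hm] at this
  have h1 := quot_ric hm0 (DP_eval h0 N) (DP_eval h0 M) hp0
  rw [← ric_unique hw hN h1]
  exact E.div_mem (hNE.eval_mem le_rfl E.zero_mem) (hME.eval_mem le_rfl E.zero_mem)

theorem coeff_DP_C (a : F) {p : F[X]} {n : ℕ} (hp : p.natDegree ≤ n) : (DP (C a) p).coeff n = (p.coeff n)′ := by
  rw [DP_eq, coeff_add, Differential.coeff_mapCoeffs, coeff_C_mul, coeff_derivative,
    coeff_eq_zero_of_natDegree_lt (Nat.lt_succ_of_le hp), zero_mul, mul_zero, add_zero]

theorem natDegree_DP_C (a : F) {p : F[X]} {n : ℕ} (hp : p.natDegree ≤ n) : (DP (C a) p).natDegree ≤ n := by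
  refine natDegree_le_iff_coeff_eq_zero.2 fun k hk => ?_
  rw [coeff_DP_C a (hp.trans hk.le), coeff_eq_zero_of_natDegree_lt (lt_of_le_of_lt hp hk), map_zero]

theorem tower_prim {w q u a : F} (hE : St E) (hw : w′ = q - w ^ 2) (hN : NoInt w) (hq : q ∈ E) (ha : a ∈ E)
    (hu : u′ = a) (h : w ∈ Ad E u) : w ∈ E := by
  by_cases hT : Tr E u
  swap
  · exact alg_case hE hw hN hq hT h
  obtain ⟨N, M, hNE, hME, hcop, hM0, hNM⟩ := exists_coprime_rep h
  have hv : Cf E (C a : F[X]) := Cf.C ha
  have hu' : u′ = (C a : F[X]).eval u := by simpa using hu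
  have hp := ric_poly hE hv hu' hT hq hw hNE hME hM0 hNM
  set n := max N.natDegree M.natDegree with hn
  have hN1 : N.natDegree ≤ n := le_max_left _ _
  have hM1 : M.natDegree ≤ n := le_max_right _ _
  have hp0 := congrArg (coeff · (n + n)) hp
  simp only [coeff_sub, coeff_C_mul, pow_two] at hp0
  rw [coeff_mul_add_eq_of_natDegree_le (natDegree_DP_C a hN1) hM1,
    coeff_mul_add_eq_of_natDegree_le hN1 (natDegree_DP_C a hM1), coeff_mul_add_eq_of_natDegree_le hM1 hM1,
    coeff_mul_add_eq_of_natDegree_le hN1 hN1, coeff_DP_C a hN1, coeff_DP_C a hM1] at hp0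
  have hm0 : M.coeff n ≠ 0 := by
    intro hm
    rw [hm, map_zero] at hp0
    have hn0 : N.coeff n = 0 := by
      have : N.coeff n ^ 2 = 0 := by linear_combination hp0
      exact (pow_eq_zero_iff two_ne_zero).1 this
    have hMne : M ≠ 0 := fun h => hM0 (by rw [h, eval_zero])
    rcases max_cases N.natDegree M.natDegree with ⟨h1, h2⟩ | ⟨h1, h2⟩
    · rw [← hn] at h1
      have hN0 : N = 0 := by
        rw [h1] at hn0
        exact leadingCoeff_eq_zero.1 hn0
      rw [hN0, natDegree_zero] at h2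
      have h3 : n = M.natDegree := by rw [h1, hN0, natDegree_zero]; omega
      rw [h3] at hm
      exact hMne (leadingCoeff_eq_zero.1 hm)
    · rw [← hn] at h1
      rw [h1] at hm
      exact hMne (leadingCoeff_eq_zero.1 hm)
  have h1 := quot_ric (q := q) hm0 (rfl : (N.coeff n)′ = _) (rfl : (M.coeff n)′ = _) (by linear_combination hp0)
  rw [← ric_unique hw hN h1]
  exact E.div_mem (hNE _) (hME _)

/-- the fields obtained from `E` by adjoining exponentials and primitives -/
inductive Tow (E : Subfield F) : Subfield F → Prop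
  | base : Tow E E
  | exp {K : Subfield F} {u l : F} : Tow E K → l ∈ K → u′ = l * u → Tow E (Ad K u)
  | prim {K : Subfield F} {u a : F} : Tow E K → a ∈ K → u′ = a → Tow E (Ad K u)

theorem Tow.le {K : Subfield F} (h : Tow E K) : E ≤ K := by
  induction h with
  | base => exact le_rfl
  | exp _ _ _ ih => exact ih.trans (le_Ad _ _)
  | prim _ _ _ ih => exact ih.trans (le_Ad _ _)

theorem Tow.st {K : Subfield F} (h : Tow E K) (hE : St E) : St K := by
  induction h with
  | base => exact hE
  | @exp K u l _ hl hu ih => exact ih.Ad (v := C l * X) ((Cf.C hl).mul Cf.X) (by simpa using hu)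
  | @prim K u a _ ha hu ih => exact ih.Ad (v := C a) (Cf.C ha) (by simpa using hu)

theorem Tow.mem {K : Subfield F} (h : Tow E K) (hE : St E) {w q : F} (hw : w′ = q - w ^ 2) (hN : NoInt w) (hq : q ∈ E)
    (hK : w ∈ K) : w ∈ E := by
  induction h with
  | base => exact hK
  | exp h1 hl hu ih => exact ih (tower_exp (h1.st hE) hw hN (h1.le hq) hl hu hK)
  | prim h1 ha hu ih => exact ih (tower_prim (h1.st hE) hw hN (h1.le hq) ha hu hK)

theorem Tow.mem2 {K : Subfield F} (h : Tow E K) (hE : St E) {w1 q1 w q : F} (hw1 : w1′ = q1 - w1 ^ 2) (hq1 : q1 ∈ E)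
    (hw : w′ = q - w ^ 2) (hN : NoInt w) (hq : q ∈ E) (hK : w ∈ Ad K w1) : w ∈ Ad E w1 := by
  induction h with
  | base => exact hK
  | @exp K u l h1 hl hu ih =>
    refine ih ?_
    rw [Ad_comm] at hK
    exact tower_exp ((h1.st hE).ric hw1 (h1.le hq1)) hw hN (le_Ad _ _ (h1.le hq)) (le_Ad _ _ hl) hu hK
  | @prim K u a h1 ha hu ih =>
    refine ih ?_
    rw [Ad_comm] at hK
    exact tower_prim ((h1.st hE).ric hw1 (h1.le hq1)) hw hN (le_Ad _ _ (h1.le hq)) (le_Ad _ _ ha) hu hK

/-- the system of Riccati equations stays independent in a tower -/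
theorem RS.tow {ι : Type*} {w q : ι → F} (h : RS E w q) {K : Subfield F} (hK : Tow E K) : RS K w q where
  st := hK.st h.st
  w' := h.w'
  no := h.no
  mem i := hK.le (h.mem i)
  inj := h.inj
  b1 i hi := h.b1 i (hK.mem h.st (h.w' i) (h.no i) (h.mem i) hi)
  b2 i j hij hi := h.b2 i j hij (hK.mem2 h.st (h.w' j) (h.mem j) (h.w' i) (h.no i) (h.mem i) hi)

end Pool.Agent.H18.Bes
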