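import Pool.Agent.H18.Bes.QbB
import Pool.Agent.H18.L.N902.EW.Fi2

/-!
# Algebraic independence of the values of the Bessel functions
-/

set_option autoImplicit false
set_option linter.unusedSectionVars false

open PowerSeries Set

namespace Pool.Agent.H18.Bes

open Pool.Agent.N902.EW

section

variable {K : Type*} [Field K] [CharZero K]

theorem B1_le_BA {f : K⟦X⟧} (hf : f ∈ B1 K) : f ∈ BA K := by
  refine Algebra.adjoin_induction (p := fun f _ => f ∈ BA K) ?_ ?_ ?_ ?_ hf
  · rintro _ ⟨p, rfl⟩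
    rcases p with ρ | ρ | ρ
    · exact Gs_le_BA ρ (Or.inl rfl)
    · exact Gs_le_BA ρ (Or.inr (Or.inl rfl))
    · exact Gs_le_BA ρ (Or.inr (Or.inr (Or.inl rfl)))
  · intro r; exact SA_le_BA r.2
  · intro b c _ _ hb hc; exact (BA K).add_mem hb hc
  · intro b c _ _ hb hc; exact (BA K).mul_mem hb hc

end

/-- the field generated by all values of the algebra of iterated integrals -/
noncomputable def HH : IntermediateField ℚ ℂ := IntermediateField.adjoin ℚ (Set.range (evA io : AA Qb →+* ℂ))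

/-- the evaluation on the algebra -/
noncomputable def evB1 : B1 Qb →+* ℂ where
  toFun f := evk io f.1
  map_one' := evk_one
  map_zero' := evk_zero
  map_mul' f g := evk_mul (EFK_BA (B1_le_BA f.2)) (EFK_BA (B1_le_BA g.2))
  map_add' f g := evk_add (EFK_BA (B1_le_BA f.2)) (EFK_BA (B1_le_BA g.2))

theorem evB1_injective : Function.Injective evB1 := by
  rw [injective_iff_map_eq_zero]
  intro f hf
  exact Subtype.ext (evk_inj_Qb' io (B1_le_BA f.2) hf)

/-- the values of the Bessel functions are algebraically independent over the field of the values of the iterated integrals -/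
theorem ai_bval : AlgebraicIndependent HH (fun p => evk io (bS Qb p)) := by
  rw [HH, IntermediateField.algebraicIndependent_adjoin_iff]
  let R' : Subalgebra ℚ ℂ := Algebra.adjoin ℚ (Set.range (evA io : AA Qb →+* ℂ))
  have hex : ∀ z ∈ R', ∃ f : AA Qb, evA io f = z := by
    intro z hz
    induction hz using Algebra.adjoin_induction with
    | mem z hz => exact hz
    | algebraMap r =>
      refine ⟨algebraMap Qb (AA Qb) (algebraMap ℚ Qb r), ?_⟩
      rw [evA_algebraMap]
      simp
    | add x y _ _ hx hy =>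
      obtain ⟨f, hf⟩ := hx
      obtain ⟨g, hg⟩ := hy
      exact ⟨f + g, by rw [map_add, hf, hg]⟩
    | mul x y _ _ hx hy =>
      obtain ⟨f, hf⟩ := hx
      obtain ⟨g, hg⟩ := hy
      exact ⟨f * g, by rw [map_mul, hf, hg]⟩
  let f : AA Qb →+* R' := (evA io).codRestrict R'.toSubring (fun b => Algebra.subset_adjoin ⟨b, rfl⟩)
  have hf : Function.Surjective f := by
    rintro ⟨z, hz⟩
    obtain ⟨g, hg⟩ := hex z hz
    exact ⟨g, Subtype.ext hg⟩
  have h := algebraicIndependent_adjoin (ai_bS' (K := Qb))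
  exact h.ringHom_of_comp_eq f evB1 hf evB1_injective (RingHom.ext fun b => rfl)

/-! ### The classical series -/

/-- `I_0(z)` -/
noncomputable def I0 (z : ℂ) : ℂ := ∑' k : ℕ, (z ^ 2 / 4) ^ k / (k.factorial : ℂ) ^ 2

/-- `I_1(z)` -/
noncomputable def I1 (z : ℂ) : ℂ := z / 2 * ∑' k : ℕ, (z ^ 2 / 4) ^ k / ((k.factorial : ℂ) * ((k + 1).factorial : ℂ))

/-- `∑ H_k (z^2/4)^k / k!^2` -/
noncomputable def HS (z : ℂ) : ℂ := ∑' k : ℕ, ((harmonic k : ℚ) : ℂ) * ((z ^ 2 / 4) ^ k / (k.factorial : ℂ) ^ 2)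

theorem tsum_two {f : ℕ → ℂ} (h : ∀ k, f (2 * k + 1) = 0) : ∑' m, f m = ∑' k, f (2 * k) := by
  refine (Function.Injective.tsum_eq (g := fun k : ℕ => 2 * k) (fun a b hab => by simpa using hab) ?_).symm
  intro m hm
  rcases Nat.even_or_odd' m with ⟨k, rfl | rfl⟩
  · exact ⟨k, rfl⟩
  · exact absurd (h k) hm

theorem hn_eq (k : ℕ) : hn ℂ k = ((harmonic k : ℚ) : ℂ) := by
  rw [hn, harmonic]
  push_cast
  exact Finset.sum_congr rfl fun j _ => by rw [one_div]

theorem evk_fs (ρ : Qb) {z : ℂ} (hz : io ρ = z ^ 2 / 4) : evk io (fs ρ) = I0 z := by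
  rw [evk, tsum_two (fun k => by rw [coeff_fs_odd, map_zero]), I0]
  refine tsum_congr fun k => ?_
  rw [coeff_fs_even, map_div₀, map_pow, map_pow, map_natCast, hz]

theorem evk_Ss (ρ : Qb) {z : ℂ} (hz : io ρ = z ^ 2 / 4) : evk io (Ss ρ) = HS z := by
  rw [evk, tsum_two (fun k => by rw [coeff_Ss_odd, map_zero]), HS]
  refine tsum_congr fun k => ?_
  rw [coeff_Ss_even, map_mul, map_div₀, map_pow, map_pow, map_natCast, hz, map_hn, hn_eq]

theorem evk_Js (ρ : Qb) {z : ℂ} (hz : io ρ = z ^ 2 / 4) : evk io (Js ρ) = z * I1 z := by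
  rw [evk, tsum_two (fun k => by rw [Js, coeff_th, coeff_fs_odd, mul_zero, map_zero]), I1]
  have hs : Summable fun k : ℕ => io (coeff (2 * k) (Js ρ)) :=
    ((EFK_th (EFK_fs (φ := io) ρ)).summable_norm.of_norm).comp_injective (i := fun k : ℕ => 2 * k)
      (fun a b hab => by simpa using hab)
  rw [hs.tsum_eq_zero_add, Js, coeff_th, mul_zero, Nat.cast_zero, zero_mul, map_zero, zero_add, ← mul_assoc,
    ← tsum_mul_left]
  refine tsum_congr fun k => ?_
  rw [coeff_th, coeff_fs_even, map_mul, map_div₀, map_pow, map_pow, map_natCast, map_natCast, hz, Nat.factorial_succ]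
  have h1 : (k.factorial : ℂ) ≠ 0 := by exact_mod_cast k.factorial_ne_zero
  have h2 : ((k : ℂ) + 1) ≠ 0 := by exact_mod_cast Nat.succ_ne_zero k
  push_cast
  field_simp
  ring

end Pool.Agent.H18.Bes
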